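import Mathlib

/-!
# The Brouwer fixed point theorem (Milnor–Rogers proof)
-/

namespace Pool.Agent.Lib.MP_e589f0_an

open MeasureTheory Metric Set Polynomial
open scoped Topology ENNReal NNReal

/-- Euclidean space. -/
abbrev Eu (n : ℕ) := EuclideanSpace ℝ (Fin n)

section Det

variable {n : ℕ}

/-- For a continuous linear map `A` of Euclidean space, `t ↦ det (1 + t A)` is a polynomial of
degree at most `n`. -/
theorem exists_det_poly (A : Eu n →L[ℝ] Eu n) :
    ∃ P : ℝ[X], P.natDegree ≤ n ∧ ∀ t : ℝ, P.eval t = (1 + t • A).det := by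
  classical
  let b := (EuclideanSpace.basisFun (Fin n) ℝ).toBasis
  let A' : Matrix (Fin n) (Fin n) ℝ := LinearMap.toMatrix b b (A : Eu n →ₗ[ℝ] Eu n)
  refine ⟨Matrix.det ((X : ℝ[X]) • A'.map C + (1 : Matrix (Fin n) (Fin n) ℝ).map C), ?_, ?_⟩
  · have := natDegree_det_X_add_C_le A' (1 : Matrix (Fin n) (Fin n) ℝ)
    rwa [Fintype.card_fin] at this
  · intro t
    have h1 : (1 + t • A).det = Matrix.det (1 + t • A') := by
      change LinearMap.det ((1 + t • A : Eu n →L[ℝ] Eu n) : Eu n →ₗ[ℝ] Eu n) = _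
      rw [← LinearMap.det_toMatrix b]
      congr 1
      have : ((1 + t • A : Eu n →L[ℝ] Eu n) : Eu n →ₗ[ℝ] Eu n) =
          1 + t • (A : Eu n →ₗ[ℝ] Eu n) := rfl
      rw [this, map_add, map_smul, LinearMap.toMatrix_one]
    rw [h1]
    rw [← Polynomial.coe_evalRingHom, RingHom.map_det]
    congr 1
    ext i j
    by_cases hij : i = j
    · simp [hij]; ring
    · simp [hij]; ring

/-- Lagrange interpolation at the nodes `t₀ * j / (n + 1)`, `0 ≤ j ≤ n`, evaluated at `1`. -/
theorem exists_weights (n : ℕ) {t₀ : ℝ} (ht₀ : 0 < t₀) :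
    ∃ w : Fin (n + 1) → ℝ, ∑ j, w j = 1 ∧ ∀ P : ℝ[X], P.natDegree ≤ n →
      P.eval 1 = ∑ j, w j * P.eval (t₀ * j / (n + 1)) := by
  classical
  let v : Fin (n + 1) → ℝ := fun j => t₀ * j / (n + 1)
  have hv : Function.Injective v := by
    intro i j hij
    have h1 : (0 : ℝ) < n + 1 := by positivity
    simp only [v] at hij
    rw [div_left_inj' h1.ne'] at hij
    have h2 := mul_left_cancel₀ ht₀.ne' hij
    exact Fin.ext (by exact_mod_cast h2)
  have hvs : Set.InjOn v (Finset.univ : Finset (Fin (n + 1))) := hv.injOn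
  refine ⟨fun j => (Lagrange.basis Finset.univ v j).eval 1, ?_, ?_⟩
  · rw [← Polynomial.eval_finsetSum, Lagrange.sum_basis hvs Finset.univ_nonempty, eval_one]
  · intro P hP
    have hdeg : P.degree < (Finset.univ : Finset (Fin (n + 1))).card := by
      rw [Finset.card_univ, Fintype.card_fin]
      refine (Polynomial.degree_le_of_natDegree_le hP).trans_lt ?_
      exact_mod_cast Nat.lt_succ_self n
    have h := Lagrange.eq_interpolate (f := P) hvs hdeg
    have h2 : P.eval 1 = ((Lagrange.interpolate Finset.univ v) fun i => P.eval (v i)).eval 1 := by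
      rw [← h]
    rw [h2, Lagrange.interpolate_apply, Polynomial.eval_finsetSum]
    refine Finset.sum_congr rfl fun j _ => ?_
    rw [eval_mul, eval_C, mul_comm]

theorem det_pos_of_norm_lt {A : Eu n →L[ℝ] Eu n} (hA : ‖A‖ < 1) : 0 < (1 + A).det := by
  have hunit : ∀ s : ℝ, s ∈ Icc (0 : ℝ) 1 → (1 + s • A).det ≠ 0 := by
    intro s hs h0
    have hs' : ‖-(s • A)‖ < 1 := by
      rw [norm_neg, norm_smul, Real.norm_eq_abs, abs_of_nonneg hs.1]
      exact (mul_le_of_le_one_left (norm_nonneg _) hs.2).trans_lt hA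
    have hu : IsUnit (1 - (-(s • A))) := isUnit_one_sub_of_norm_lt_one hs'
    rw [sub_neg_eq_add] at hu
    have hu2 : IsUnit ((1 + s • A : Eu n →L[ℝ] Eu n) : Eu n →ₗ[ℝ] Eu n) := by
      obtain ⟨u, hu⟩ := hu
      refine ⟨⟨(u : Eu n →L[ℝ] Eu n), ((u⁻¹ : (Eu n →L[ℝ] Eu n)ˣ) : Eu n →L[ℝ] Eu n), ?_, ?_⟩, ?_⟩
      · have := u.mul_inv
        exact congrArg (fun f : Eu n →L[ℝ] Eu n => (f : Eu n →ₗ[ℝ] Eu n)) this
      · have := u.inv_mul
        exact congrArg (fun f : Eu n →L[ℝ] Eu n => (f : Eu n →ₗ[ℝ] Eu n)) this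
      · simp only [hu]
    have := (LinearMap.isUnit_iff_isUnit_det _).1 hu2
    exact this.ne_zero h0
  by_contra hneg
  rw [not_lt] at hneg
  have hcont : ContinuousOn (fun s : ℝ => (1 + s • A).det) (Icc 0 1) := by
    obtain ⟨P, _, hP⟩ := exists_det_poly A
    have : (fun s : ℝ => (1 + s • A).det) = fun s => P.eval s := by
      funext s; rw [hP]
    rw [this]
    exact P.continuous.continuousOn
  have h0 : (1 + (0 : ℝ) • A).det = 1 := by
    have hz : (0 : ℝ) • A = 0 := zero_smul ℝ A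
    rw [hz, add_zero]
    change LinearMap.det ((1 : Eu n →L[ℝ] Eu n) : Eu n →ₗ[ℝ] Eu n) = 1
    have : ((1 : Eu n →L[ℝ] Eu n) : Eu n →ₗ[ℝ] Eu n) = LinearMap.id := rfl
    rw [this, LinearMap.det_id]
  have hmem : (0 : ℝ) ∈ Icc ((1 + (1 : ℝ) • A).det) ((1 + (0 : ℝ) • A).det) := by
    rw [h0, one_smul]
    exact ⟨hneg, zero_le_one⟩
  obtain ⟨s, hs, hs0⟩ := intermediate_value_Icc' zero_le_one hcont hmem
  exact hunit s hs hs0

end Det

section NoRetraction

variable {n : ℕ}

/-- There is no `C^1` retraction of the closed unit ball onto the unit sphere. -/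
theorem no_retraction {U : Set (Eu n)} (hU : IsOpen U) (hBU : closedBall (0 : Eu n) 1 ⊆ U)
    {r : Eu n → Eu n} (hr : ContDiffOn ℝ 1 r U) (h1 : ∀ x ∈ closedBall (0 : Eu n) 1, ‖r x‖ = 1)
    (h2 : ∀ x : Eu n, ‖x‖ = 1 → r x = x) : False := by
  have hnt : Nontrivial (Eu n) := by
    by_contra hnt
    rw [not_nontrivial_iff_subsingleton] at hnt
    have := h1 0 (mem_closedBall_self zero_le_one)
    rw [Subsingleton.elim (r 0) 0, norm_zero] at this
    exact zero_ne_one this
  set B : Set (Eu n) := closedBall 0 1 with hB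
  have hBc : IsCompact B := isCompact_closedBall _ _
  have hBconv : Convex ℝ B := convex_closedBall _ _
  set g : Eu n → Eu n := fun x => r x - x with hg
  set g' : Eu n → (Eu n →L[ℝ] Eu n) := fun x => fderiv ℝ r x - 1 with hg'
  have hfd : ∀ x ∈ U, HasFDerivAt g (g' x) x := by
    intro x hx
    have hd : DifferentiableAt ℝ r x :=
      (hr.differentiableOn one_ne_zero).differentiableAt (hU.mem_nhds hx)
    exact hd.hasFDerivAt.sub (hasFDerivAt_id x)
  have hcr : ContinuousOn (fderiv ℝ r) U := hr.continuousOn_fderiv_of_isOpen hU le_rfl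
  have hcg' : ContinuousOn g' B := (hcr.mono hBU).sub continuousOn_const
  obtain ⟨C₀, hC₀⟩ := hBc.exists_bound_of_continuousOn hcg'
  set C : ℝ := max C₀ 1 with hC
  have hC1 : 1 ≤ C := le_max_right _ _
  have hCpos : 0 < C := by linarith
  have hbd : ∀ x ∈ B, ‖g' x‖ ≤ C := fun x hx => (hC₀ x hx).trans (le_max_left _ _)
  have hlip : ∀ x ∈ B, ∀ y ∈ B, ‖g x - g y‖ ≤ C * ‖x - y‖ := by
    intro x hx y hy
    exact hBconv.norm_image_sub_le_of_norm_hasFDerivWithin_le
      (fun z hz => (hfd z (hBU hz)).hasFDerivWithinAt) hbd hy hx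
  have hgs : ∀ x : Eu n, ‖x‖ = 1 → g x = 0 := by
    intro x hx; simp only [hg]; rw [h2 x hx, sub_self]
  -- extension by zero
  classical
  set gt : Eu n → Eu n := fun x => if x ∈ B then g x else 0 with hgt
  have hmemB : ∀ x : Eu n, x ∈ B ↔ ‖x‖ ≤ 1 := fun x => mem_closedBall_zero_iff
  have hgtlip : ∀ x y : Eu n, ‖gt x - gt y‖ ≤ C * ‖x - y‖ := by
    have key : ∀ x y : Eu n, x ∈ B → y ∉ B → ‖g x‖ ≤ C * ‖x - y‖ := by
      intro x y hx hy
      rw [hmemB] at hx hy
      rw [not_le] at hy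
      have hc : ContinuousOn (fun s : ℝ => ‖x + s • (y - x)‖) (Icc 0 1) := by fun_prop
      have hm : (1 : ℝ) ∈ Icc ((fun s : ℝ => ‖x + s • (y - x)‖) 0)
          ((fun s : ℝ => ‖x + s • (y - x)‖) 1) := by
        simp only [zero_smul, add_zero, one_smul, add_sub_cancel]
        exact ⟨hx, hy.le⟩
      obtain ⟨s, hs, hs1⟩ := intermediate_value_Icc zero_le_one hc hm
      simp only at hs1
      set z := x + s • (y - x) with hz
      have hzB : z ∈ B := (hmemB z).2 hs1.le
      have h3 := hlip x ((hmemB x).2 hx) z hzB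
      rw [hgs z hs1, sub_zero] at h3
      refine h3.trans ?_
      have : x - z = s • (x - y) := by rw [hz]; module
      rw [this, norm_smul, Real.norm_eq_abs, abs_of_nonneg hs.1]
      apply mul_le_mul_of_nonneg_left _ hCpos.le
      exact mul_le_of_le_one_left (norm_nonneg _) hs.2
    intro x y
    by_cases hx : x ∈ B
    · by_cases hy : y ∈ B
      · simp only [hgt, if_pos hx, if_pos hy]; exact hlip x hx y hy
      · simp only [hgt, if_pos hx, if_neg hy, sub_zero]; exact key x y hx hy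
    · by_cases hy : y ∈ B
      · simp only [hgt, if_neg hx, if_pos hy, zero_sub, norm_neg]
        rw [← norm_neg (x - y), neg_sub]
        exact key y x hy hx
      · simp only [hgt, if_neg hx, if_neg hy, sub_zero, norm_zero]
        positivity
  -- small times
  set t₀ : ℝ := 1 / (2 * C) with ht₀
  have ht₀pos : 0 < t₀ := by positivity
  have ht₀1 : t₀ ≤ 1 := by
    rw [ht₀, div_le_one (by positivity)]; linarith
  have htC : ∀ t, 0 ≤ t → t ≤ t₀ → t * C ≤ 1 / 2 := by
    intro t _ ht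
    calc t * C ≤ t₀ * C := mul_le_mul_of_nonneg_right ht hCpos.le
      _ = 1 / 2 := by rw [ht₀]; field_simp
  have hdetpos : ∀ t, 0 ≤ t → t ≤ t₀ → ∀ x ∈ B, 0 < (1 + t • g' x).det := by
    intro t ht0 ht x hx
    apply det_pos_of_norm_lt
    rw [norm_smul, Real.norm_eq_abs, abs_of_nonneg ht0]
    calc t * ‖g' x‖ ≤ t * C := mul_le_mul_of_nonneg_left (hbd x hx) ht0
      _ ≤ 1 / 2 := htC t ht0 ht
      _ < 1 := by norm_num
  have himage : ∀ t, 0 ≤ t → t ≤ t₀ → (fun x => x + t • g x) '' B = B := by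
    intro t ht0 ht
    apply Subset.antisymm
    · rintro _ ⟨x, hx, rfl⟩
      have : x + t • g x = (1 - t) • x + t • r x := by simp only [hg]; module
      simp only [this]
      exact hBconv hx ((hmemB _).2 (h1 x hx).le) (by linarith) ht0 (by ring)
    · intro y hy
      -- contraction
      have hcontr : ContractingWith (1 / 2) (fun x : Eu n => y - t • gt x) := by
        refine ⟨by
          rw [← NNReal.coe_lt_coe]; norm_num, LipschitzWith.of_dist_le_mul fun x z => ?_⟩
        rw [dist_eq_norm, dist_eq_norm]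
        have : y - t • gt x - (y - t • gt z) = -(t • (gt x - gt z)) := by module
        rw [this, norm_neg, norm_smul, Real.norm_eq_abs, abs_of_nonneg ht0]
        calc t * ‖gt x - gt z‖ ≤ t * (C * ‖x - z‖) :=
              mul_le_mul_of_nonneg_left (hgtlip x z) ht0
          _ = (t * C) * ‖x - z‖ := by ring
          _ ≤ (1 / 2) * ‖x - z‖ := mul_le_mul_of_nonneg_right (htC t ht0 ht) (norm_nonneg _)
          _ = _ := by norm_num
      have hfix := hcontr.fixedPoint_isFixedPt
      set x := ContractingWith.fixedPoint (fun x : Eu n => y - t • gt x) hcontr with hx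
      have hx1 : y - t • gt x = x := hfix
      by_cases hxB : x ∈ B
      · refine ⟨x, hxB, ?_⟩
        have : gt x = g x := if_pos hxB
        rw [this] at hx1
        simp only
        nth_rewrite 1 [← hx1]
        abel
      · have : gt x = 0 := if_neg hxB
        rw [this, smul_zero, sub_zero] at hx1
        exact absurd (hx1 ▸ hy) hxB
  have hinj : ∀ t, 0 ≤ t → t ≤ t₀ → InjOn (fun x => x + t • g x) B := by
    intro t ht0 ht x hx y hy hxy
    simp only at hxy
    have h3 : x - y = -(t • (g x - g y)) := by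
      have : x - y = (x + t • g x) - (y + t • g y) - t • (g x - g y) := by module
      rw [this, hxy]; abel
    have h4 : ‖x - y‖ ≤ (1 / 2) * ‖x - y‖ := by
      calc ‖x - y‖ = t * ‖g x - g y‖ := by
            rw [h3, norm_neg, norm_smul, Real.norm_eq_abs, abs_of_nonneg ht0]
        _ ≤ t * (C * ‖x - y‖) := mul_le_mul_of_nonneg_left (hlip x hx y hy) ht0
        _ = (t * C) * ‖x - y‖ := by ring
        _ ≤ (1 / 2) * ‖x - y‖ := mul_le_mul_of_nonneg_right (htC t ht0 ht) (norm_nonneg _)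
    have h5 : ‖x - y‖ = 0 := le_antisymm (by linarith [norm_nonneg (x - y)]) (norm_nonneg _)
    exact sub_eq_zero.1 (norm_eq_zero.1 h5)
  -- continuity of the determinant
  have hcdet : ∀ t : ℝ, ContinuousOn (fun x => (1 + t • g' x).det) B := by
    intro t
    exact ContinuousLinearMap.continuous_det.comp_continuousOn
      (continuousOn_const.add (hcg'.const_smul t))
  have hint : ∀ t : ℝ, IntegrableOn (fun x => (1 + t • g' x).det) B volume := fun t =>
    (hcdet t).integrableOn_compact hBc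
  have hvol : ∀ t, 0 ≤ t → t ≤ t₀ → ∫ x in B, (1 + t • g' x).det = (volume B).toReal := by
    intro t ht0 ht
    have h3 := lintegral_abs_det_fderiv_eq_addHaar_image volume (s := B)
      (f := fun x => x + t • g x) (f' := fun x => 1 + t • g' x) hBc.measurableSet
      (fun x hx => by
        have := ((hasFDerivAt_id x).add ((hfd x (hBU hx)).const_smul t))
        exact this.hasFDerivWithinAt) (hinj t ht0 ht)
    rw [himage t ht0 ht] at h3
    rw [← h3, integral_eq_lintegral_of_nonneg_ae]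
    · congr 1
      apply setLIntegral_congr_fun hBc.measurableSet
      intro x hx
      simp only
      rw [abs_of_pos (hdetpos t ht0 ht x hx)]
    · filter_upwards [ae_restrict_mem hBc.measurableSet] with x hx
      exact (hdetpos t ht0 ht x hx).le
    · exact (hint t).aestronglyMeasurable
  -- interpolation
  obtain ⟨w, hw1, hw⟩ := exists_weights n ht₀pos
  have hnode : ∀ j : Fin (n + 1), 0 ≤ t₀ * j / (n + 1) ∧ t₀ * j / (n + 1) ≤ t₀ := by
    intro j
    refine ⟨by positivity, ?_⟩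
    rw [div_le_iff₀ (by positivity)]
    apply mul_le_mul_of_nonneg_left _ ht₀pos.le
    have : (j : ℕ) ≤ n := Nat.lt_succ_iff.1 j.2
    have h : ((j : ℕ) : ℝ) ≤ n := by exact_mod_cast this
    linarith
  have hone : ∫ x in B, (1 + (1 : ℝ) • g' x).det = (volume B).toReal := by
    have h3 : ∀ x, (1 + (1 : ℝ) • g' x).det =
        ∑ j : Fin (n + 1), w j * (1 + (t₀ * j / (n + 1)) • g' x).det := by
      intro x
      obtain ⟨P, hP, hPe⟩ := exists_det_poly (g' x)
      have := hw P hP
      rw [hPe] at this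
      rw [this]
      exact Finset.sum_congr rfl fun j _ => by rw [hPe]
    simp_rw [h3]
    rw [integral_finsetSum _ fun j _ => ((hint _).const_mul (w j))]
    simp_rw [integral_const_mul]
    have h4 : ∀ j : Fin (n + 1), ∫ x in B, (1 + (t₀ * j / (n + 1)) • g' x).det =
        (volume B).toReal := fun j => hvol _ (hnode j).1 (hnode j).2
    simp_rw [h4]
    rw [← Finset.sum_mul, hw1, one_mul]
  -- the determinant of the derivative of `r` vanishes
  have hzero : ∀ x ∈ ball (0 : Eu n) 1, (1 + (1 : ℝ) • g' x).det = 0 := by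
    intro x hx
    have hxB : x ∈ B := ball_subset_closedBall hx
    have he : (1 + (1 : ℝ) • g' x) = fderiv ℝ r x := by
      simp only [hg']
      rw [one_smul]; abel
    rw [he]
    by_contra hne
    have hd : HasFDerivAt r (fderiv ℝ r x) x :=
      ((hr.differentiableOn one_ne_zero).differentiableAt (hU.mem_nhds (hBU hxB))).hasFDerivAt
    have hsurj : Function.Surjective (fderiv ℝ r x) := by
      have hu : IsUnit ((fderiv ℝ r x : Eu n →L[ℝ] Eu n) : Eu n →ₗ[ℝ] Eu n) :=
        (LinearMap.isUnit_iff_isUnit_det _).2 (isUnit_iff_ne_zero.2 hne)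
      exact ((Module.End.isUnit_iff _).1 hu).2
    obtain ⟨v, hv⟩ := hsurj (r x)
    have hinner : HasFDerivAt (fun y => inner ℝ (r y) (r y))
        ((fderivInnerCLM ℝ (r x, r x)).comp ((fderiv ℝ r x).prod (fderiv ℝ r x))) x :=
      hd.inner ℝ hd
    have hconst : (fun y => inner ℝ (r y) (r y)) =ᶠ[𝓝 x] fun _ => (1 : ℝ) := by
      filter_upwards [isOpen_ball.mem_nhds hx] with y hy
      rw [real_inner_self_eq_norm_sq, h1 y (ball_subset_closedBall hy), one_pow]
    have h0 : HasFDerivAt (fun y => inner ℝ (r y) (r y)) (0 : Eu n →L[ℝ] ℝ) x :=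
      (hasFDerivAt_const (1 : ℝ) x).congr_of_eventuallyEq hconst
    have h5 := hinner.unique h0
    have h6 := congrArg (fun L : Eu n →L[ℝ] ℝ => L v) h5
    simp only [ContinuousLinearMap.comp_apply, ContinuousLinearMap.prod_apply,
      fderivInnerCLM_apply, hv, real_inner_self_eq_norm_sq, h1 x hxB] at h6
    norm_num at h6
  have hae : ∫ x in B, (1 + (1 : ℝ) • g' x).det = 0 := by
    have h3 : ∫ x in B, (1 + (1 : ℝ) • g' x).det = ∫ x in ball (0 : Eu n) 1,
        (1 + (1 : ℝ) • g' x).det := by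
      apply setIntegral_congr_set
      exact (ae_eq_of_subset_of_measure_ge ball_subset_closedBall
        (Measure.addHaar_closedBall_eq_addHaar_ball volume (0 : Eu n) 1).le
        measurableSet_ball.nullMeasurableSet (measure_closedBall_lt_top.ne)).symm
    rw [h3]
    exact setIntegral_eq_zero_of_forall_eq_zero hzero
  have hpos : 0 < (volume B).toReal := by
    rw [ENNReal.toReal_pos_iff]
    exact ⟨measure_closedBall_pos _ _ one_pos, measure_closedBall_lt_top⟩
  rw [hae] at hone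
  exact hpos.ne hone

/-- **Brouwer fixed point theorem** for the closed unit ball of Euclidean space. -/
theorem brouwer_ball (f : Eu n → Eu n) (hf : ContinuousOn f (closedBall 0 1))
    (hmaps : MapsTo f (closedBall 0 1) (closedBall 0 1)) : ∃ x ∈ closedBall (0 : Eu n) 1, f x = x := by
  by_contra hno
  push Not at hno
  set B : Set (Eu n) := closedBall 0 1 with hB
  have hBc : IsCompact B := isCompact_closedBall _ _
  have hmemB : ∀ x : Eu n, x ∈ B ↔ ‖x‖ ≤ 1 := fun x => mem_closedBall_zero_iff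
  have hBne : B.Nonempty := ⟨0, by rw [hmemB]; simp⟩
  -- the minimal displacement
  obtain ⟨x₀, hx₀, hmin⟩ := hBc.exists_isMinOn hBne ((hf.sub continuousOn_id).norm)
  set δ : ℝ := ‖f x₀ - x₀‖ with hδ
  have hδpos : 0 < δ := norm_pos_iff.2 (sub_ne_zero.2 (hno x₀ hx₀))
  have hδle : ∀ x ∈ B, δ ≤ ‖f x - x‖ := fun x hx => hmin hx
  -- radial retraction
  let ρ : Eu n → Eu n := fun x => (max 1 ‖x‖)⁻¹ • x
  have hρc : Continuous ρ := by
    have h3 : Continuous fun x : Eu n => (max 1 ‖x‖)⁻¹ := by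
      apply Continuous.inv₀ (by fun_prop)
      intro x
      have : (1 : ℝ) ≤ max 1 ‖x‖ := le_max_left _ _
      linarith
    exact h3.smul continuous_id
  have hρB : ∀ x, ρ x ∈ B := by
    intro x
    rw [hmemB, norm_smul, norm_inv, Real.norm_eq_abs, abs_of_pos (by positivity)]
    rw [inv_mul_le_iff₀ (by positivity), mul_one]
    exact le_max_right _ _
  have hρid : ∀ x ∈ B, ρ x = x := by
    intro x hx
    rw [hmemB] at hx
    simp only [ρ]
    rw [max_eq_left hx, inv_one, one_smul]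
  have hfc : Continuous fun x => f (ρ x) := by
    rw [← continuousOn_univ]
    exact hf.comp hρc.continuousOn fun x _ => hρB x
  -- smooth approximation
  set ε : ℝ := δ / 4 with hε
  have hεpos : 0 < ε := by positivity
  obtain ⟨p, hp, hpf, _⟩ := hfc.exists_contDiff_approx (ε := fun _ => ε) 1 continuous_const
    fun _ => hεpos
  have hpf' : ∀ x ∈ B, ‖p x - f x‖ < ε := by
    intro x hx
    have := hpf x
    rw [hρid x hx, dist_eq_norm] at this
    exact this
  -- rescaling
  let q : Eu n → Eu n := fun x => (1 + ε)⁻¹ • p x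
  have hq : ContDiff ℝ 1 q := hp.const_smul _
  have hpn : ∀ x ∈ B, ‖p x‖ < 1 + ε := by
    intro x hx
    have h3 : ‖f x‖ ≤ 1 := (hmemB _).1 (hmaps hx)
    have h4 : ‖p x‖ ≤ ‖p x - f x‖ + ‖f x‖ := by
      have := norm_add_le (p x - f x) (f x); rwa [sub_add_cancel] at this
    linarith [hpf' x hx]
  have hqn : ∀ x ∈ B, ‖q x‖ < 1 := by
    intro x hx
    simp only [q]
    rw [norm_smul, norm_inv, Real.norm_eq_abs, abs_of_pos (by positivity),
      inv_mul_lt_iff₀ (by positivity), mul_one]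
    exact hpn x hx
  have hqp : ∀ x ∈ B, ‖q x - p x‖ ≤ ε := by
    intro x hx
    have e : q x - p x = -((ε / (1 + ε)) • p x) := by
      simp only [q]
      have h5 : (ε / (1 + ε)) = 1 - (1 + ε)⁻¹ := by field_simp; ring
      rw [h5]; module
    rw [e, norm_neg, norm_smul, Real.norm_eq_abs, abs_of_pos (by positivity)]
    calc ε / (1 + ε) * ‖p x‖ ≤ ε / (1 + ε) * (1 + ε) :=
          mul_le_mul_of_nonneg_left (hpn x hx).le (by positivity)
      _ = ε := by field_simp
  have hqx : ∀ x ∈ B, x - q x ≠ 0 := by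
    intro x hx h0
    have e : f x - x = (f x - p x) + (p x - q x) + (q x - x) := by abel
    have h3 : q x - x = 0 := by rw [← neg_sub, h0, neg_zero]
    have h4 : ‖f x - x‖ ≤ ‖f x - p x‖ + ‖p x - q x‖ := by
      rw [e, h3, add_zero]; exact norm_add_le _ _
    rw [norm_sub_rev (f x) (p x), norm_sub_rev (p x) (q x)] at h4
    have h5 := hδle x hx
    have h6 := hpf' x hx
    have h7 := hqp x hx
    linarith
  -- the retraction
  let v : Eu n → Eu n := fun x => x - q x
  have hv : ContDiff ℝ 1 v := contDiff_id.sub hq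
  let D : Eu n → ℝ := fun x => (inner ℝ x (v x)) ^ 2 + ‖v x‖ ^ 2 * (1 - ‖x‖ ^ 2)
  have hD : ContDiff ℝ 1 D := by
    apply ContDiff.add
    · exact (contDiff_id.inner ℝ hv).pow 2
    · exact (hv.norm_sq ℝ).mul (contDiff_const.sub (contDiff_id.norm_sq ℝ))
  have hinner : ∀ x : Eu n, ‖x‖ = 1 → ‖q x‖ < 1 → 0 < inner ℝ x (v x) := by
    intro x hx hqx1
    simp only [v]
    rw [inner_sub_right, real_inner_self_eq_norm_sq, hx]
    have h3 : inner ℝ x (q x) ≤ ‖x‖ * ‖q x‖ := real_inner_le_norm _ _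
    rw [hx, one_mul] at h3
    linarith
  have hDpos : ∀ x ∈ B, 0 < D x := by
    intro x hx
    have hvx : 0 < ‖v x‖ := norm_pos_iff.2 (hqx x hx)
    have hx1 := (hmemB x).1 hx
    simp only [D]
    rcases hx1.lt_or_eq with hlt | heq
    · have h3 : 0 < 1 - ‖x‖ ^ 2 := by nlinarith [norm_nonneg x]
      have h4 : 0 < ‖v x‖ ^ 2 * (1 - ‖x‖ ^ 2) := by positivity
      have h5 : 0 ≤ (inner ℝ x (v x)) ^ 2 := sq_nonneg _
      linarith
    · have h3 := hinner x heq (hqn x hx)
      rw [heq]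
      have h4 : 0 < (inner ℝ x (v x)) ^ 2 := by positivity
      linarith
  let s : Eu n → ℝ := fun x => (Real.sqrt (D x) - inner ℝ x (v x)) / ‖v x‖ ^ 2
  let r : Eu n → Eu n := fun x => x + s x • v x
  let U : Set (Eu n) := {x | 0 < D x} ∩ {x | v x ≠ 0}
  have hU : IsOpen U :=
    (isOpen_lt continuous_const hD.continuous).inter
      (isOpen_ne_fun hv.continuous continuous_const)
  have hBU : B ⊆ U := fun x hx => ⟨hDpos x hx, hqx x hx⟩
  have hs : ContDiffOn ℝ 1 s U := by
    apply ContDiffOn.div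
    · apply ContDiffOn.sub
      · exact hD.contDiffOn.sqrt fun x hx => hx.1.ne'
      · exact (contDiff_id.inner ℝ hv).contDiffOn
    · exact (hv.norm_sq ℝ).contDiffOn
    · intro x hx
      have : ‖v x‖ ≠ 0 := norm_ne_zero_iff.2 hx.2
      positivity
  have hr : ContDiffOn ℝ 1 r U := contDiffOn_id.add (hs.smul hv.contDiffOn)
  refine no_retraction hU hBU hr ?_ ?_
  · intro x hx
    have hvx : ‖v x‖ ≠ 0 := norm_ne_zero_iff.2 (hqx x hx)
    have hsq : ‖r x‖ ^ 2 = 1 := by
      simp only [r]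
      rw [norm_add_sq_real, inner_smul_right, norm_smul, mul_pow, Real.norm_eq_abs, sq_abs]
      have hD2 : Real.sqrt (D x) ^ 2 = D x := Real.sq_sqrt (hDpos x hx).le
      have hsv : s x * ‖v x‖ ^ 2 = Real.sqrt (D x) - inner ℝ x (v x) := by
        simp only [s]; field_simp
      have e1 : s x ^ 2 * ‖v x‖ ^ 2 * ‖v x‖ ^ 2 = (Real.sqrt (D x) - inner ℝ x (v x)) ^ 2 := by
        rw [← hsv]; ring
      have e2 : (‖x‖ ^ 2 + 2 * (s x * inner ℝ x (v x)) + s x ^ 2 * ‖v x‖ ^ 2) * ‖v x‖ ^ 2 =
          1 * ‖v x‖ ^ 2 := by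
        calc _ = ‖x‖ ^ 2 * ‖v x‖ ^ 2 + 2 * (s x * ‖v x‖ ^ 2) * inner ℝ x (v x) +
              s x ^ 2 * ‖v x‖ ^ 2 * ‖v x‖ ^ 2 := by ring
          _ = ‖x‖ ^ 2 * ‖v x‖ ^ 2 + 2 * (Real.sqrt (D x) - inner ℝ x (v x)) * inner ℝ x (v x) +
              (Real.sqrt (D x) - inner ℝ x (v x)) ^ 2 := by rw [hsv, e1]
          _ = ‖x‖ ^ 2 * ‖v x‖ ^ 2 + Real.sqrt (D x) ^ 2 - (inner ℝ x (v x)) ^ 2 := by ring
          _ = 1 * ‖v x‖ ^ 2 := by rw [hD2]; simp only [D]; ring
      exact mul_right_cancel₀ (pow_ne_zero 2 hvx) e2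
    have : ‖r x‖ = 1 := by
      have h3 : (‖r x‖ - 1) * (‖r x‖ + 1) = 0 := by ring_nf; rw [hsq]; ring
      rcases mul_eq_zero.1 h3 with h | h
      · linarith
      · linarith [norm_nonneg (r x)]
    exact this
  · intro x hx
    have hxB : x ∈ B := (hmemB x).2 hx.le
    have h3 := hinner x hx (hqn x hxB)
    have h4 : s x = 0 := by
      simp only [s, D]
      rw [hx]
      have : (inner ℝ x (v x)) ^ 2 + ‖v x‖ ^ 2 * (1 - (1 : ℝ) ^ 2) = (inner ℝ x (v x)) ^ 2 := by
        ring
      rw [this, Real.sqrt_sq h3.le, sub_self, zero_div]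
    simp only [r]
    rw [h4, zero_smul, add_zero]

/-- **Brouwer fixed point theorem** for a box. -/
theorem brouwer_box (b : Fin n → ℝ) (hb : ∀ i, 0 ≤ b i) (f : (Fin n → ℝ) → (Fin n → ℝ))
    (hf : ContinuousOn f (Icc 0 b)) (hmaps : MapsTo f (Icc 0 b) (Icc 0 b)) :
    ∃ x ∈ Icc 0 b, f x = x := by
  let e : Eu n ≃L[ℝ] (Fin n → ℝ) := EuclideanSpace.equiv (Fin n) ℝ
  have hb0 : (0 : Fin n → ℝ) ≤ b := hb
  -- clamp
  let cl : (Fin n → ℝ) → (Fin n → ℝ) := fun x => (x ⊔ 0) ⊓ b
  have hclc : Continuous cl := by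
    refine continuous_pi fun i => ?_
    change Continuous fun x : Fin n → ℝ => min (max (x i) 0) (b i)
    fun_prop
  have hclmem : ∀ x, cl x ∈ Icc 0 b := fun x => ⟨le_inf le_sup_right hb0, inf_le_right⟩
  have hclid : ∀ x ∈ Icc 0 b, cl x = x := by
    intro x hx
    simp only [cl]
    rw [sup_eq_left.2 hx.1, inf_eq_left.2 hx.2]
  -- radius
  have hcomp : IsCompact (e.symm '' (Icc 0 b)) := isCompact_Icc.image e.symm.continuous
  obtain ⟨R₀, hR₀⟩ := hcomp.isBounded.exists_norm_le
  set R : ℝ := max R₀ 1 with hR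
  have hRpos : 0 < R := lt_of_lt_of_le one_pos (le_max_right _ _)
  have hnorm : ∀ y ∈ Icc 0 b, ‖e.symm y‖ ≤ R := fun y hy =>
    (hR₀ _ ⟨y, hy, rfl⟩).trans (le_max_left _ _)
  let F : Eu n → Eu n := fun x => R⁻¹ • e.symm (f (cl (e (R • x))))
  have hFc : Continuous F := by
    have h1 : Continuous fun x : Eu n => f (cl (e (R • x))) := by
      rw [← continuousOn_univ]
      refine hf.comp (Continuous.continuousOn ?_) fun x _ => hclmem _
      exact hclc.comp (e.continuous.comp (continuous_const_smul R))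
    have h3 : Continuous fun x : Eu n => e.symm (f (cl (e (R • x)))) :=
      e.symm.continuous.comp h1
    exact h3.const_smul R⁻¹
  obtain ⟨x, hx, hFx⟩ := brouwer_ball F hFc.continuousOn (by
    intro x _
    rw [mem_closedBall_zero_iff]
    simp only [F]
    rw [norm_smul, norm_inv, Real.norm_eq_abs, abs_of_pos hRpos, inv_mul_le_iff₀ hRpos, mul_one]
    exact hnorm _ (hmaps (hclmem _)))
  set y := f (cl (e (R • x))) with hy
  have hyI : y ∈ Icc 0 b := hmaps (hclmem _)
  have hxy : e (R • x) = y := by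
    have h1 : R⁻¹ • e.symm y = x := hFx
    rw [← h1, smul_smul, mul_inv_cancel₀ hRpos.ne', one_smul, e.apply_symm_apply]
  refine ⟨y, hyI, ?_⟩
  have h2 : f (cl (e (R • x))) = y := rfl
  rw [hxy, hclid y hyI] at h2
  exact h2

end NoRetraction

end Pool.Agent.Lib.MP_e589f0_an
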