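import Pool.Agent.Lib.MP_e589f0_an.Support

/-!
# Convolution identity and absolute continuity
-/

namespace Pool.Agent.Lib.MP_e589f0_an

open MeasureTheory Set Filter
open scoped Topology ENNReal

theorem lint_Ioo_eq (A : ℝ → ℝ → ℝ≥0∞) (z : ℝ) :
    ∫⁻ y in Ioo 0 z, A (z - y) y =
      ∫⁻ y, ({p : ℝ × ℝ | 0 < p.1 ∧ 0 < p.2}.indicator (fun p => A p.1 p.2)) (z - y, y) := by
  rw [← lintegral_indicator measurableSet_Ioo]
  apply lintegral_congr
  intro y
  by_cases hy : y ∈ Ioo 0 z
  · rw [indicator_of_mem hy, indicator_of_mem]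
    exact ⟨sub_pos.2 hy.2, hy.1⟩
  · rw [indicator_of_notMem hy, indicator_of_notMem]
    rintro ⟨h1, h2⟩
    exact hy ⟨h2, sub_pos.1 h1⟩

theorem measurableSet_quadrant : MeasurableSet {p : ℝ × ℝ | 0 < p.1 ∧ 0 < p.2} :=
  (measurableSet_lt measurable_const measurable_fst).inter
    (measurableSet_lt measurable_const measurable_snd)

theorem measurable_conv {A : ℝ → ℝ → ℝ≥0∞} (hA : Measurable (Function.uncurry A)) :
    Measurable fun z => ∫⁻ y in Ioo 0 z, A (z - y) y := by
  simp_rw [lint_Ioo_eq]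
  have h1 : Measurable ({p : ℝ × ℝ | 0 < p.1 ∧ 0 < p.2}.indicator (fun p => A p.1 p.2)) :=
    Measurable.indicator hA measurableSet_quadrant
  have h2 : Measurable fun q : ℝ × ℝ =>
      ({p : ℝ × ℝ | 0 < p.1 ∧ 0 < p.2}.indicator (fun p => A p.1 p.2)) (q.1 - q.2, q.2) :=
    h1.comp (by fun_prop)
  exact h2.lintegral_prod_right'

/-- The convolution identity. -/
theorem lint_conv {A : ℝ → ℝ → ℝ≥0∞} (hA : Measurable (Function.uncurry A)) {ψ : ℝ → ℝ≥0∞}
    (hψ : Measurable ψ) :
    ∫⁻ x in Ioi 0, ∫⁻ y in Ioi 0, A x y * ψ (x + y) =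
      ∫⁻ z in Ioi 0, (∫⁻ y in Ioo 0 z, A (z - y) y) * ψ z := by
  set B : ℝ × ℝ → ℝ≥0∞ := {p : ℝ × ℝ | 0 < p.1 ∧ 0 < p.2}.indicator (fun p => A p.1 p.2) with hB
  have hBm : Measurable B := Measurable.indicator hA measurableSet_quadrant
  have e1 : ∫⁻ x in Ioi 0, ∫⁻ y in Ioi 0, A x y * ψ (x + y) =
      ∫⁻ x, ∫⁻ y, B (x, y) * ψ (x + y) := by
    rw [← lintegral_indicator measurableSet_Ioi]
    apply lintegral_congr
    intro x
    by_cases hx : x ∈ Ioi (0 : ℝ)
    · rw [indicator_of_mem hx, ← lintegral_indicator measurableSet_Ioi]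
      apply lintegral_congr
      intro y
      by_cases hy : y ∈ Ioi (0 : ℝ)
      · rw [indicator_of_mem hy, hB, indicator_of_mem]
        exact ⟨hx, hy⟩
      · rw [indicator_of_notMem hy, hB, indicator_of_notMem, zero_mul]
        exact fun h => hy h.2
    · rw [indicator_of_notMem hx]
      symm
      rw [← lintegral_zero (μ := (volume : Measure ℝ))]
      apply lintegral_congr
      intro y
      rw [hB, indicator_of_notMem, zero_mul]
      exact fun h => hx h.1
  have e2 : ∫⁻ x, ∫⁻ y, B (x, y) * ψ (x + y) = ∫⁻ y, ∫⁻ x, B (x, y) * ψ (x + y) := by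
    apply lintegral_lintegral_swap
    exact (hBm.mul (hψ.comp (by fun_prop))).aemeasurable
  have e3 : ∀ y : ℝ, ∫⁻ x, B (x, y) * ψ (x + y) = ∫⁻ z, B (z - y, y) * ψ z := by
    intro y
    rw [← lintegral_sub_right_eq_self (fun x => B (x, y) * ψ (x + y)) y]
    simp only [sub_add_cancel]
  have e4 : ∫⁻ y, ∫⁻ z, B (z - y, y) * ψ z = ∫⁻ z, ∫⁻ y, B (z - y, y) * ψ z := by
    apply lintegral_lintegral_swap
    have h1 : Measurable fun q : ℝ × ℝ => B (q.2 - q.1, q.1) := hBm.comp (by fun_prop)
    exact (h1.mul (hψ.comp measurable_snd)).aemeasurable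
  rw [e1, e2]
  simp_rw [e3]
  rw [e4, ← lintegral_indicator measurableSet_Ioi]
  apply lintegral_congr
  intro z
  have hz1 : Measurable fun y => B (z - y, y) := hBm.comp (by fun_prop)
  rw [lintegral_mul_const _ hz1, hB, ← lint_Ioo_eq]
  by_cases hz : z ∈ Ioi (0 : ℝ)
  · rw [indicator_of_mem hz]
  · rw [indicator_of_notMem hz, Ioo_eq_empty (by simpa using hz)]
    simp

variable {H : ℝ → ℝ} {M : ℝ} {ν g : Measure ℝ}

/-- Solutions with an absolutely continuous source are absolutely continuous. -/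
theorem Core.absolutelyContinuous (hH : Prof H) (h : Core H M ν g)
    (hν : ∫⁻ x, ENNReal.ofReal x ∂ν = 1) (hν1 : ν (Iio 1) = 0) (hac : ν ≪ volume) :
    g ≪ volume := by
  have hM := h.M_pos hH hν
  have hlt := h.lt_one hH hν hν1
  have hfinm := h.isFiniteMeasure
  have hone : ∀ᵐ x ∂g, 1 ≤ x := by
    filter_upwards [measure_eq_zero_iff_ae_notMem.1 hlt] with x hx
    simpa using hx
  have hstep : ∀ k : ℕ, ∀ N : Set ℝ, MeasurableSet N → volume N = 0 →
      g (N ∩ Iio (k : ℝ)) = 0 := by
    intro k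
    induction k with
    | zero =>
      intro N _ _
      apply measure_mono_null _ h.pos
      intro x hx
      have : x < ((0 : ℕ) : ℝ) := hx.2
      rw [Nat.cast_zero] at this
      exact this.le
    | succ k ih =>
      intro N hN hN0
      have hms : MeasurableSet (N ∩ Iio ((k + 1 : ℕ) : ℝ)) := hN.inter measurableSet_Iio
      have hid := h.eqn ((N ∩ Iio ((k + 1 : ℕ) : ℝ)).indicator 1) (measurable_one.indicator hms)
      have l1 : ∫⁻ x, ∫⁻ y, ENNReal.ofReal (G H x y) *
          (N ∩ Iio ((k + 1 : ℕ) : ℝ)).indicator 1 (x + y) ∂g ∂g = 0 := by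
        rw [← lintegral_zero (μ := g)]
        apply lintegral_congr_ae
        filter_upwards [hone] with x hx1
        rw [← lintegral_zero (μ := g)]
        apply lintegral_congr_ae
        have hN' : MeasurableSet ((fun y => x + y) ⁻¹' N) := (measurable_const_add x) hN
        have hN'0 : volume ((fun y => x + y) ⁻¹' N) = 0 := by
          rw [measure_preimage_add]; exact hN0
        filter_upwards [measure_eq_zero_iff_ae_notMem.1 (ih _ hN' hN'0), hone] with y hy hy1
        rw [indicator_of_notMem, mul_zero]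
        intro hxy
        apply hy
        refine ⟨hxy.1, ?_⟩
        have h1 := hxy.2
        rw [mem_Iio] at h1 ⊢
        push_cast at h1
        linarith
      have l2 : ∫⁻ x, (N ∩ Iio ((k + 1 : ℕ) : ℝ)).indicator 1 x ∂ν = 0 := by
        rw [lintegral_indicator_one hms]
        exact measure_mono_null inter_subset_left (hac hN0)
      rw [l1, l2, mul_zero, add_zero] at hid
      have l3 := (add_eq_zero.1 hid.symm).2
      have l4 : ∫⁻ x, ENNReal.ofReal (1 / x) * (N ∩ Iio ((k + 1 : ℕ) : ℝ)).indicator 1 x ∂g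
          = 0 := by
        rcases mul_eq_zero.1 l3 with h1 | h1
        · exfalso
          have : (0 : ℝ≥0∞) < 2 * ENNReal.ofReal M := by
            have := ENNReal.ofReal_pos.2 hM
            positivity
          exact this.ne' h1
        · exact h1
      rw [lintegral_eq_zero_iff (by fun_prop (disch := exact hms))] at l4
      rw [measure_eq_zero_iff_ae_notMem]
      filter_upwards [l4, h.ae_pos] with x hx hx0 hmem
      rw [indicator_of_mem hmem] at hx
      simp only [Pi.one_apply, mul_one, Pi.zero_apply, ENNReal.ofReal_eq_zero] at hx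
      have : 0 < 1 / x := by positivity
      linarith
  apply Measure.AbsolutelyContinuous.mk
  intro N hN hN0
  have : N = ⋃ k : ℕ, N ∩ Iio (k : ℝ) := by
    ext x
    simp only [mem_iUnion, mem_inter_iff, mem_Iio, exists_and_left, iff_self_and]
    intro _
    exact exists_nat_gt x
  rw [this, measure_iUnion_null_iff]
  exact fun k => hstep k N hN hN0

end Pool.Agent.Lib.MP_e589f0_an
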