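import Mathlib

/-!
# The reduced stationary coagulation equation

We study finite measures `g` on `(0, ∞)` with `∫ g(dx) / x < ∞` satisfying
`(1/2) ∫∫ G(x,y) φ(x+y) g g + ∫ φ ν = ∫∫ G(x,y) φ(x) g g + M ∫ φ(x)/x g` for all test functions,
where `G(x,y) = (1/x + 1/y) H(x/(x+y))`.
-/

namespace Pool.Agent.Lib.MP_e589f0_an

open MeasureTheory Set Filter
open scoped Topology ENNReal

/-- The reduced kernel `(1/x + 1/y) H(x/(x+y))`. -/
noncomputable def G (H : ℝ → ℝ) (x y : ℝ) : ℝ := (x + y) / (x * y) * H (x / (x + y))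

/-- Admissible reduced profiles. -/
structure Prof (H : ℝ → ℝ) : Prop where
  cont : Continuous H
  nonneg : ∀ s, 0 ≤ H s
  bdd : ∃ C : ℝ, ∀ s, H s ≤ C
  zero : H 0 = 1
  symm : ∀ s, H (1 - s) = H s

variable {H : ℝ → ℝ}

theorem G_nonneg (hH : Prof H) {x y : ℝ} (hx : 0 < x) (hy : 0 < y) : 0 ≤ G H x y := by
  unfold G
  have := hH.nonneg (x / (x + y))
  positivity

theorem G_symm (hH : Prof H) {x y : ℝ} (hx : 0 < x) (hy : 0 < y) : G H x y = G H y x := by
  unfold G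
  have h1 : y / (y + x) = 1 - x / (x + y) := by
    have : x + y ≠ 0 := by positivity
    have : y + x ≠ 0 := by positivity
    field_simp
    ring
  rw [h1, hH.symm, add_comm y x, mul_comm y x]

theorem measurable_G (hH : Prof H) : Measurable (Function.uncurry (G H)) := by
  unfold G Function.uncurry
  have := hH.cont.measurable
  fun_prop

theorem measurable_G₂ (hH : Prof H) {x : ℝ} : Measurable (G H x) :=
  (measurable_G hH).of_uncurry_left

theorem exists_bound (hH : Prof H) : ∃ C : ℝ, 1 ≤ C ∧ ∀ s, H s ≤ C := by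
  obtain ⟨C, hC⟩ := hH.bdd
  exact ⟨max C 1, le_max_right _ _, fun s => (hC s).trans (le_max_left _ _)⟩

theorem G_eq (x y : ℝ) (hx : 0 < x) (hy : 0 < y) : G H x y = (1 / x + 1 / y) * H (x / (x + y)) := by
  unfold G
  congr 1
  field_simp
  ring

theorem G_le {C : ℝ} (hC : ∀ s, H s ≤ C) {x y : ℝ} (hx : 0 < x) (hy : 0 < y) :
    G H x y ≤ C * (1 / x + 1 / y) := by
  rw [G_eq x y hx hy, mul_comm]
  exact mul_le_mul_of_nonneg_right (hC _) (by positivity)

/-- The reduced equation. -/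
structure Core (H : ℝ → ℝ) (M : ℝ) (ν g : Measure ℝ) : Prop where
  fin : g univ < ⊤
  pos : g (Iic 0) = 0
  inv : ∫⁻ x, ENNReal.ofReal (1 / x) ∂g < ⊤
  eqn : ∀ φ : ℝ → ℝ≥0∞, Measurable φ →
    ∫⁻ x, ∫⁻ y, ENNReal.ofReal (G H x y) * φ (x + y) ∂g ∂g + 2 * ∫⁻ x, φ x ∂ν =
      2 * ∫⁻ x, ∫⁻ y, ENNReal.ofReal (G H x y) * φ x ∂g ∂g +
        2 * ENNReal.ofReal M * ∫⁻ x, ENNReal.ofReal (1 / x) * φ x ∂g

section

variable {M : ℝ} {ν g : Measure ℝ}

theorem Core.isFiniteMeasure (h : Core H M ν g) : IsFiniteMeasure g := ⟨h.fin⟩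

theorem ae_pos_of (hpos : g (Iic 0) = 0) : ∀ᵐ x ∂g, 0 < x := by
  rw [ae_iff]
  simpa [Iic] using hpos

theorem Core.ae_pos (h : Core H M ν g) : ∀ᵐ x ∂g, 0 < x := ae_pos_of h.pos

/-- Finiteness of the total coagulation rate. -/
theorem total_rate_lt_top (hH : Prof H) (hfin : g univ < ⊤) (hpos : g (Iic 0) = 0)
    (hinv : ∫⁻ x, ENNReal.ofReal (1 / x) ∂g < ⊤) :
    ∫⁻ x, ∫⁻ y, ENNReal.ofReal (G H x y) ∂g ∂g < ⊤ := by
  obtain ⟨C, hC1, hC⟩ := exists_bound hH
  have hC0 : 0 ≤ C := by linarith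
  have hmeas : Measurable fun x : ℝ => ENNReal.ofReal (1 / x) := by fun_prop
  have hb : ∫⁻ x, ∫⁻ y, ENNReal.ofReal (G H x y) ∂g ∂g ≤
      ∫⁻ x, ∫⁻ y, ENNReal.ofReal C * (ENNReal.ofReal (1 / x) + ENNReal.ofReal (1 / y)) ∂g ∂g := by
    apply lintegral_mono_ae
    filter_upwards [ae_pos_of hpos] with x hx
    apply lintegral_mono_ae
    filter_upwards [ae_pos_of hpos] with y hy
    rw [← ENNReal.ofReal_add (by positivity) (by positivity), ← ENNReal.ofReal_mul hC0]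
    exact ENNReal.ofReal_le_ofReal (G_le hC hx hy)
  refine hb.trans_lt ?_
  have h1 : ∀ x : ℝ, ∫⁻ y, ENNReal.ofReal C * (ENNReal.ofReal (1 / x) + ENNReal.ofReal (1 / y)) ∂g =
      ENNReal.ofReal C * (ENNReal.ofReal (1 / x) * g univ + ∫⁻ y, ENNReal.ofReal (1 / y) ∂g) := by
    intro x
    rw [lintegral_const_mul _ (by fun_prop), lintegral_add_left (by fun_prop), lintegral_const]
  simp_rw [h1]
  rw [lintegral_const_mul _ (by fun_prop), lintegral_add_left (by fun_prop),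
    lintegral_mul_const _ hmeas, lintegral_const]
  exact ENNReal.mul_lt_top ENNReal.ofReal_lt_top
    (ENNReal.add_lt_top.2 ⟨ENNReal.mul_lt_top hinv hfin, ENNReal.mul_lt_top hinv hfin⟩)

/-- The identity for subadditive bounded test functions. -/
theorem Core.subadd (hH : Prof H) (h : Core H M ν g) {φ : ℝ → ℝ≥0∞} (hφ : Measurable φ)
    {c : ℝ≥0∞} (hc : c < ⊤) (hφc : ∀ x, φ x ≤ c)
    (hsub : ∀ x y, 0 < x → 0 < y → φ (x + y) ≤ φ x + φ y) :
    2 * ∫⁻ x, φ x ∂ν =
      ∫⁻ x, ∫⁻ y, ENNReal.ofReal (G H x y) * (φ x + φ y - φ (x + y)) ∂g ∂g +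
        2 * ENNReal.ofReal M * ∫⁻ x, ENNReal.ofReal (1 / x) * φ x ∂g := by
  have hfinm := h.isFiniteMeasure
  have hG := measurable_G hH
  have hGe : Measurable fun p : ℝ × ℝ => ENNReal.ofReal (G H p.1 p.2) := hG.ennreal_ofReal
  have e := h.eqn φ hφ
  set A := ∫⁻ x, ∫⁻ y, ENNReal.ofReal (G H x y) * φ (x + y) ∂g ∂g with hA
  have hAfin : A < ⊤ := by
    have : A ≤ ∫⁻ x, ∫⁻ y, ENNReal.ofReal (G H x y) * c ∂g ∂g := by
      apply lintegral_mono; intro x
      apply lintegral_mono; intro y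
      exact mul_le_mul_right (hφc _) _
    refine this.trans_lt ?_
    have h1 : ∫⁻ x, ∫⁻ y, ENNReal.ofReal (G H x y) * c ∂g ∂g =
        (∫⁻ x, ∫⁻ y, ENNReal.ofReal (G H x y) ∂g ∂g) * c := by
      rw [← lintegral_mul_const' _ _ hc.ne]
      apply lintegral_congr; intro x
      rw [lintegral_mul_const' _ _ hc.ne]
    rw [h1]
    exact ENNReal.mul_lt_top (total_rate_lt_top hH h.fin h.pos h.inv) hc
  have hsymm : ∫⁻ x, ∫⁻ y, ENNReal.ofReal (G H x y) * φ x ∂g ∂g =
      ∫⁻ x, ∫⁻ y, ENNReal.ofReal (G H x y) * φ y ∂g ∂g := by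
    rw [lintegral_lintegral_swap]
    · apply lintegral_congr_ae
      filter_upwards [h.ae_pos] with y hy
      apply lintegral_congr_ae
      filter_upwards [h.ae_pos] with x hx
      rw [G_symm hH hx hy]
    · exact (hGe.mul (hφ.comp measurable_fst)).aemeasurable
  have hsplit : 2 * ∫⁻ x, ∫⁻ y, ENNReal.ofReal (G H x y) * φ x ∂g ∂g =
      A + ∫⁻ x, ∫⁻ y, ENNReal.ofReal (G H x y) * (φ x + φ y - φ (x + y)) ∂g ∂g := by
    have h1 : 2 * ∫⁻ x, ∫⁻ y, ENNReal.ofReal (G H x y) * φ x ∂g ∂g =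
        ∫⁻ x, ∫⁻ y, ENNReal.ofReal (G H x y) * (φ x + φ y) ∂g ∂g := by
      rw [two_mul]
      nth_rewrite 2 [hsymm]
      rw [← lintegral_add_left]
      · apply lintegral_congr; intro x
        rw [← lintegral_add_left]
        · apply lintegral_congr; intro y
          rw [mul_add]
        · exact ((measurable_G₂ hH).ennreal_ofReal.mul measurable_const)
      · exact (hGe.mul (hφ.comp measurable_fst)).lintegral_prod_right
    rw [h1, hA, ← lintegral_add_left]
    · apply lintegral_congr_ae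
      filter_upwards [h.ae_pos] with x hx
      rw [← lintegral_add_left]
      · apply lintegral_congr_ae
        filter_upwards [h.ae_pos] with y hy
        rw [← mul_add, add_tsub_cancel_of_le (hsub x y hx hy)]
      · exact ((measurable_G₂ hH).ennreal_ofReal.mul (hφ.comp (measurable_const_add x)))
    · exact (hGe.mul (hφ.comp (measurable_fst.add measurable_snd))).lintegral_prod_right
  rw [hsplit, add_assoc] at e
  exact (ENNReal.add_right_inj hAfin.ne).1 e

end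

end Pool.Agent.Lib.MP_e589f0_an
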