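import Pool.Agent.Lib.MP_e589f0_an.Core

/-!
# Discrete measures solving a truncated equation, in the coordinate `t = 1 / x`
-/

namespace Pool.Agent.Lib.MP_e589f0_an

open MeasureTheory Set Filter
open scoped Topology ENNReal unitInterval

/-- The reduced kernel in the coordinate `t = 1 / x`. -/
noncomputable def Gh (H : ℝ → ℝ) (s t : ℝ) : ℝ := (s + t) * H (t / (s + t))

/-- Coagulation in the coordinate `t = 1 / x`. -/
noncomputable def op (s t : ℝ) : ℝ := s * t / (s + t)

variable {H : ℝ → ℝ}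

theorem Gh_nonneg (hH : Prof H) {s t : ℝ} (hs : 0 ≤ s) (ht : 0 ≤ t) : 0 ≤ Gh H s t :=
  mul_nonneg (by positivity) (hH.nonneg _)

theorem Gh_symm (hH : Prof H) {s t : ℝ} (hs : 0 < s) (ht : 0 < t) : Gh H s t = Gh H t s := by
  unfold Gh
  have h1 : s / (t + s) = 1 - t / (s + t) := by
    have : s + t ≠ 0 := by positivity
    have : t + s ≠ 0 := by positivity
    field_simp
    ring
  rw [h1, hH.symm, add_comm t s]

theorem Gh_eq {s t : ℝ} (hs : 0 < s) (ht : 0 < t) : Gh H s t = G H (1 / s) (1 / t) := by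
  rw [G_eq _ _ (by positivity) (by positivity)]
  unfold Gh
  have h1 : 1 / s / (1 / s + 1 / t) = t / (s + t) := by
    have : s + t ≠ 0 := by positivity
    field_simp
    ring
  rw [h1, one_div_one_div, one_div_one_div]

/-- The grid points in the coordinate `t = 1 / x`. -/
noncomputable def tp (N k : ℕ) : ℝ := N / (N + k)

theorem tp_pos {N : ℕ} (hN : 1 ≤ N) (k : ℕ) : 0 < tp N k := by
  unfold tp
  have : (0 : ℝ) < N := by exact_mod_cast hN
  positivity

theorem tp_le_one {N : ℕ} (hN : 1 ≤ N) (k : ℕ) : tp N k ≤ 1 := by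
  unfold tp
  have : (0 : ℝ) < N := by exact_mod_cast hN
  rw [div_le_one (by positivity)]
  have : (0 : ℝ) ≤ k := Nat.cast_nonneg k
  linarith

theorem op_tp {N : ℕ} (hN : 1 ≤ N) (i j : ℕ) : op (tp N i) (tp N j) = tp N (i + j + N) := by
  unfold op tp
  have h0 : (0 : ℝ) < N := by exact_mod_cast hN
  have h1 : (0 : ℝ) ≤ i := Nat.cast_nonneg i
  have h2 : (0 : ℝ) ≤ j := Nat.cast_nonneg j
  push_cast
  field_simp
  ring

end Pool.Agent.Lib.MP_e589f0_an
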