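import Pool.Agent.Lib.MP_e589f0_an.Brouwer
import Pool.Agent.Lib.MP_e589f0_an.Gh

/-!
# Stationary solutions of truncated discrete coagulation systems
-/

namespace Pool.Agent.Lib.MP_e589f0_an

open Set

/-- Partial sums of the bounding sequence. -/
noncomputable def bsum (C : ℝ) : ℕ → ℝ
  | 0 => 0
  | k + 1 => bsum C k + (C + C * bsum C k ^ 2)

/-- The bounding sequence. -/
noncomputable def bseq (C : ℝ) (k : ℕ) : ℝ := C + C * bsum C k ^ 2

theorem bseq_nonneg {C : ℝ} (hC : 0 ≤ C) (k : ℕ) : 0 ≤ bseq C k := by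
  unfold bseq; positivity

theorem sum_bseq (C : ℝ) (k : ℕ) : ∑ i ∈ Finset.range k, bseq C i = bsum C k := by
  induction k with
  | zero => simp [bsum]
  | succ k ih => rw [Finset.sum_range_succ, ih]; rfl

theorem sum_fin_bseq (C : ℝ) {m : ℕ} (k : Fin m) :
    ∑ i : Fin m, (if i < k then bseq C i else 0) = bsum C k := by
  rw [← sum_bseq C k]
  have h1 : ∑ i : Fin m, (if i < k then bseq C i else 0) =
      ∑ i ∈ Finset.range m, (if i < (k : ℕ) then bseq C i else 0) := by
    rw [← Fin.sum_univ_eq_sum_range (fun i => if i < (k : ℕ) then bseq C i else 0)]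
    rfl
  rw [h1, ← Finset.sum_filter]
  congr 1
  ext i
  simp only [Finset.mem_filter, Finset.mem_range]
  constructor
  · exact fun h => h.2
  · exact fun h => ⟨h.trans k.2, h⟩

/-- Existence of a nonnegative stationary solution of a truncated discrete coagulation system. -/
theorem exists_discrete {m : ℕ} (s η : Fin m → ℝ) (hs : ∀ k, 0 < s k) (hη : ∀ k, 0 ≤ η k)
    (K : Fin m → Fin m → ℝ) (hK : ∀ k j, 0 ≤ K k j) (c : Fin m → Fin m → Fin m → ℝ)
    (hc : ∀ k i j, 0 ≤ c k i j) (hc0 : ∀ k i j, ¬ (i < k ∧ j < k) → c k i j = 0) :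
    ∃ g : Fin m → ℝ, (∀ k, 0 ≤ g k) ∧
      ∀ k, g k * (s k + ∑ j, K k j * g j) = η k + ∑ i, ∑ j, c k i j * g i * g j := by
  -- a common bound
  obtain ⟨C, hC0, hC1, hC2⟩ : ∃ C : ℝ, 0 ≤ C ∧ (∀ k, η k ≤ C * s k) ∧
      ∀ k i j, c k i j ≤ C * s k := by
    obtain ⟨C1, h1⟩ := (Set.finite_range fun k => η k / s k).bddAbove
    obtain ⟨C2, h2⟩ := (Set.finite_range fun p : Fin m × Fin m × Fin m =>
      c p.1 p.2.1 p.2.2 / s p.1).bddAbove
    refine ⟨max 0 (max C1 C2), le_max_left _ _, fun k => ?_, fun k i j => ?_⟩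
    · rw [← div_le_iff₀ (hs k)]
      exact (h1 ⟨k, rfl⟩).trans ((le_max_left _ _).trans (le_max_right _ _))
    · rw [← div_le_iff₀ (hs k)]
      exact (h2 ⟨(k, i, j), rfl⟩).trans ((le_max_right _ _).trans (le_max_right _ _))
  let B : Fin m → ℝ := fun k => bseq C k
  have hB0 : ∀ k, 0 ≤ B k := fun k => bseq_nonneg hC0 _
  let num : (Fin m → ℝ) → Fin m → ℝ := fun g k => η k + ∑ i, ∑ j, c k i j * g i * g j
  let den : (Fin m → ℝ) → Fin m → ℝ := fun g k => s k + ∑ j, K k j * g j
  have hden : ∀ g : Fin m → ℝ, 0 ≤ g → ∀ k, s k ≤ den g k := by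
    intro g hg k
    simp only [den]
    have : 0 ≤ ∑ j, K k j * g j := Finset.sum_nonneg fun j _ => mul_nonneg (hK k j) (hg j)
    linarith
  have hnum0 : ∀ g : Fin m → ℝ, 0 ≤ g → ∀ k, 0 ≤ num g k := by
    intro g hg k
    simp only [num]
    have : 0 ≤ ∑ i, ∑ j, c k i j * g i * g j := Finset.sum_nonneg fun i _ =>
      Finset.sum_nonneg fun j _ => mul_nonneg (mul_nonneg (hc k i j) (hg i)) (hg j)
    linarith [hη k]
  have hnumB : ∀ g : Fin m → ℝ, 0 ≤ g → g ≤ B → ∀ k, num g k ≤ s k * B k := by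
    intro g hg hgB k
    simp only [num]
    have h1 : ∑ i, ∑ j, c k i j * g i * g j ≤ ∑ i, ∑ j, (C * s k) *
        ((if i < k then bseq C i else 0) * (if j < k then bseq C j else 0)) := by
      apply Finset.sum_le_sum; intro i _
      apply Finset.sum_le_sum; intro j _
      by_cases hij : i < k ∧ j < k
      · rw [if_pos hij.1, if_pos hij.2, mul_assoc]
        have e1 : g i * g j ≤ bseq C i * bseq C j :=
          mul_le_mul (hgB i) (hgB j) (hg j) (bseq_nonneg hC0 _)
        exact mul_le_mul (hC2 k i j) e1 (mul_nonneg (hg i) (hg j))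
          (mul_nonneg hC0 (hs k).le)
      · rw [hc0 k i j hij, zero_mul, zero_mul]
        apply mul_nonneg (mul_nonneg hC0 (hs k).le)
        apply mul_nonneg <;> split_ifs <;> first | exact bseq_nonneg hC0 _ | exact le_rfl
    have h2 : ∑ i : Fin m, ∑ j : Fin m, (C * s k) *
        ((if i < k then bseq C i else 0) * (if j < k then bseq C j else 0)) =
        C * s k * bsum C k ^ 2 := by
      simp_rw [← Finset.mul_sum]
      rw [← Finset.sum_mul, sum_fin_bseq]
      ring
    have h3 : s k * B k = C * s k + C * s k * bsum C k ^ 2 := by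
      simp only [B, bseq]; ring
    rw [h3]
    rw [h2] at h1
    linarith [hC1 k]
  obtain ⟨g, hg, hfix⟩ := brouwer_box B hB0 (fun g k => num g k / den g k) (by
    apply continuousOn_pi.2
    intro k
    apply ContinuousOn.div
    · apply Continuous.continuousOn
      simp only [num]
      fun_prop
    · apply Continuous.continuousOn
      simp only [den]
      fun_prop
    · intro g hg
      exact ((hs k).trans_le (hden g hg.1 k)).ne') (by
    intro g hg
    constructor
    · intro k
      exact div_nonneg (hnum0 g hg.1 k) ((hs k).le.trans (hden g hg.1 k))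
    · intro k
      have hd := hden g hg.1 k
      have hd0 : 0 < den g k := (hs k).trans_le hd
      rw [div_le_iff₀ hd0]
      calc num g k ≤ s k * B k := hnumB g hg.1 hg.2 k
        _ ≤ B k * den g k := by rw [mul_comm]; exact mul_le_mul_of_nonneg_left hd (hB0 k))
  refine ⟨g, hg.1, fun k => ?_⟩
  have h1 : num g k / den g k = g k := congrFun hfix k
  have hd0 : 0 < den g k := (hs k).trans_le (hden g hg.1 k)
  rw [div_eq_iff hd0.ne'] at h1
  exact h1.symm

end Pool.Agent.Lib.MP_e589f0_an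

/-!
# Discrete measures solving a truncated equation
-/

namespace Pool.Agent.Lib.MP_e589f0_an

open MeasureTheory Set Filter
open scoped Topology ENNReal unitInterval

variable {H : ℝ → ℝ}

/-- The discrete solution and its weak form, as finite sums. -/
theorem exists_discrete_sum (hH : Prof H) {M : ℝ} (hM : 0 < M) {N m : ℕ} (hN : 1 ≤ N)
    (η : Fin m → ℝ) (hη : ∀ k, 0 ≤ η k) {χ : ℝ → ℝ} (hχ0 : ∀ t, 0 ≤ χ t) (hχ1 : ∀ t, χ t ≤ 1)
    (hχm : ∀ k, m ≤ k → χ (tp N k) = 0) :
    ∃ g : Fin m → ℝ, (∀ k, 0 ≤ g k) ∧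
      (∀ φ : ℝ → ℝ, M * ∑ k : Fin m, tp N k * φ (tp N k) * g k +
        ∑ i : Fin m, ∑ j : Fin m, Gh H (tp N i) (tp N j) * φ (tp N i) * g i * g j =
        ∑ k : Fin m, φ (tp N k) * η k + (1 / 2) * ∑ i : Fin m, ∑ j : Fin m,
          χ (op (tp N i) (tp N j)) *
          Gh H (tp N i) (tp N j) * φ (op (tp N i) (tp N j)) * g i * g j) ∧
      M * ∑ k, g k ≤ ∑ k : Fin m, (1 / tp N k) * η k := by
  classical
  let c : Fin m → Fin m → Fin m → ℝ := fun k i j =>
    if (i : ℕ) + j + N = k then (1 / 2) * (χ (tp N k) * Gh H (tp N i) (tp N j)) else 0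
  have hGh0 : ∀ i j : ℕ, 0 ≤ Gh H (tp N i) (tp N j) := fun i j =>
    Gh_nonneg hH (tp_pos hN i).le (tp_pos hN j).le
  obtain ⟨g, hg0, hg⟩ := exists_discrete (fun k : Fin m => M * tp N k) η
    (fun k => mul_pos hM (tp_pos hN k)) hη (fun k j => Gh H (tp N k) (tp N j))
    (fun k j => hGh0 k j) c (by
      intro k i j
      simp only [c]
      split_ifs
      · have := hGh0 i j
        have := hχ0 (tp N k)
        positivity
      · exact le_rfl) (by
      intro k i j hij
      simp only [c]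
      rw [if_neg]
      intro h
      apply hij
      constructor
      · rw [Fin.lt_def]; omega
      · rw [Fin.lt_def]; omega)
  have hid : ∀ φ : ℝ → ℝ, M * ∑ k : Fin m, tp N k * φ (tp N k) * g k +
        ∑ i : Fin m, ∑ j : Fin m, Gh H (tp N i) (tp N j) * φ (tp N i) * g i * g j =
        ∑ k : Fin m, φ (tp N k) * η k + (1 / 2) * ∑ i : Fin m, ∑ j : Fin m,
          χ (op (tp N i) (tp N j)) * Gh H (tp N i) (tp N j) * φ (op (tp N i) (tp N j)) *
          g i * g j := by
    intro φ
    have h1 : ∀ k : Fin m, φ (tp N k) * (g k * (M * tp N k +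
        ∑ j : Fin m, Gh H (tp N k) (tp N j) * g j)) =
        φ (tp N k) * (η k + ∑ i, ∑ j, c k i j * g i * g j) := fun k => by rw [hg k]
    have h2 := Finset.sum_congr rfl fun k (_ : k ∈ (Finset.univ : Finset (Fin m))) => h1 k
    have h3 : ∑ k : Fin m, φ (tp N k) * (g k * (M * tp N k +
        ∑ j : Fin m, Gh H (tp N k) (tp N j) * g j)) =
        M * ∑ k : Fin m, tp N k * φ (tp N k) * g k +
        ∑ i : Fin m, ∑ j : Fin m, Gh H (tp N i) (tp N j) * φ (tp N i) * g i * g j := by
      rw [Finset.mul_sum, ← Finset.sum_add_distrib]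
      apply Finset.sum_congr rfl
      intro k _
      rw [mul_add, mul_add, Finset.mul_sum, Finset.mul_sum]
      congr 1
      · ring
      · apply Finset.sum_congr rfl
        intro j _
        ring
    have h4 : ∑ k : Fin m, φ (tp N k) * (η k + ∑ i, ∑ j, c k i j * g i * g j) =
        ∑ k : Fin m, φ (tp N k) * η k + ∑ i, ∑ j, (∑ k : Fin m, φ (tp N k) * c k i j) *
          g i * g j := by
      simp_rw [mul_add]
      rw [Finset.sum_add_distrib]
      congr 1
      simp_rw [Finset.mul_sum, Finset.sum_mul]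
      rw [Finset.sum_comm]
      apply Finset.sum_congr rfl
      intro i _
      rw [Finset.sum_comm]
      apply Finset.sum_congr rfl
      intro j _
      apply Finset.sum_congr rfl
      intro k _
      ring
    have h5 : ∀ i j : Fin m, ∑ k : Fin m, φ (tp N k) * c k i j =
        (1 / 2) * (χ (op (tp N i) (tp N j)) * Gh H (tp N i) (tp N j) *
          φ (op (tp N i) (tp N j))) := by
      intro i j
      rw [op_tp hN]
      by_cases hlt : (i : ℕ) + j + N < m
      · rw [Finset.sum_eq_single (⟨(i : ℕ) + j + N, hlt⟩ : Fin m)]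
        · simp only [c, if_true]; ring
        · intro k _ hk
          simp only [c]
          rw [if_neg, mul_zero]
          intro h
          exact hk (Fin.ext h.symm)
        · intro h; exact absurd (Finset.mem_univ _) h
      · rw [Finset.sum_eq_zero]
        · rw [hχm _ (not_lt.1 hlt)]; ring
        · intro k _
          simp only [c]
          rw [if_neg, mul_zero]
          intro h
          have := k.2
          omega
    rw [← h3, h2, h4]
    simp_rw [h5]
    congr 1
    rw [Finset.mul_sum]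
    apply Finset.sum_congr rfl
    intro i _
    rw [Finset.mul_sum]
    apply Finset.sum_congr rfl
    intro j _
    ring
  refine ⟨g, hg0, hid, ?_⟩
  -- the mass bound
  have h1 := hid fun t => 1 / t
  have e1 : ∑ k : Fin m, tp N k * (1 / tp N k) * g k = ∑ k, g k := by
    apply Finset.sum_congr rfl
    intro k _
    rw [mul_one_div_cancel (tp_pos hN k).ne', one_mul]
  beta_reduce at h1
  rw [e1] at h1
  have e2 : (1 / 2) * ∑ i : Fin m, ∑ j : Fin m, χ (op (tp N i) (tp N j)) *
      Gh H (tp N i) (tp N j) * (1 / op (tp N i) (tp N j)) * g i * g j ≤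
      ∑ i : Fin m, ∑ j : Fin m, Gh H (tp N i) (tp N j) * (1 / tp N i) * g i * g j := by
    have e3 : ∀ i j : ℕ, 1 / op (tp N i) (tp N j) = 1 / tp N i + 1 / tp N j := by
      intro i j
      have := tp_pos hN i
      have := tp_pos hN j
      unfold op
      field_simp
      ring
    have e4 : ∑ i : Fin m, ∑ j : Fin m, Gh H (tp N i) (tp N j) * (1 / tp N i) * g i * g j =
        ∑ i : Fin m, ∑ j : Fin m, Gh H (tp N i) (tp N j) * (1 / tp N j) * g i * g j := by
      rw [Finset.sum_comm]
      apply Finset.sum_congr rfl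
      intro i _
      apply Finset.sum_congr rfl
      intro j _
      rw [Gh_symm hH (tp_pos hN j) (tp_pos hN i)]
      ring
    have e5 : ∑ i : Fin m, ∑ j : Fin m, χ (op (tp N i) (tp N j)) *
        Gh H (tp N i) (tp N j) * (1 / op (tp N i) (tp N j)) * g i * g j ≤
        ∑ i : Fin m, ∑ j : Fin m, Gh H (tp N i) (tp N j) * (1 / tp N i) * g i * g j +
        ∑ i : Fin m, ∑ j : Fin m, Gh H (tp N i) (tp N j) * (1 / tp N j) * g i * g j := by
      rw [← Finset.sum_add_distrib]
      apply Finset.sum_le_sum; intro i _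
      rw [← Finset.sum_add_distrib]
      apply Finset.sum_le_sum; intro j _
      rw [e3]
      have p1 := tp_pos hN i
      have p2 := tp_pos hN j
      have p3 := hGh0 i j
      have p4 := hg0 i
      have p5 := hg0 j
      have : χ (op (tp N i) (tp N j)) * (Gh H (tp N i) (tp N j) * (1 / tp N i + 1 / tp N j) *
          g i * g j) ≤ 1 * (Gh H (tp N i) (tp N j) * (1 / tp N i + 1 / tp N j) * g i * g j) :=
        mul_le_mul_of_nonneg_right (hχ1 _) (by positivity)
      calc _ = χ (op (tp N i) (tp N j)) * (Gh H (tp N i) (tp N j) *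
            (1 / tp N i + 1 / tp N j) * g i * g j) := by ring
        _ ≤ _ := this
        _ = _ := by ring
    rw [← e4] at e5
    linarith
  linarith

end Pool.Agent.Lib.MP_e589f0_an

/-!
# Discrete measures solving a truncated equation: the measure form
-/

namespace Pool.Agent.Lib.MP_e589f0_an

open MeasureTheory Set Filter
open scoped Topology ENNReal unitInterval

variable {H : ℝ → ℝ}

/-- A finite combination of Dirac masses. -/
noncomputable def combo {m : ℕ} (w : Fin m → ℝ) (t : Fin m → I) : Measure I :=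
  ∑ k, ENNReal.ofReal (w k) • Measure.dirac (t k)

theorem integral_combo {m : ℕ} (w : Fin m → ℝ) (hw : ∀ k, 0 ≤ w k) (t : Fin m → I) (f : I → ℝ) :
    ∫ x, f x ∂(combo w t) = ∑ k, w k * f (t k) := by
  unfold combo
  rw [integral_finsetSum_measure]
  · apply Finset.sum_congr rfl
    intro k _
    rw [integral_smul_measure, integral_dirac, ENNReal.toReal_ofReal (hw k), smul_eq_mul]
  · intro k _
    exact (integrable_dirac (by simp)).smul_measure ENNReal.ofReal_ne_top

theorem combo_univ {m : ℕ} (w : Fin m → ℝ) (hw : ∀ k, 0 ≤ w k) (t : Fin m → I) :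
    combo w t univ = ENNReal.ofReal (∑ k, w k) := by
  unfold combo
  rw [Measure.finsetSum_apply]
  simp only [Measure.smul_apply, measure_univ, smul_eq_mul, mul_one]
  rw [ENNReal.ofReal_sum_of_nonneg fun k _ => hw k]

theorem combo_apply_eq_zero {m : ℕ} (w : Fin m → ℝ) (t : Fin m → I) (s : Set I)
    (hs : MeasurableSet s) (h : ∀ k, t k ∉ s) : combo w t s = 0 := by
  unfold combo
  rw [Measure.finsetSum_apply]
  apply Finset.sum_eq_zero
  intro k _
  rw [Measure.smul_apply, Measure.dirac_apply' _ hs, indicator_of_notMem (h k), smul_zero]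

theorem source_sum (ν : Measure ℝ) [IsFiniteMeasure ν] (N m : ℕ)
    (hm : ∀ᵐ x ∂ν, N ≤ ⌊(N : ℝ) * x⌋₊ ∧ ⌊(N : ℝ) * x⌋₊ < N + m) (ψ : ℕ → ℝ) :
    ∑ k : Fin m, ψ (N + k) * (ν {x | ⌊(N : ℝ) * x⌋₊ = N + k}).toReal =
      ∫ x, ψ ⌊(N : ℝ) * x⌋₊ ∂ν := by
  have hmeas : ∀ k : ℕ, MeasurableSet {x : ℝ | ⌊(N : ℝ) * x⌋₊ = k} := fun k =>
    (Nat.measurable_floor.comp (measurable_const_mul (N : ℝ))) (measurableSet_singleton k)
  have h1 : ∀ᵐ x ∂ν, ψ ⌊(N : ℝ) * x⌋₊ = ∑ k : Fin m,
      ({x : ℝ | ⌊(N : ℝ) * x⌋₊ = N + k}).indicator (fun _ => ψ (N + k)) x := by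
    filter_upwards [hm] with x hx
    have hlt : ⌊(N : ℝ) * x⌋₊ - N < m := by omega
    rw [Finset.sum_eq_single (⟨⌊(N : ℝ) * x⌋₊ - N, hlt⟩ : Fin m)]
    · have e : N + (⌊(N : ℝ) * x⌋₊ - N) = ⌊(N : ℝ) * x⌋₊ := by omega
      rw [indicator_of_mem]
      · simp only [e]
      · simp only [mem_setOf_eq, e]
    · intro k _ hk
      apply indicator_of_notMem
      intro hk'
      apply hk
      apply Fin.ext
      simp only [mem_setOf_eq] at hk'
      simp only
      omega
    · intro h; exact absurd (Finset.mem_univ _) h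
  rw [integral_congr_ae h1, integral_finsetSum]
  · apply Finset.sum_congr rfl
    intro k _
    rw [integral_indicator_const _ (hmeas _), smul_eq_mul, mul_comm]
    rfl
  · intro k _
    exact (integrable_const _).indicator (hmeas _)

/-- Existence of discrete solutions, as measures on the unit interval. -/
theorem exists_disc_measure (hH : Prof H) {M : ℝ} (hM : 0 < M) {ν : Measure ℝ} [IsFiniteMeasure ν]
    (hν : ∫⁻ x, ENNReal.ofReal x ∂ν = 1) {L : ℝ} (hL : 1 ≤ L) (hνs : ∀ᵐ x ∂ν, 1 ≤ x ∧ x ≤ L)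
    {χ : ℝ → ℝ} (hχ0 : ∀ t, 0 ≤ χ t) (hχ1 : ∀ t, χ t ≤ 1) {τ : ℝ} (hτ : 0 < τ)
    (hχτ : ∀ t, t ≤ τ → χ t = 0) {N : ℕ} (hN : 1 ≤ N) :
    ∃ μ : Measure I, μ univ ≤ ENNReal.ofReal (1 / M) ∧
      μ {t : I | (t : ℝ) < 1 / (4 + 1 / τ + L)} = 0 ∧
      ∀ φ : ℝ → ℝ, M * ∫ t : I, (t : ℝ) * φ t ∂μ + ∫ s : I, ∫ t : I, Gh H s t * φ s ∂μ ∂μ =
        ∫ x, φ (N / ⌊(N : ℝ) * x⌋₊) ∂ν +
          (1 / 2) * ∫ s : I, ∫ t : I, χ (op s t) * Gh H s t * φ (op s t) ∂μ ∂μ := by
  have hN0 : (0 : ℝ) < N := by exact_mod_cast hN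
  have hN1 : (1 : ℝ) ≤ N := by exact_mod_cast hN
  -- the number of grid points
  set m : ℕ := ⌈(N : ℝ) / τ⌉₊ + ⌈(N : ℝ) * L⌉₊ + 1 with hm
  have hm1 : (N : ℝ) / τ ≤ m := by
    have := Nat.le_ceil ((N : ℝ) / τ)
    have h2 : (⌈(N : ℝ) / τ⌉₊ : ℝ) ≤ m := by exact_mod_cast (by omega : ⌈(N : ℝ) / τ⌉₊ ≤ m)
    linarith
  have hm2 : (m : ℝ) ≤ N / τ + N * L + 3 := by
    have h1 := Nat.ceil_lt_add_one (a := (N : ℝ) / τ) (by positivity)
    have h2 := Nat.ceil_lt_add_one (a := (N : ℝ) * L) (by positivity)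
    rw [hm]; push_cast; linarith
  have hχm : ∀ k, m ≤ k → χ (tp N k) = 0 := by
    intro k hk
    apply hχτ
    unfold tp
    have h1 : (m : ℝ) ≤ k := by exact_mod_cast hk
    rw [div_le_iff₀ (by positivity)]
    have h2 : (N : ℝ) ≤ τ * m := by
      have := mul_le_mul_of_nonneg_left hm1 hτ.le
      rwa [mul_div_cancel₀ _ hτ.ne'] at this
    nlinarith
  have hfl : ∀ᵐ x ∂ν, N ≤ ⌊(N : ℝ) * x⌋₊ ∧ ⌊(N : ℝ) * x⌋₊ < N + m := by
    filter_upwards [hνs] with x hx
    constructor
    · apply Nat.le_floor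
      nlinarith [hx.1]
    · have h1 : ⌊(N : ℝ) * x⌋₊ ≤ ⌈(N : ℝ) * L⌉₊ := by
        have h3 : (N : ℝ) * x ≤ N * L := mul_le_mul_of_nonneg_left hx.2 hN0.le
        exact (Nat.floor_le_floor h3).trans (Nat.floor_le_ceil _)
      omega
  let η : Fin m → ℝ := fun k => (ν {x | ⌊(N : ℝ) * x⌋₊ = N + k}).toReal
  obtain ⟨g, hg0, hid, hmass⟩ := exists_discrete_sum hH hM hN η (fun k => ENNReal.toReal_nonneg)
    hχ0 hχ1 hχm
  let t : Fin m → I := fun k => ⟨tp N k, (tp_pos hN k).le, tp_le_one hN k⟩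
  have htv : ∀ k, ((t k : I) : ℝ) = tp N k := fun k => rfl
  refine ⟨combo g t, ?_, ?_, ?_⟩
  · rw [combo_univ g hg0]
    apply ENNReal.ofReal_le_ofReal
    rw [le_div_iff₀ hM, mul_comm]
    refine hmass.trans ?_
    have e1 : ∑ k : Fin m, (1 / tp N k) * η k = ∫ x, ((⌊(N : ℝ) * x⌋₊ : ℕ) : ℝ) / N ∂ν := by
      rw [← source_sum ν N m hfl (fun n => (n : ℝ) / N)]
      apply Finset.sum_congr rfl
      intro k _
      unfold tp
      rw [one_div_div]
      push_cast
      rfl
    rw [e1]
    have hint : Integrable (fun x : ℝ => x) ν := by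
      refine ⟨measurable_id.aestronglyMeasurable, ?_⟩
      rw [hasFiniteIntegral_iff_norm]
      have : ∫⁻ x, ENNReal.ofReal ‖x‖ ∂ν = ∫⁻ x, ENNReal.ofReal x ∂ν := by
        apply lintegral_congr_ae
        filter_upwards [hνs] with x hx
        rw [Real.norm_eq_abs, abs_of_nonneg (by linarith [hx.1])]
      rw [this, hν]
      exact ENNReal.one_lt_top
    calc ∫ x, ((⌊(N : ℝ) * x⌋₊ : ℕ) : ℝ) / N ∂ν ≤ ∫ x, x ∂ν := by
          apply integral_mono_of_nonneg
          · exact Eventually.of_forall fun x => by positivity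
          · exact hint
          · filter_upwards [hνs] with x hx
            rw [div_le_iff₀ hN0, mul_comm x]
            exact Nat.floor_le (by nlinarith [hx.1])
      _ = 1 := by
          rw [integral_eq_lintegral_of_nonneg_ae, hν, ENNReal.toReal_one]
          · filter_upwards [hνs] with x hx
            exact zero_le_one.trans hx.1
          · exact measurable_id.aestronglyMeasurable
  · apply combo_apply_eq_zero
    · exact measurableSet_lt measurable_subtype_coe measurable_const
    · intro k hk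
      simp only [mem_setOf_eq, htv] at hk
      unfold tp at hk
      have hk' : ((k : ℕ) : ℝ) ≤ m := by exact_mod_cast k.2.le
      rw [div_lt_div_iff₀ (by positivity) (by positivity)] at hk
      have h3 : (N : ℝ) * (1 / τ) = N / τ := by ring
      nlinarith
  · intro φ
    rw [integral_combo g hg0]
    simp_rw [integral_combo g hg0]
    simp only [htv]
    have h1 := hid φ
    have e1 : ∑ k : Fin m, φ (tp N k) * η k = ∫ x, φ (N / ⌊(N : ℝ) * x⌋₊) ∂ν := by
      rw [← source_sum ν N m hfl (fun n => φ (N / n))]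
      apply Finset.sum_congr rfl
      intro k _
      unfold tp
      push_cast
      rfl
    rw [e1] at h1
    convert h1 using 1
    · congr 1
      · congr 1
        apply Finset.sum_congr rfl; intro k _; ring
      · apply Finset.sum_congr rfl; intro i _
        rw [Finset.mul_sum]
        apply Finset.sum_congr rfl; intro j _; ring
    · congr 1
      congr 1
      apply Finset.sum_congr rfl; intro i _
      rw [Finset.mul_sum]
      apply Finset.sum_congr rfl; intro j _; ring

end Pool.Agent.Lib.MP_e589f0_an
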