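import Pool.Agent.Lib.MP_e589f0_an.Flux

/-!
# Solutions with bounded support
-/

namespace Pool.Agent.Lib.MP_e589f0_an

open MeasureTheory Set Filter
open scoped Topology ENNReal

variable {H : ℝ → ℝ} {M : ℝ} {ν g : Measure ℝ}

/-- A bounded set of sizes, carrying the source, which is closed under coagulation. -/
def System (H : ℝ → ℝ) (ν : Measure ℝ) : Prop :=
  ∃ B : Set ℝ, B ⊆ Ioi 0 ∧ BddAbove B ∧ MeasurableSet B ∧ ν Bᶜ = 0 ∧
    ∀ x ∈ B, ∀ y ∈ B, x + y ∉ B → H (x / (x + y)) = 0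

theorem Core.M_pos (hH : Prof H) (h : Core H M ν g) (hν : ∫⁻ x, ENNReal.ofReal x ∂ν = 1) :
    0 < M := by
  have hmass := h.mass hH hν
  by_contra hM
  rw [not_lt] at hM
  rw [ENNReal.ofReal_of_nonpos hM, zero_mul] at hmass
  exact zero_ne_one hmass

/-- There is no mass in sizes smaller than `1`. -/
theorem Core.lt_one (hH : Prof H) (h : Core H M ν g) (hν : ∫⁻ x, ENNReal.ofReal x ∂ν = 1)
    (hν1 : ν (Iio 1) = 0) : g (Iio 1) = 0 := by
  have hM := h.M_pos hH hν
  let φ : ℝ → ℝ≥0∞ := (Iio (1 : ℝ)).indicator fun x => ENNReal.ofReal x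
  have hφ : Measurable φ := (by fun_prop : Measurable fun x : ℝ => ENNReal.ofReal x).indicator
    measurableSet_Iio
  have hφ1 : ∀ x, φ x ≤ 1 := by
    intro x
    by_cases hx : x ∈ Iio (1 : ℝ)
    · simp only [φ, indicator_of_mem hx]
      rw [← ENNReal.ofReal_one]
      exact ENNReal.ofReal_le_ofReal (le_of_lt hx)
    · simp only [φ, indicator_of_notMem hx]; exact zero_le
  have hsub : ∀ x y : ℝ, 0 < x → 0 < y → φ (x + y) ≤ φ x + φ y := by
    intro x y hx hy
    by_cases hxy : x + y ∈ Iio (1 : ℝ)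
    · have hxy' : x + y < 1 := hxy
      have hx1 : x ∈ Iio (1 : ℝ) := by rw [mem_Iio]; linarith
      have hy1 : y ∈ Iio (1 : ℝ) := by rw [mem_Iio]; linarith
      simp only [φ, indicator_of_mem hxy, indicator_of_mem hx1, indicator_of_mem hy1]
      rw [ENNReal.ofReal_add hx.le hy.le]
    · simp only [φ, indicator_of_notMem hxy]; exact zero_le
  have key := h.subadd hH hφ ENNReal.one_lt_top hφ1 hsub
  have h0 : ∫⁻ x, φ x ∂ν = 0 := by
    rw [lintegral_indicator measurableSet_Iio, Measure.restrict_eq_zero.2 hν1,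
      lintegral_zero_measure]
  rw [h0, mul_zero] at key
  have h1 : 2 * ENNReal.ofReal M * ∫⁻ x, ENNReal.ofReal (1 / x) * φ x ∂g = 0 := by
    have := key.symm
    rw [add_eq_zero] at this
    exact this.2
  have h2 : ∫⁻ x, ENNReal.ofReal (1 / x) * φ x ∂g = 0 := by
    rcases mul_eq_zero.1 h1 with h3 | h3
    · exfalso
      rcases mul_eq_zero.1 h3 with h4 | h4
      · norm_num at h4
      · rw [ENNReal.ofReal_eq_zero] at h4; linarith
    · exact h3
  have h3 : ∫⁻ x, (Iio (1 : ℝ)).indicator 1 x ∂g ≤ ∫⁻ x, ENNReal.ofReal (1 / x) * φ x ∂g := by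
    apply lintegral_mono_ae
    filter_upwards [h.ae_pos] with x hx
    by_cases hx1 : x ∈ Iio (1 : ℝ)
    · simp only [φ, indicator_of_mem hx1]
      rw [← ENNReal.ofReal_mul (by positivity), one_div, inv_mul_cancel₀ hx.ne',
        ENNReal.ofReal_one]
      rfl
    · rw [indicator_of_notMem hx1]; exact zero_le
  rw [lintegral_indicator_one measurableSet_Iio, h2] at h3
  exact le_antisymm h3 zero_le

theorem continuousAt_G (hH : Prof H) {x y : ℝ} (hx : 0 < x) (hy : 0 < y) :
    ContinuousAt (fun p : ℝ × ℝ => G H p.1 p.2) (x, y) := by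
  unfold G
  have h1 : ContinuousAt (fun p : ℝ × ℝ => (p.1 + p.2) / (p.1 * p.2)) (x, y) :=
    (by fun_prop : ContinuousAt (fun p : ℝ × ℝ => p.1 + p.2) (x, y)).div
      (by fun_prop) (by positivity)
  have h2 : ContinuousAt (fun p : ℝ × ℝ => p.1 / (p.1 + p.2)) (x, y) :=
    (by fun_prop : ContinuousAt (fun p : ℝ × ℝ => p.1) (x, y)).div
      (by fun_prop) (by positivity)
  exact h1.mul (hH.cont.continuousAt.comp' h2)

/-- A compactly supported solution yields a bounded system. -/
theorem Core.exists_system (hH : Prof H) (h : Core H M ν g)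
    (hν : ∫⁻ x, ENNReal.ofReal x ∂ν = 1) (hν1 : ν (Iio 1) = 0) {z : ℝ} (hz : g (Ioi z) = 0) :
    System H ν := by
  have hfinm := h.isFiniteMeasure
  have hlt := h.lt_one hH hν hν1
  set B : Set ℝ := g.support with hB
  have hBcl : IsClosed B := Measure.isClosed_support
  have hBc : g Bᶜ = 0 := Measure.measure_compl_support
  have hB1 : B ⊆ Ici 1 := Measure.support_subset_of_isClosed isClosed_Ici (by
    rw [mem_ae_iff, compl_Ici]; exact hlt)
  have hBz : B ⊆ Iic z := Measure.support_subset_of_isClosed isClosed_Iic (by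
    rw [mem_ae_iff, compl_Iic]; exact hz)
  let φ : ℝ → ℝ≥0∞ := Bᶜ.indicator 1
  have hφ : Measurable φ := measurable_one.indicator hBcl.measurableSet.compl
  have key := h.eqn φ hφ
  have hφae : ∀ᵐ x ∂g, φ x = 0 := by
    have : ∀ᵐ x ∂g, x ∈ B := by rw [ae_iff]; exact hBc
    filter_upwards [this] with x hx
    simp only [φ]
    rw [indicator_of_notMem (by simpa using hx)]
  have r1 : ∫⁻ x, ∫⁻ y, ENNReal.ofReal (G H x y) * φ x ∂g ∂g = 0 := by
    rw [← lintegral_zero (μ := g)]
    apply lintegral_congr_ae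
    filter_upwards [hφae] with x hx
    simp [hx]
  have r2 : ∫⁻ x, ENNReal.ofReal (1 / x) * φ x ∂g = 0 := by
    rw [← lintegral_zero (μ := g)]
    apply lintegral_congr_ae
    filter_upwards [hφae] with x hx
    simp [hx]
  rw [r1, r2, mul_zero, mul_zero, add_zero, add_eq_zero] at key
  obtain ⟨k1, k2⟩ := key
  refine ⟨B, fun x hx => lt_of_lt_of_le (one_pos : (0 : ℝ) < 1) (hB1 hx), ⟨z, hBz⟩, hBcl.measurableSet, ?_, ?_⟩
  · rcases mul_eq_zero.1 k2 with h3 | h3
    · norm_num at h3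
    · simp only [φ] at h3
      rwa [lintegral_indicator_one hBcl.measurableSet.compl] at h3
  · intro x hx y hy hxy
    by_contra hne
    have hx0 : 0 < x := lt_of_lt_of_le one_pos (hB1 hx)
    have hy0 : 0 < y := lt_of_lt_of_le one_pos (hB1 hy)
    have hHpos : 0 < H (x / (x + y)) := lt_of_le_of_ne (hH.nonneg _) (Ne.symm hne)
    have hGpos : 0 < G H x y := by unfold G; positivity
    set c : ℝ := G H x y / 2 with hc
    have hcpos : 0 < c := by positivity
    have hW : {p : ℝ × ℝ | c < G H p.1 p.2 ∧ p.1 + p.2 ∈ Bᶜ} ∈ 𝓝 (x, y) := by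
      have e1 : ∀ᶠ p in 𝓝 (x, y), c < G H p.1 p.2 :=
        (continuousAt_G hH hx0 hy0).eventually_const_lt (by rw [hc]; linarith)
      have e2 : ∀ᶠ p in 𝓝 (x, y), p.1 + p.2 ∈ Bᶜ :=
        (by fun_prop : ContinuousAt (fun p : ℝ × ℝ => p.1 + p.2) (x, y)).eventually_mem
          (hBcl.isOpen_compl.mem_nhds hxy)
      filter_upwards [e1, e2] with p h1 h2 using ⟨h1, h2⟩
    obtain ⟨U, V, hU, hxU, hV, hyV, hUV⟩ := mem_nhds_prod_iff'.1 hW
    have hgU : 0 < g U := (Measure.mem_support_iff_forall x).1 hx U (hU.mem_nhds hxU)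
    have hgV : 0 < g V := (Measure.mem_support_iff_forall y).1 hy V (hV.mem_nhds hyV)
    have hlow : ENNReal.ofReal c * g V * g U ≤
        ∫⁻ x, ∫⁻ y, ENNReal.ofReal (G H x y) * φ (x + y) ∂g ∂g := by
      calc ENNReal.ofReal c * g V * g U = ∫⁻ x in U, ∫⁻ y in V, ENNReal.ofReal c ∂g ∂g := by
            rw [setLIntegral_const, setLIntegral_const]
        _ ≤ ∫⁻ x in U, ∫⁻ y in V, ENNReal.ofReal (G H x y) * φ (x + y) ∂g ∂g := by
            apply setLIntegral_mono' hU.measurableSet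
            intro x' hx'
            apply setLIntegral_mono' hV.measurableSet
            intro y' hy'
            obtain ⟨h1, h2⟩ := hUV (mk_mem_prod hx' hy')
            simp only [φ]
            rw [indicator_of_mem h2, Pi.one_apply, mul_one]
            exact ENNReal.ofReal_le_ofReal h1.le
        _ ≤ ∫⁻ x in U, ∫⁻ y, ENNReal.ofReal (G H x y) * φ (x + y) ∂g ∂g := by
            apply lintegral_mono
            intro x'
            exact setLIntegral_le_lintegral _ _
        _ ≤ _ := setLIntegral_le_lintegral _ _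
    rw [k1] at hlow
    have : 0 < ENNReal.ofReal c * g V * g U := by
      have := ENNReal.ofReal_pos.2 hcpos
      positivity
    exact absurd hlow (not_le.2 this)

/-- The dichotomy: either `M ≥ 1` or there is a bounded system; in any case `M > 0`. -/
theorem Core.dichotomy (hH : Prof H) (h : Core H M ν g)
    (hν : ∫⁻ x, ENNReal.ofReal x ∂ν = 1) (hν1 : ν (Iio 1) = 0) {z₀ : ℝ} (hνz : ν (Ioi z₀) = 0) :
    0 < M ∧ (System H ν ∨ 1 ≤ M) := by
  refine ⟨h.M_pos hH hν, ?_⟩
  by_cases hunb : ∀ z, g (Ioi z) ≠ 0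
  · exact Or.inr (h.one_le hH hν hνz hunb)
  · push Not at hunb
    obtain ⟨z, hz⟩ := hunb
    exact Or.inl (h.exists_system hH hν hν1 hz)

end Pool.Agent.Lib.MP_e589f0_an
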