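import Pool.Agent.Lib.MP_e589f0_an.Core

/-!
# Measures determined by smooth test functions
-/

namespace Pool.Agent.Lib.MP_e589f0_an

open MeasureTheory Set Filter
open scoped Topology ENNReal ContDiff

/-- The smooth test functions. -/
structure Test (ϕ : ℝ → ℝ) : Prop where
  smooth : ContDiff ℝ ∞ ϕ
  compact : HasCompactSupport ϕ
  pos : tsupport ϕ ⊆ Ioi 0

/-- A smooth approximation of the indicator of `(a, b)`. -/
noncomputable def bump (a b : ℝ) (n : ℕ) (x : ℝ) : ℝ :=
  Real.smoothTransition (n * (x - a)) * Real.smoothTransition (n * (b - x))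

theorem bump_nonneg (a b : ℝ) (n : ℕ) (x : ℝ) : 0 ≤ bump a b n x :=
  mul_nonneg (Real.smoothTransition.nonneg _) (Real.smoothTransition.nonneg _)

theorem bump_le_one (a b : ℝ) (n : ℕ) (x : ℝ) : bump a b n x ≤ 1 :=
  mul_le_one₀ (Real.smoothTransition.le_one _) (Real.smoothTransition.nonneg _)
    (Real.smoothTransition.le_one _)

theorem bump_eq_zero {a b : ℝ} (n : ℕ) {x : ℝ} (h : x ∉ Ioo a b) : bump a b n x = 0 := by
  unfold bump
  rw [mem_Ioo, not_and_or, not_lt, not_lt] at h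
  have hn : (0 : ℝ) ≤ n := by positivity
  rcases h with h | h
  · rw [Real.smoothTransition.zero_of_nonpos, zero_mul]
    exact mul_nonpos_of_nonneg_of_nonpos hn (by linarith)
  · rw [Real.smoothTransition.zero_of_nonpos (x := n * (b - x)), mul_zero]
    exact mul_nonpos_of_nonneg_of_nonpos hn (by linarith)

theorem test_bump {a b : ℝ} (ha : 0 < a) (n : ℕ) : Test (bump a b n) := by
  have hsupp : tsupport (bump a b n) ⊆ Icc a b := by
    apply closure_minimal _ isClosed_Icc
    intro x hx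
    by_contra h
    apply hx
    apply bump_eq_zero
    intro h2
    exact h (Ioo_subset_Icc_self h2)
  refine ⟨?_, ?_, hsupp.trans fun x hx => ha.trans_le hx.1⟩
  · unfold bump
    apply ContDiff.mul
    · exact Real.smoothTransition.contDiff.comp (by fun_prop)
    · exact Real.smoothTransition.contDiff.comp (by fun_prop)
  · exact HasCompactSupport.of_support_subset_isCompact isCompact_Icc
      ((subset_tsupport _).trans hsupp)

theorem tendsto_bump (a b x : ℝ) : Tendsto (fun n : ℕ => ENNReal.ofReal (bump a b n x)) atTop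
    (𝓝 ((Ioo a b).indicator 1 x)) := by
  by_cases hx : x ∈ Ioo a b
  · rw [indicator_of_mem hx, Pi.one_apply]
    apply tendsto_const_nhds.congr'
    obtain ⟨h1, h2⟩ := hx
    obtain ⟨N1, hN1⟩ := exists_nat_ge (1 / (x - a))
    obtain ⟨N2, hN2⟩ := exists_nat_ge (1 / (b - x))
    filter_upwards [eventually_ge_atTop (max N1 N2)] with n hn
    have e1 : (N1 : ℝ) ≤ n := by exact_mod_cast (le_max_left _ _).trans hn
    have e2 : (N2 : ℝ) ≤ n := by exact_mod_cast (le_max_right _ _).trans hn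
    unfold bump
    rw [Real.smoothTransition.one_of_one_le, Real.smoothTransition.one_of_one_le, mul_one,
      ENNReal.ofReal_one]
    · have := (div_le_iff₀ (by linarith : 0 < b - x)).1 (hN2.trans e2)
      exact this
    · have := (div_le_iff₀ (by linarith : 0 < x - a)).1 (hN1.trans e1)
      exact this
  · rw [indicator_of_notMem hx]
    simp_rw [bump_eq_zero _ hx]
    simp

theorem measurable_bump (a b : ℝ) (n : ℕ) : Measurable (bump a b n) := by
  unfold bump
  have h := Real.smoothTransition.continuous.measurable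
  exact (h.comp (by fun_prop)).mul (h.comp (by fun_prop))

/-- Two finite measures on `(0, ∞)` which agree on smooth test functions are equal. -/
theorem measure_ext_of_test {m₁ m₂ : Measure ℝ} [IsFiniteMeasure m₁] [IsFiniteMeasure m₂]
    (h₁ : m₁ (Iic 0) = 0) (h₂ : m₂ (Iic 0) = 0)
    (h : ∀ ϕ : ℝ → ℝ, Test ϕ → (∀ x, 0 ≤ ϕ x) →
      ∫⁻ x, ENNReal.ofReal (ϕ x) ∂m₁ = ∫⁻ x, ENNReal.ofReal (ϕ x) ∂m₂) : m₁ = m₂ := by
  have key : ∀ (m : Measure ℝ) [IsFiniteMeasure m] (a b : ℝ),
      Tendsto (fun n : ℕ => ∫⁻ x, ENNReal.ofReal (bump a b n x) ∂m) atTop (𝓝 (m (Ioo a b))) := by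
    intro m _ a b
    rw [← lintegral_indicator_one measurableSet_Ioo]
    apply tendsto_lintegral_of_dominated_convergence (fun _ => 1)
    · intro n
      exact (measurable_bump a b n).ennreal_ofReal
    · intro n
      apply Eventually.of_forall
      intro x
      rw [← ENNReal.ofReal_one]
      exact ENNReal.ofReal_le_ofReal (bump_le_one a b n x)
    · simp
    · apply Eventually.of_forall
      intro x
      exact tendsto_bump a b x
  have hpos : ∀ a b : ℝ, 0 < a → m₁ (Ioo a b) = m₂ (Ioo a b) := by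
    intro a b ha
    have k1 := key m₁ a b
    have k2 := key m₂ a b
    have : (fun n : ℕ => ∫⁻ x, ENNReal.ofReal (bump a b n x) ∂m₁) =
        fun n : ℕ => ∫⁻ x, ENNReal.ofReal (bump a b n x) ∂m₂ := by
      funext n
      exact h _ (test_bump ha n) (bump_nonneg a b n)
    rw [this] at k1
    exact tendsto_nhds_unique k1 k2
  have hlim : ∀ (m : Measure ℝ) [IsFiniteMeasure m], m (Iic 0) = 0 → ∀ a b : ℝ, a ≤ 0 →
      Tendsto (fun n : ℕ => m (Ioo (1 / ((n : ℝ) + 1)) b)) atTop (𝓝 (m (Ioo a b))) := by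
    intro m _ hm a b ha
    have e1 : m (Ioo a b) = m (Ioo 0 b) := by
      apply le_antisymm
      · have : Ioo a b ⊆ Iic 0 ∪ Ioo 0 b := by
          intro x hx
          rcases le_or_gt x 0 with h | h
          · exact Or.inl h
          · exact Or.inr ⟨h, hx.2⟩
        calc m (Ioo a b) ≤ m (Iic 0 ∪ Ioo 0 b) := measure_mono this
          _ ≤ m (Iic 0) + m (Ioo 0 b) := measure_union_le _ _
          _ = m (Ioo 0 b) := by rw [hm, zero_add]
      · exact measure_mono (Ioo_subset_Ioo_left ha)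
    rw [e1]
    have e2 : Ioo 0 b = ⋃ n : ℕ, Ioo (1 / ((n : ℝ) + 1)) b := by
      ext x
      simp only [mem_Ioo, mem_iUnion]
      constructor
      · rintro ⟨h1, h2⟩
        obtain ⟨n, hn⟩ := exists_nat_one_div_lt h1
        exact ⟨n, hn, h2⟩
      · rintro ⟨n, h1, h2⟩
        exact ⟨lt_trans (by positivity) h1, h2⟩
    rw [e2]
    apply tendsto_measure_iUnion_atTop
    intro i j hij
    apply Ioo_subset_Ioo_left
    apply one_div_le_one_div_of_le (by positivity)
    have : (i : ℝ) ≤ j := by exact_mod_cast hij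
    linarith
  have hall : ∀ a b : ℝ, m₁ (Ioo a b) = m₂ (Ioo a b) := by
    intro a b
    rcases lt_or_ge 0 a with ha | ha
    · exact hpos a b ha
    · have k1 := hlim m₁ h₁ a b ha
      have k2 := hlim m₂ h₂ a b ha
      have : (fun n : ℕ => m₁ (Ioo (1 / ((n : ℝ) + 1)) b)) =
          fun n : ℕ => m₂ (Ioo (1 / ((n : ℝ) + 1)) b) := by
        funext n
        exact hpos _ _ (by positivity)
      rw [this] at k1
      exact tendsto_nhds_unique k1 k2
  exact Real.measure_ext_Ioo_rat fun a b => hall a b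

end Pool.Agent.Lib.MP_e589f0_an

/-!
# From smooth test functions to measurable test functions
-/

namespace Pool.Agent.Lib.MP_e589f0_an

open MeasureTheory Set Filter
open scoped Topology ENNReal

variable {H : ℝ → ℝ}

/-- The identity for smooth test functions implies the identity for measurable ones. -/
theorem ext_identity (hH : Prof H) {ν g : Measure ℝ} (hfin : g univ < ⊤) (hpos : g (Iic 0) = 0)
    (hinv : ∫⁻ x, ENNReal.ofReal (1 / x) ∂g < ⊤) [IsFiniteMeasure ν] (hν : ν (Iic 0) = 0)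
    {c : ℝ → ℝ} (hc : Measurable c) (hc1 : ∀ x, c x ≤ 1) {m : ℝ≥0∞} (hm : m < ⊤)
    (hid : ∀ ϕ : ℝ → ℝ, Test ϕ → (∀ x, 0 ≤ ϕ x) →
      ∫⁻ x, ∫⁻ y, ENNReal.ofReal (c (x + y) * G H x y) * ENNReal.ofReal (ϕ (x + y)) ∂g ∂g +
        2 * ∫⁻ x, ENNReal.ofReal (ϕ x) ∂ν =
      2 * ∫⁻ x, ∫⁻ y, ENNReal.ofReal (G H x y) * ENNReal.ofReal (ϕ x) ∂g ∂g +
        2 * m * ∫⁻ x, ENNReal.ofReal (1 / x) * ENNReal.ofReal (ϕ x) ∂g)
    {φ : ℝ → ℝ≥0∞} (hφ : Measurable φ) :
    ∫⁻ x, ∫⁻ y, ENNReal.ofReal (c (x + y) * G H x y) * φ (x + y) ∂g ∂g + 2 * ∫⁻ x, φ x ∂ν =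
      2 * ∫⁻ x, ∫⁻ y, ENNReal.ofReal (G H x y) * φ x ∂g ∂g +
        2 * m * ∫⁻ x, ENNReal.ofReal (1 / x) * φ x ∂g := by
  have hfinm : IsFiniteMeasure g := ⟨hfin⟩
  have hk : Measurable fun p : ℝ × ℝ => ENNReal.ofReal (c (p.1 + p.2) * G H p.1 p.2) :=
    ((hc.comp (by fun_prop)).mul (measurable_G hH)).ennreal_ofReal
  have hG : Measurable fun p : ℝ × ℝ => ENNReal.ofReal (G H p.1 p.2) :=
    (measurable_G hH).ennreal_ofReal
  set m₁ : Measure ℝ := ((g.prod g).withDensity
    (fun p => ENNReal.ofReal (c (p.1 + p.2) * G H p.1 p.2))).map (fun p => p.1 + p.2) +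
      (2 : ℝ≥0∞) • ν with hm₁
  set m₂ : Measure ℝ := (2 : ℝ≥0∞) • g.withDensity (fun x => ∫⁻ y, ENNReal.ofReal (G H x y) ∂g) +
      (2 * m) • g.withDensity (fun x => ENNReal.ofReal (1 / x)) with hm₂
  have e₁ : ∀ ψ : ℝ → ℝ≥0∞, Measurable ψ → ∫⁻ x, ψ x ∂m₁ =
      ∫⁻ x, ∫⁻ y, ENNReal.ofReal (c (x + y) * G H x y) * ψ (x + y) ∂g ∂g +
        2 * ∫⁻ x, ψ x ∂ν := by
    intro ψ hψ
    have hψ2 : Measurable fun p : ℝ × ℝ => ψ (p.1 + p.2) := hψ.comp (by fun_prop)
    rw [hm₁, lintegral_add_measure, lintegral_smul_measure, lintegral_map hψ (by fun_prop),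
      lintegral_withDensity_eq_lintegral_mul _ hk hψ2,
      lintegral_prod _ (hk.mul hψ2).aemeasurable, smul_eq_mul]
    rfl
  have e₂ : ∀ ψ : ℝ → ℝ≥0∞, Measurable ψ → ∫⁻ x, ψ x ∂m₂ =
      2 * ∫⁻ x, ∫⁻ y, ENNReal.ofReal (G H x y) * ψ x ∂g ∂g +
        2 * m * ∫⁻ x, ENNReal.ofReal (1 / x) * ψ x ∂g := by
    intro ψ hψ
    rw [hm₂, lintegral_add_measure, lintegral_smul_measure, lintegral_smul_measure,
      lintegral_withDensity_eq_lintegral_mul _ hG.lintegral_prod_right hψ,
      lintegral_withDensity_eq_lintegral_mul _ (by fun_prop) hψ, smul_eq_mul, smul_eq_mul]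
    congr 2
    apply lintegral_congr
    intro x
    rw [Pi.mul_apply, lintegral_mul_const _ (measurable_G₂ hH).ennreal_ofReal]
  have htot := total_rate_lt_top hH hfin hpos hinv
  have f₁ : IsFiniteMeasure m₁ := by
    constructor
    rw [← lintegral_one, e₁ _ measurable_const]
    apply ENNReal.add_lt_top.2 ⟨lt_of_le_of_lt ?_ htot, ?_⟩
    · apply lintegral_mono_ae
      filter_upwards [ae_pos_of hpos] with x hx
      apply lintegral_mono_ae
      filter_upwards [ae_pos_of hpos] with y hy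
      rw [mul_one]
      apply ENNReal.ofReal_le_ofReal
      have := mul_le_mul_of_nonneg_right (hc1 (x + y)) (G_nonneg hH hx hy)
      linarith
    · rw [lintegral_one]
      exact ENNReal.mul_lt_top (by norm_num) (measure_lt_top ν _)
  have f₂ : IsFiniteMeasure m₂ := by
    constructor
    rw [← lintegral_one, e₂ _ measurable_const]
    simp only [mul_one]
    exact ENNReal.add_lt_top.2 ⟨ENNReal.mul_lt_top (by norm_num) htot,
      ENNReal.mul_lt_top (ENNReal.mul_lt_top (by norm_num) hm) hinv⟩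
  have z₁ : m₁ (Iic 0) = 0 := by
    rw [← lintegral_indicator_one measurableSet_Iic, e₁ _ (measurable_one.indicator
      measurableSet_Iic), lintegral_indicator_one measurableSet_Iic, hν, mul_zero, add_zero,
      ← lintegral_zero (μ := g)]
    apply lintegral_congr_ae
    filter_upwards [ae_pos_of hpos] with x hx
    rw [← lintegral_zero (μ := g)]
    apply lintegral_congr_ae
    filter_upwards [ae_pos_of hpos] with y hy
    rw [indicator_of_notMem (by simpa using (by positivity : 0 < x + y)), mul_zero]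
  have z₂ : m₂ (Iic 0) = 0 := by
    rw [← lintegral_indicator_one measurableSet_Iic, e₂ _ (measurable_one.indicator
      measurableSet_Iic)]
    have h1 : ∀ᵐ x ∂g, (Iic (0 : ℝ)).indicator (1 : ℝ → ℝ≥0∞) x = 0 := by
      filter_upwards [ae_pos_of hpos] with x hx
      rw [indicator_of_notMem (by simpa using hx)]
    have r1 : ∫⁻ x, ∫⁻ y, ENNReal.ofReal (G H x y) * (Iic (0 : ℝ)).indicator (1 : ℝ → ℝ≥0∞) x
        ∂g ∂g = 0 := by
      rw [← lintegral_zero (μ := g)]
      apply lintegral_congr_ae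
      filter_upwards [h1] with x hx
      simp [hx]
    have r2 : ∫⁻ x, ENNReal.ofReal (1 / x) * (Iic (0 : ℝ)).indicator (1 : ℝ → ℝ≥0∞) x ∂g = 0 := by
      rw [← lintegral_zero (μ := g)]
      apply lintegral_congr_ae
      filter_upwards [h1] with x hx
      simp [hx]
    rw [r1, r2, mul_zero, mul_zero, add_zero]
  have heq : m₁ = m₂ := by
    apply measure_ext_of_test z₁ z₂
    intro ϕ hϕ hϕ0
    have hmeas : Measurable fun x => ENNReal.ofReal (ϕ x) :=
      hϕ.smooth.continuous.measurable.ennreal_ofReal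
    rw [e₁ _ hmeas, e₂ _ hmeas, hid ϕ hϕ hϕ0]
  rw [← e₁ φ hφ, ← e₂ φ hφ, heq]

end Pool.Agent.Lib.MP_e589f0_an
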