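import Pool.Agent.Lib.MP_e589f0_an.Limit
import Pool.Agent.Lib.MP_e589f0_an.Ext

/-!
# From the unit interval to the half-line
-/

namespace Pool.Agent.Lib.MP_e589f0_an

open MeasureTheory Set Filter
open scoped Topology ENNReal NNReal unitInterval

variable {H : ℝ → ℝ}

/-- The image of the part of `μ` on `(0, 1]` under `t ↦ 1 / t`. -/
noncomputable def toR (μ : Measure I) : Measure ℝ :=
  (μ.restrict {t : I | 0 < (t : ℝ)}).map (fun t : I => 1 / (t : ℝ))

theorem measurableSet_posI : MeasurableSet {t : I | 0 < (t : ℝ)} :=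
  measurableSet_lt measurable_const (by fun_prop)

theorem lintegral_toR (μ : Measure I) {f : ℝ → ℝ≥0∞} (hf : Measurable f) :
    ∫⁻ x, f x ∂(toR μ) = ∫⁻ t in {t : I | 0 < (t : ℝ)}, f (1 / (t : ℝ)) ∂μ := by
  unfold toR
  rw [lintegral_map hf (by fun_prop)]

theorem compl_posI : {t : I | 0 < (t : ℝ)}ᶜ = {0} := by
  ext t
  simp only [mem_compl_iff, mem_setOf_eq, not_lt, mem_singleton_iff]
  constructor
  · intro h
    apply Subtype.ext
    exact le_antisymm h t.2.1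
  · rintro rfl
    simp

theorem lintegral_split (μ : Measure I) {f : I → ℝ≥0∞} :
    ∫⁻ t, f t ∂μ = ∫⁻ t in {t : I | 0 < (t : ℝ)}, f t ∂μ + f 0 * μ {0} := by
  rw [← lintegral_add_compl f measurableSet_posI, compl_posI, lintegral_singleton]

theorem toR_univ (μ : Measure I) : toR μ univ + μ {0} = μ univ := by
  unfold toR
  rw [Measure.map_apply (by fun_prop) MeasurableSet.univ, preimage_univ,
    Measure.restrict_apply_univ, ← compl_posI, measure_add_measure_compl measurableSet_posI]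

theorem toR_Iic (μ : Measure I) : toR μ (Iic 0) = 0 := by
  unfold toR
  rw [Measure.map_apply (by fun_prop) measurableSet_Iic, Measure.restrict_apply
    ((by fun_prop : Measurable fun t : I => 1 / (t : ℝ)) measurableSet_Iic)]
  convert measure_empty (μ := μ)
  ext t
  simp only [mem_inter_iff, mem_preimage, mem_Iic, mem_setOf_eq, mem_empty_iff_false, iff_false,
    not_and, not_lt]
  intro h
  by_contra h2
  rw [not_le] at h2
  have : 0 < 1 / (t : ℝ) := by positivity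
  linarith

theorem toR_inv (μ : Measure I) [IsFiniteMeasure μ] :
    ∫⁻ x, ENNReal.ofReal (1 / x) ∂(toR μ) < ⊤ := by
  rw [lintegral_toR μ (by fun_prop)]
  calc ∫⁻ t in {t : I | 0 < (t : ℝ)}, ENNReal.ofReal (1 / (1 / (t : ℝ))) ∂μ
      ≤ ∫⁻ t in {t : I | 0 < (t : ℝ)}, 1 ∂μ := by
        apply lintegral_mono
        intro t
        beta_reduce
        rw [one_div_one_div, ← ENNReal.ofReal_one]
        exact ENNReal.ofReal_le_ofReal t.2.2
    _ ≤ ∫⁻ t, 1 ∂μ := setLIntegral_le_lintegral _ _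
    _ = μ univ := by rw [lintegral_one]
    _ < ⊤ := measure_lt_top _ _

theorem lintegral_toR₂ (μ : Measure I) [IsFiniteMeasure μ] {k : ℝ → ℝ → ℝ≥0∞}
    (hk : Measurable (Function.uncurry k)) :
    ∫⁻ x, ∫⁻ y, k x y ∂(toR μ) ∂(toR μ) = ∫⁻ s in {t : I | 0 < (t : ℝ)},
      ∫⁻ t in {t : I | 0 < (t : ℝ)}, k (1 / (s : ℝ)) (1 / (t : ℝ)) ∂μ ∂μ := by
  have hfin : IsFiniteMeasure (toR μ) := by
    constructor
    refine lt_of_le_of_lt ?_ (measure_lt_top μ univ)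
    rw [← toR_univ μ]
    exact le_self_add
  rw [lintegral_toR μ hk.lintegral_prod_right]
  apply lintegral_congr
  intro s
  rw [lintegral_toR μ hk.of_uncurry_left]

/-- The identity with Lebesgue integrals. -/
theorem lint_identity (hH : Prof H) {M : ℝ} (hM : 0 < M) (μ : Measure I) [IsFiniteMeasure μ]
    {ν : Measure ℝ} [IsFiniteMeasure ν] {L : ℝ} (hνs : ∀ᵐ x ∂ν, 1 ≤ x ∧ x ≤ L)
    {χ : ℝ → ℝ} (hχc : Continuous χ) (hχ0 : ∀ t, 0 ≤ χ t)
    {φ : ℝ → ℝ} (hφ : Continuous φ) (hφ0 : ∀ t, 0 ≤ φ t)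
    (hid : M * ∫ t : I, (t : ℝ) * φ t ∂μ + ∫ s : I, ∫ t : I, Gh H s t * φ s ∂μ ∂μ =
        ∫ x, φ (1 / x) ∂ν +
          (1 / 2) * ∫ s : I, ∫ t : I, χ (op s t) * Gh H s t * φ (op s t) ∂μ ∂μ) :
    2 * (ENNReal.ofReal M * ∫⁻ t : I, ENNReal.ofReal ((t : ℝ) * φ t) ∂μ) +
      2 * ∫⁻ s : I, ∫⁻ t : I, ENNReal.ofReal (Gh H s t * φ s) ∂μ ∂μ =
    2 * ∫⁻ x, ENNReal.ofReal (φ (1 / x)) ∂ν +
      ∫⁻ s : I, ∫⁻ t : I, ENNReal.ofReal (χ (op s t) * Gh H s t * φ (op s t)) ∂μ ∂μ := by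
  have hsingle : ∀ ψ : I → ℝ, Continuous ψ → (∀ t, 0 ≤ ψ t) →
      ∫⁻ t, ENNReal.ofReal (ψ t) ∂μ = ENNReal.ofReal (∫ t, ψ t ∂μ) := by
    intro ψ hψ hψ0
    have hi : Integrable ψ μ := (BoundedContinuousFunction.mkOfCompact ⟨_, hψ⟩).integrable μ
    exact (ofReal_integral_eq_lintegral_ofReal hi (Eventually.of_forall hψ0)).symm
  have hdouble : ∀ Ψ : I × I → ℝ, Continuous Ψ → (∀ p, 0 ≤ Ψ p) →
      ∫⁻ s, ∫⁻ t, ENNReal.ofReal (Ψ (s, t)) ∂μ ∂μ =
        ENNReal.ofReal (∫ s, ∫ t, Ψ (s, t) ∂μ ∂μ) := by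
    intro Ψ hΨ hΨ0
    have hi : Integrable Ψ (μ.prod μ) :=
      (BoundedContinuousFunction.mkOfCompact ⟨_, hΨ⟩).integrable _
    rw [← integral_prod _ hi, ofReal_integral_eq_lintegral_ofReal hi (Eventually.of_forall hΨ0),
      lintegral_prod _ hΨ.measurable.ennreal_ofReal.aemeasurable]
  have hs1 := hsingle (fun t => (t : ℝ) * φ t) (by fun_prop)
    (fun t => mul_nonneg t.2.1 (hφ0 _))
  have hd1 := hdouble (fun p => Gh H (p.1 : ℝ) (p.2 : ℝ) * φ (p.1 : ℝ))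
    ((continuous_Gh hH).mul (by fun_prop))
    (fun p => mul_nonneg (Gh_nonneg hH p.1.2.1 p.2.2.1) (hφ0 _))
  have hd2 := hdouble (fun p => χ (op (p.1 : ℝ) (p.2 : ℝ)) * Gh H (p.1 : ℝ) (p.2 : ℝ) *
      φ (op (p.1 : ℝ) (p.2 : ℝ)))
      (((hχc.comp continuous_op).mul (continuous_Gh hH)).mul (hφ.comp continuous_op))
    (fun p => mul_nonneg (mul_nonneg (hχ0 _) (Gh_nonneg hH p.1.2.1 p.2.2.1)) (hφ0 _))
  have hν1 : ∫⁻ x, ENNReal.ofReal (φ (1 / x)) ∂ν = ENNReal.ofReal (∫ x, φ (1 / x) ∂ν) := by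
    obtain ⟨C, hC⟩ := (isCompact_Icc (a := (0 : ℝ)) (b := 1)).exists_bound_of_continuousOn
      hφ.continuousOn
    have hi : Integrable (fun x => φ (1 / x)) ν := by
      refine Integrable.of_bound (C := C) ?_ ?_
      · exact (hφ.measurable.comp (by fun_prop)).aestronglyMeasurable
      · filter_upwards [hνs] with x hx
        apply hC
        have hx0 : 0 < x := by linarith [hx.1]
        exact ⟨by positivity, by rw [div_le_one hx0]; exact hx.1⟩
    exact (ofReal_integral_eq_lintegral_ofReal hi (Eventually.of_forall fun x => hφ0 _)).symm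
  simp only at hs1 hd1 hd2
  have n1 : 0 ≤ ∫ t : I, (t : ℝ) * φ t ∂μ :=
    integral_nonneg fun t => mul_nonneg t.2.1 (hφ0 _)
  have n2 : 0 ≤ ∫ s : I, ∫ t : I, Gh H s t * φ s ∂μ ∂μ :=
    integral_nonneg fun s => integral_nonneg fun t =>
      mul_nonneg (Gh_nonneg hH s.2.1 t.2.1) (hφ0 _)
  have n3 : 0 ≤ ∫ x, φ (1 / x) ∂ν := integral_nonneg fun x => hφ0 _
  have n4 : 0 ≤ ∫ s : I, ∫ t : I, χ (op s t) * Gh H s t * φ (op s t) ∂μ ∂μ :=
    integral_nonneg fun s => integral_nonneg fun t =>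
      mul_nonneg (mul_nonneg (hχ0 _) (Gh_nonneg hH s.2.1 t.2.1)) (hφ0 _)
  rw [hs1, hd1, hd2, hν1, ← ENNReal.ofReal_mul hM.le, ← ENNReal.ofReal_ofNat 2,
    ← ENNReal.ofReal_mul zero_le_two, ← ENNReal.ofReal_mul zero_le_two,
    ← ENNReal.ofReal_mul zero_le_two, ← ENNReal.ofReal_add (by positivity) (by positivity),
    ← ENNReal.ofReal_add (by positivity) (by positivity)]
  congr 1
  linarith

/-- The identity for the measure on the half-line. -/
theorem toR_identity (hH : Prof H) {M : ℝ} (hM : 0 < M) (μ : Measure I) [IsFiniteMeasure μ]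
    {ν : Measure ℝ} [IsFiniteMeasure ν] {L : ℝ} (hνs : ∀ᵐ x ∂ν, 1 ≤ x ∧ x ≤ L)
    {χ : ℝ → ℝ} (hχc : Continuous χ) (hχ0 : ∀ t, 0 ≤ χ t)
    (hid : ∀ φ : ℝ → ℝ, Continuous φ → (∃ a > 0, ∀ t ≤ a, φ t = 0) →
      M * ∫ t : I, (t : ℝ) * φ t ∂μ + ∫ s : I, ∫ t : I, Gh H s t * φ s ∂μ ∂μ =
        ∫ x, φ (1 / x) ∂ν +
          (1 / 2) * ∫ s : I, ∫ t : I, χ (op s t) * Gh H s t * φ (op s t) ∂μ ∂μ)
    {ϕ : ℝ → ℝ} (hϕ : Continuous ϕ) (hϕ0 : ∀ x, 0 ≤ ϕ x) {R : ℝ} (hR : ∀ x, R ≤ x → ϕ x = 0) :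
    ∫⁻ x, ∫⁻ y, ENNReal.ofReal (χ (1 / (x + y)) * G H x y) * ENNReal.ofReal (ϕ (x + y))
        ∂(toR μ) ∂(toR μ) + 2 * ∫⁻ x, ENNReal.ofReal (ϕ x) ∂ν =
      2 * ∫⁻ x, ∫⁻ y, ENNReal.ofReal (G H x y) * ENNReal.ofReal (ϕ x) ∂(toR μ) ∂(toR μ) +
        2 * (ENNReal.ofReal M + μ {0}) *
          ∫⁻ x, ENNReal.ofReal (1 / x) * ENNReal.ofReal (ϕ x) ∂(toR μ) := by
  set δ : ℝ := 1 / (max R 0 + 1) with hδ
  have hR0 : 0 ≤ max R 0 := le_max_right _ _
  have hδ0 : 0 < δ := by positivity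
  have hδ1 : 1 / δ = max R 0 + 1 := by rw [hδ, one_div_one_div]
  have hϕδ : ϕ (1 / δ) = 0 := by
    apply hR
    rw [hδ1]
    linarith [le_max_left R 0]
  let φ : ℝ → ℝ := fun t => ϕ (1 / max t δ)
  have hφc : Continuous φ := by
    apply hϕ.comp
    apply Continuous.div continuous_const (by fun_prop)
    intro t
    exact (lt_max_of_lt_right hδ0).ne'
  have hφ0 : ∀ t, t ≤ δ → φ t = 0 := by
    intro t ht
    simp only [φ]
    rw [max_eq_right ht, hϕδ]
  have hφ1 : ∀ t, 0 < t → φ t = ϕ (1 / t) := by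
    intro t ht
    rcases le_total t δ with h | h
    · rw [hφ0 t h]
      symm
      apply hR
      have : 1 / δ ≤ 1 / t := one_div_le_one_div_of_le ht h
      rw [hδ1] at this
      linarith [le_max_left R 0]
    · simp only [φ]
      rw [max_eq_left h]
  have key := lint_identity hH hM μ hνs hχc hχ0 hφc (fun t => hϕ0 _)
    (hid φ hφc ⟨δ, hδ0, hφ0⟩)
  -- the source
  have t3 : ∫⁻ x, ENNReal.ofReal (φ (1 / x)) ∂ν = ∫⁻ x, ENNReal.ofReal (ϕ x) ∂ν := by
    apply lintegral_congr_ae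
    filter_upwards [hνs] with x hx
    have hx0 : 0 < x := by linarith [hx.1]
    rw [hφ1 _ (by positivity), one_div_one_div]
  -- the sink
  have t1 : ∫⁻ t : I, ENNReal.ofReal ((t : ℝ) * φ t) ∂μ =
      ∫⁻ x, ENNReal.ofReal (1 / x) * ENNReal.ofReal (ϕ x) ∂(toR μ) := by
    rw [lintegral_toR μ (by have := hϕ.measurable; fun_prop), lintegral_split μ]
    have : ENNReal.ofReal (((0 : I) : ℝ) * φ ((0 : I) : ℝ)) * μ {0} = 0 := by
      simp
    rw [this, add_zero]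
    apply setLIntegral_congr_fun measurableSet_posI
    intro t ht
    have ht' : 0 < (t : ℝ) := ht
    beta_reduce
    rw [one_div_one_div, ENNReal.ofReal_mul ht'.le, hφ1 _ ht']
  -- the loss
  have t2 : ∫⁻ s : I, ∫⁻ t : I, ENNReal.ofReal (Gh H s t * φ s) ∂μ ∂μ =
      ∫⁻ x, ∫⁻ y, ENNReal.ofReal (G H x y) * ENNReal.ofReal (ϕ x) ∂(toR μ) ∂(toR μ) +
        μ {0} * ∫⁻ x, ENNReal.ofReal (1 / x) * ENNReal.ofReal (ϕ x) ∂(toR μ) := by
    have hm := (measurable_G hH).ennreal_ofReal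
    have hϕm := hϕ.measurable
    rw [lintegral_toR₂ μ (k := fun x y => ENNReal.ofReal (G H x y) * ENNReal.ofReal (ϕ x))
      (hm.mul (by fun_prop)), lintegral_toR μ (by fun_prop), lintegral_split μ]
    have h0 : (∫⁻ t : I, ENNReal.ofReal (Gh H ((0 : I) : ℝ) t * φ ((0 : I) : ℝ)) ∂μ) * μ {0} =
        0 := by
      have : φ ((0 : I) : ℝ) = 0 := hφ0 _ (by simpa using hδ0.le)
      simp only [this, mul_zero, ENNReal.ofReal_zero, lintegral_zero, zero_mul]
    rw [h0, add_zero, ← lintegral_const_mul' _ _ (measure_ne_top μ _), ← lintegral_add_right]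
    · apply setLIntegral_congr_fun measurableSet_posI
      intro s hs
      have hs' : 0 < (s : ℝ) := hs
      beta_reduce
      rw [lintegral_split μ]
      congr 1
      · apply setLIntegral_congr_fun measurableSet_posI
        intro t ht
        have ht' : 0 < (t : ℝ) := ht
        beta_reduce
        rw [ENNReal.ofReal_mul (Gh_nonneg hH hs'.le ht'.le), hφ1 _ hs', Gh_eq hs' ht']
      · have : Gh H (s : ℝ) ((0 : I) : ℝ) = s := by
          unfold Gh
          simp [hH.zero]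
        rw [this, one_div_one_div, ENNReal.ofReal_mul hs'.le, hφ1 _ hs', mul_comm]
    · have := hϕm.comp (by fun_prop : Measurable fun a : I => 1 / (a : ℝ))
      fun_prop
  -- the gain
  have t4 : ∫⁻ s : I, ∫⁻ t : I, ENNReal.ofReal (χ (op s t) * Gh H s t * φ (op s t)) ∂μ ∂μ =
      ∫⁻ x, ∫⁻ y, ENNReal.ofReal (χ (1 / (x + y)) * G H x y) * ENNReal.ofReal (ϕ (x + y))
        ∂(toR μ) ∂(toR μ) := by
    have hϕm := hϕ.measurable
    have hχm := hχc.measurable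
    have hk : Measurable (Function.uncurry fun x y : ℝ =>
        ENNReal.ofReal (χ (1 / (x + y)) * G H x y) * ENNReal.ofReal (ϕ (x + y))) := by
      have h1 := measurable_G hH
      have h2 : Measurable fun p : ℝ × ℝ => χ (1 / (p.1 + p.2)) := by fun_prop
      have h3 : Measurable fun p : ℝ × ℝ => ϕ (p.1 + p.2) := by fun_prop
      exact (h2.mul h1).ennreal_ofReal.mul h3.ennreal_ofReal
    rw [lintegral_toR₂ μ hk, lintegral_split μ]
    have h0 : (∫⁻ t : I, ENNReal.ofReal (χ (op ((0 : I) : ℝ) t) * Gh H ((0 : I) : ℝ) t *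
        φ (op ((0 : I) : ℝ) t)) ∂μ) * μ {0} = 0 := by
      have : ∀ t : I, φ (op ((0 : I) : ℝ) t) = 0 := by
        intro t
        apply hφ0
        unfold op
        simpa using hδ0.le
      simp only [this, mul_zero, ENNReal.ofReal_zero, lintegral_zero, zero_mul]
    rw [h0, add_zero]
    apply setLIntegral_congr_fun measurableSet_posI
    intro s hs
    have hs' : 0 < (s : ℝ) := hs
    beta_reduce
    rw [lintegral_split μ]
    have h1 : φ (op (s : ℝ) ((0 : I) : ℝ)) = 0 := by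
      apply hφ0
      unfold op
      simpa using hδ0.le
    rw [h1, mul_zero, ENNReal.ofReal_zero, zero_mul, add_zero]
    apply setLIntegral_congr_fun measurableSet_posI
    intro t ht
    have ht' : 0 < (t : ℝ) := ht
    beta_reduce
    have hop : 0 < op (s : ℝ) t := by unfold op; positivity
    have hop2 : 1 / op (s : ℝ) t = 1 / (s : ℝ) + 1 / (t : ℝ) := by
      unfold op
      field_simp
      ring
    have hop3 : op (s : ℝ) t = 1 / (1 / (s : ℝ) + 1 / (t : ℝ)) := by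
      rw [← hop2, one_div_one_div]
    rw [ENNReal.ofReal_mul (mul_nonneg (hχ0 _) (Gh_nonneg hH hs'.le ht'.le)), hφ1 _ hop, hop2,
      Gh_eq hs' ht', ← hop3]
  rw [t1, t2, t3, t4] at key
  rw [add_comm, ← key]
  ring

end Pool.Agent.Lib.MP_e589f0_an
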