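import Pool.Agent.Lib.MP_e589f0_an.Disc
import Pool.Agent.Lib.MP_e589f0_an.ToReal
import Pool.Agent.Lib.MP_e589f0_an.Support

/-!
# Solutions of the truncated and of the full equation on the unit interval
-/

namespace Pool.Agent.Lib.MP_e589f0_an

open MeasureTheory Set Filter
open scoped Topology ENNReal NNReal unitInterval

variable {H : ℝ → ℝ}

/-- Convergence of the source term. -/
theorem tendsto_source {ν : Measure ℝ} [IsFiniteMeasure ν] {L : ℝ}
    (hνs : ∀ᵐ x ∂ν, 1 ≤ x ∧ x ≤ L) {φ : ℝ → ℝ} (hφ : Continuous φ) :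
    Tendsto (fun n : ℕ => ∫ x, φ (((n + 1 : ℕ) : ℝ) / ⌊((n + 1 : ℕ) : ℝ) * x⌋₊) ∂ν) atTop
      (𝓝 (∫ x, φ (1 / x) ∂ν)) := by
  obtain ⟨C, hC⟩ := (isCompact_Icc (a := (0 : ℝ)) (b := 1)).exists_bound_of_continuousOn
    hφ.continuousOn
  have hfl : ∀ n : ℕ, ∀ x : ℝ, 1 ≤ x → ((n + 1 : ℕ) : ℝ) ≤ ⌊((n + 1 : ℕ) : ℝ) * x⌋₊ := by
    intro n x hx
    have h0 : (0 : ℝ) < ((n + 1 : ℕ) : ℝ) := by positivity
    have : n + 1 ≤ ⌊((n + 1 : ℕ) : ℝ) * x⌋₊ := Nat.le_floor (by nlinarith)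
    exact_mod_cast this
  apply tendsto_integral_of_dominated_convergence (fun _ => C)
  · intro n
    apply Measurable.aestronglyMeasurable
    apply hφ.measurable.comp
    have : Measurable fun x : ℝ => ((⌊((n + 1 : ℕ) : ℝ) * x⌋₊ : ℕ) : ℝ) :=
      (measurable_from_nat (f := fun n : ℕ => (n : ℝ))).comp
        (Nat.measurable_floor.comp (measurable_const_mul _))
    exact this.const_div _
  · exact integrable_const _
  · intro n
    filter_upwards [hνs] with x hx
    apply hC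
    have h1 := hfl n x hx.1
    have h0 : (0 : ℝ) < ((n + 1 : ℕ) : ℝ) := by positivity
    constructor
    · positivity
    · rw [div_le_one (h0.trans_le h1)]
      exact h1
  · filter_upwards [hνs] with x hx
    have hx0 : 0 < x := by linarith [hx.1]
    apply (hφ.tendsto (1 / x)).comp
    have h1 : Tendsto (fun n : ℕ => ((⌊x * ((n + 1 : ℕ) : ℝ)⌋₊ : ℕ) : ℝ) / ((n + 1 : ℕ) : ℝ)) atTop
        (𝓝 x) := by
      have h2 := tendsto_nat_floor_mul_div_atTop hx0.le
      exact h2.comp ((tendsto_natCast_atTop_atTop (R := ℝ)).comp (tendsto_add_atTop_nat 1))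
    have h3 := h1.inv₀ hx0.ne'
    simp only [inv_div] at h3
    rw [one_div]
    refine h3.congr fun n => ?_
    rw [mul_comm x]

/-- Existence of a solution of the truncated equation. -/
theorem exists_truncated (hH : Prof H) {M : ℝ} (hM : 0 < M) {ν : Measure ℝ} [IsFiniteMeasure ν]
    (hν : ∫⁻ x, ENNReal.ofReal x ∂ν = 1) {L : ℝ} (hL : 1 ≤ L) (hνs : ∀ᵐ x ∂ν, 1 ≤ x ∧ x ≤ L)
    {χ : ℝ → ℝ} (hχc : Continuous χ) (hχ0 : ∀ t, 0 ≤ χ t) (hχ1 : ∀ t, χ t ≤ 1) {τ : ℝ}
    (hτ : 0 < τ) (hχτ : ∀ t, t ≤ τ → χ t = 0) :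
    ∃ μ : Measure I, μ univ ≤ ENNReal.ofReal (1 / M) ∧
      (∃ τ' : ℝ, 0 < τ' ∧ μ {t : I | (t : ℝ) < τ'} = 0) ∧
      ∀ φ : ℝ → ℝ, Continuous φ →
        M * ∫ t : I, (t : ℝ) * φ t ∂μ + ∫ s : I, ∫ t : I, Gh H s t * φ s ∂μ ∂μ =
        ∫ x, φ (1 / x) ∂ν +
          (1 / 2) * ∫ s : I, ∫ t : I, χ (op s t) * Gh H s t * φ (op s t) ∂μ ∂μ := by
  have hex : ∀ n : ℕ, _ := fun n => exists_disc_measure hH hM hν hL hνs hχ0 hχ1 hτ hχτ
    (N := n + 1) (by omega)
  choose μ hμ1 hμ2 hμ3 using hex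
  obtain ⟨U, g, hU, hg1, hg2, hg3⟩ := exists_limit (Real.toNNReal (1 / M)) μ hμ1
  have hτ' : (0 : ℝ) < 1 / (4 + 1 / τ + L) := by positivity
  refine ⟨g, hg1, ⟨_, hτ', ?_⟩, fun φ hφ => ?_⟩
  · -- the support
    set τ' : ℝ := 1 / (4 + 1 / τ + L)
    have hψ : Continuous fun t : I => max (τ' - (t : ℝ)) 0 := by fun_prop
    have h1 := hg3 _ hψ
    have h2 : ∀ n, ∫ t : I, max (τ' - (t : ℝ)) 0 ∂(μ n) = 0 := by
      intro n
      apply integral_eq_zero_of_ae
      have : ∀ᵐ t : I ∂(μ n), ¬ ((t : ℝ) < τ') := by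
        rw [ae_iff]; simpa using hμ2 n
      filter_upwards [this] with t ht
      simp only [Pi.zero_apply]
      rw [not_lt] at ht
      exact max_eq_right (by linarith)
    simp_rw [h2] at h1
    have h3 := tendsto_nhds_unique tendsto_const_nhds h1
    have hfin : IsFiniteMeasure g := ⟨hg1.trans_lt ENNReal.coe_lt_top⟩
    have h4 := (integral_eq_zero_iff_of_nonneg (fun t => le_max_right _ _)
      ((BoundedContinuousFunction.mkOfCompact ⟨_, hψ⟩).integrable g)).1 h3.symm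
    have h5 : ∀ᵐ t : I ∂g, ¬ ((t : ℝ) < τ') := by
      filter_upwards [h4] with t ht
      intro hlt
      have h6 : max (τ' - (t : ℝ)) 0 = 0 := ht
      have h7 : 0 < max (τ' - (t : ℝ)) 0 := lt_max_of_lt_left (by linarith)
      linarith
    rw [ae_iff] at h5
    simpa using h5
  · have l1 := hg3 (fun t => (t : ℝ) * φ t) (by fun_prop)
    have l2 := hg2 (fun p => Gh H (p.1 : ℝ) (p.2 : ℝ) * φ (p.1 : ℝ))
      ((continuous_Gh hH).mul (by fun_prop))
    have l3 := (tendsto_source hνs hφ).mono_left hU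
    have l4 := hg2 (fun p => χ (op (p.1 : ℝ) (p.2 : ℝ)) * Gh H (p.1 : ℝ) (p.2 : ℝ) *
      φ (op (p.1 : ℝ) (p.2 : ℝ)))
      (((hχc.comp continuous_op).mul (continuous_Gh hH)).mul (hφ.comp continuous_op))
    have lhs := (l1.const_mul M).add l2
    have rhs := l3.add (l4.const_mul (1 / 2))
    refine tendsto_nhds_unique lhs (rhs.congr fun n => ?_)
    exact (hμ3 n φ).symm

/-- The cutoff function which vanishes on `t ≤ 1 / (n + 1)` and is `1` on `t ≥ 2 / (n + 1)`. -/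
noncomputable def cut (n : ℕ) (t : ℝ) : ℝ := max 0 (min 1 ((n + 1) * t - 1))

theorem cut_nonneg (n : ℕ) (t : ℝ) : 0 ≤ cut n t := le_max_left _ _

theorem cut_le_one (n : ℕ) (t : ℝ) : cut n t ≤ 1 := max_le zero_le_one (min_le_left _ _)

theorem continuous_cut (n : ℕ) : Continuous (cut n) := by unfold cut; fun_prop

theorem cut_eq_zero {n : ℕ} {t : ℝ} (h : t ≤ 1 / (n + 1)) : cut n t = 0 := by
  unfold cut
  apply max_eq_left
  apply (min_le_right _ _).trans
  have h0 : (0 : ℝ) < n + 1 := by positivity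
  rw [le_div_iff₀ h0] at h
  linarith

theorem cut_eq_one {n : ℕ} {t : ℝ} (h : 2 / (n + 1) ≤ t) : cut n t = 1 := by
  unfold cut
  have h0 : (0 : ℝ) < n + 1 := by positivity
  rw [div_le_iff₀ h0] at h
  rw [min_eq_left (by linarith), max_eq_right zero_le_one]

/-- Existence of a solution of the full equation, possibly with an atom at `t = 0`. -/
theorem exists_full (hH : Prof H) {M : ℝ} (hM : 0 < M) {ν : Measure ℝ} [IsFiniteMeasure ν]
    (hν : ∫⁻ x, ENNReal.ofReal x ∂ν = 1) {L : ℝ} (hL : 1 ≤ L) (hνs : ∀ᵐ x ∂ν, 1 ≤ x ∧ x ≤ L) :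
    ∃ μ : Measure I, μ univ ≤ ENNReal.ofReal (1 / M) ∧
      ∀ φ : ℝ → ℝ, Continuous φ → (∃ a > 0, ∀ t ≤ a, φ t = 0) →
        M * ∫ t : I, (t : ℝ) * φ t ∂μ + ∫ s : I, ∫ t : I, Gh H s t * φ s ∂μ ∂μ =
        ∫ x, φ (1 / x) ∂ν +
          (1 / 2) * ∫ s : I, ∫ t : I, Gh H s t * φ (op s t) ∂μ ∂μ := by
  have hex : ∀ n : ℕ, _ := fun n => exists_disc_measure hH hM hν hL hνs (cut_nonneg n)
    (cut_le_one n) (τ := 1 / ((n : ℝ) + 1)) (by positivity) (fun t ht => cut_eq_zero ht)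
    (N := n + 1) (by omega)
  choose μ hμ1 hμ2 hμ3 using hex
  obtain ⟨U, g, hU, hg1, hg2, hg3⟩ := exists_limit (Real.toNNReal (1 / M)) μ hμ1
  refine ⟨g, hg1, fun φ hφ hφa => ?_⟩
  obtain ⟨a, ha, hφ0⟩ := hφa
  have l1 := hg3 (fun t => (t : ℝ) * φ t) (by fun_prop)
  have l2 := hg2 (fun p => Gh H (p.1 : ℝ) (p.2 : ℝ) * φ (p.1 : ℝ))
    ((continuous_Gh hH).mul (by fun_prop))
  have l3 := (tendsto_source hνs hφ).mono_left hU
  have l4 := hg2 (fun p => Gh H (p.1 : ℝ) (p.2 : ℝ) * φ (op (p.1 : ℝ) (p.2 : ℝ)))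
    ((continuous_Gh hH).mul (hφ.comp continuous_op))
  have lhs := (l1.const_mul M).add l2
  have rhs := l3.add (l4.const_mul (1 / 2))
  refine tendsto_nhds_unique lhs (rhs.congr' ?_)
  apply hU
  obtain ⟨n₀, hn₀⟩ := exists_nat_ge (2 / a)
  filter_upwards [eventually_ge_atTop n₀] with n hn
  rw [hμ3 n φ]
  congr 2
  have key : ∀ s t : ℝ, Gh H s t * φ (op s t) = cut n (op s t) * Gh H s t * φ (op s t) := by
    intro s t
    by_cases h : op s t ≤ a
    · rw [hφ0 _ h, mul_zero, mul_zero]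
    · rw [not_le] at h
      rw [cut_eq_one, one_mul]
      refine le_trans ?_ h.le
      rw [div_le_iff₀ (by positivity)]
      rw [div_le_iff₀ ha] at hn₀
      have h5 : (n₀ : ℝ) ≤ n := by exact_mod_cast hn
      nlinarith
  simp_rw [key]

end Pool.Agent.Lib.MP_e589f0_an

/-!
# Existence of solutions of the reduced equation
-/

namespace Pool.Agent.Lib.MP_e589f0_an

open MeasureTheory Set Filter
open scoped Topology ENNReal NNReal unitInterval

variable {H : ℝ → ℝ}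

theorem toR_Iio_one (μ : Measure I) : toR μ (Iio 1) = 0 := by
  unfold toR
  rw [Measure.map_apply (by fun_prop) measurableSet_Iio, Measure.restrict_apply
    ((by fun_prop : Measurable fun t : I => 1 / (t : ℝ)) measurableSet_Iio)]
  convert measure_empty (μ := μ)
  ext t
  simp only [mem_inter_iff, mem_preimage, mem_Iio, mem_empty_iff_false, iff_false, not_and]
  intro h h2
  have h3 : 0 < (t : ℝ) := h2
  rw [div_lt_one h3] at h
  exact absurd t.2.2 (not_le.2 h)

theorem toR_lt_top (μ : Measure I) [IsFiniteMeasure μ] : toR μ univ < ⊤ := by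
  refine lt_of_le_of_lt ?_ (measure_lt_top μ univ)
  rw [← toR_univ μ]
  exact le_self_add

theorem Test.exists_bound {ϕ : ℝ → ℝ} (h : Test ϕ) : ∃ R : ℝ, ∀ x, R ≤ x → ϕ x = 0 := by
  obtain ⟨R, hR⟩ := h.compact.isCompact.bddAbove
  refine ⟨R + 1, fun x hx => ?_⟩
  by_contra hne
  have := hR (subset_tsupport _ hne)
  linarith

/-- Existence for `M ≥ 1`. -/
theorem exists_core_of_one_le (hH : Prof H) {M : ℝ} (hM : 1 ≤ M) {ν : Measure ℝ}
    [IsFiniteMeasure ν] (hν : ∫⁻ x, ENNReal.ofReal x ∂ν = 1) {L : ℝ} (hL : 1 ≤ L)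
    (hνs : ∀ᵐ x ∂ν, 1 ≤ x ∧ x ≤ L) : ∃ g : Measure ℝ, Core H M ν g := by
  have hM0 : 0 < M := by linarith
  obtain ⟨μ, hμ1, hμ2⟩ := exists_full hH hM0 hν hL hνs
  have hfinμ : IsFiniteMeasure μ := ⟨hμ1.trans_lt ENNReal.ofReal_lt_top⟩
  have hν0 : ν (Iic 0) = 0 := by
    rw [measure_eq_zero_iff_ae_notMem]
    filter_upwards [hνs] with x hx
    rw [mem_Iic, not_le]; linarith [hx.1]
  have he : μ {0} ≠ ⊤ := measure_ne_top _ _
  set e : ℝ := (μ {0}).toReal with hedef
  have he0 : 0 ≤ e := ENNReal.toReal_nonneg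
  have hee : ENNReal.ofReal e = μ {0} := ENNReal.ofReal_toReal he
  have hcore : Core H (M + e) ν (toR μ) := by
    refine ⟨toR_lt_top μ, toR_Iic μ, toR_inv μ, fun φ hφ => ?_⟩
    have key := ext_identity hH (toR_lt_top μ) (toR_Iic μ) (toR_inv μ) hν0
      (c := fun _ => (1 : ℝ)) measurable_const (fun _ => le_rfl)
      (m := ENNReal.ofReal M + μ {0})
      (ENNReal.add_lt_top.2 ⟨ENNReal.ofReal_lt_top, measure_lt_top _ _⟩)
      (fun ϕ hϕ hϕ0 => by
        obtain ⟨R, hR⟩ := hϕ.exists_bound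
        exact toR_identity hH hM0 μ hνs (χ := fun _ => 1) continuous_const
          (fun _ => zero_le_one) (fun φ h1 h2 => by simpa only [one_mul] using hμ2 φ h1 h2)
          hϕ.smooth.continuous hϕ0 hR) hφ
    simp only [one_mul] at key
    rw [ENNReal.ofReal_add hM0.le he0, hee]
    exact key
  have hmass := hcore.mass hH hν
  have hg : toR μ univ ≠ ⊤ := (toR_lt_top μ).ne
  set a : ℝ := (toR μ univ).toReal with hadef
  have ha0 : 0 ≤ a := ENNReal.toReal_nonneg
  have haa : ENNReal.ofReal a = toR μ univ := ENNReal.ofReal_toReal hg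
  have h1 : (M + e) * a = 1 := by
    rw [← haa, ← ENNReal.ofReal_mul (by positivity), ENNReal.ofReal_eq_one] at hmass
    exact hmass
  have h2 : a + e ≤ 1 / M := by
    have h3 := hμ1
    rw [← toR_univ μ, ← haa, ← hee, ← ENNReal.ofReal_add ha0 he0,
      ENNReal.ofReal_le_ofReal_iff (by positivity)] at h3
    exact h3
  have h3 : M * (a + e) ≤ 1 := by
    rw [le_div_iff₀ hM0] at h2
    linarith
  have h4 : e = 0 := by
    by_contra hne
    have hepos : 0 < e := lt_of_le_of_ne he0 (Ne.symm hne)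
    have h5 : a + e ≤ 1 := by nlinarith
    nlinarith
  rw [h4, add_zero] at hcore
  exact ⟨_, hcore⟩

/-- Existence for every `M > 0` if there is a bounded system. -/
theorem exists_core_of_system (hH : Prof H) {M : ℝ} (hM : 0 < M) {ν : Measure ℝ}
    [IsFiniteMeasure ν] (hν : ∫⁻ x, ENNReal.ofReal x ∂ν = 1) {L : ℝ} (hL : 1 ≤ L)
    (hνs : ∀ᵐ x ∂ν, 1 ≤ x ∧ x ≤ L) (hsys : System H ν) : ∃ g : Measure ℝ, Core H M ν g := by
  obtain ⟨B, hB0, ⟨R, hBR⟩, hBm, hνB, hBsys⟩ := hsys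
  obtain ⟨n, hn⟩ := exists_nat_ge (2 * max R 1)
  have hR1 : 0 < max R 1 := lt_max_of_lt_right one_pos
  have hχτ : ∀ t : ℝ, t ≤ 1 / ((n : ℝ) + 1) → cut n t = 0 := fun t ht => cut_eq_zero ht
  obtain ⟨μ, hμ1, ⟨τ', hτ', hμτ⟩, hμ2⟩ := exists_truncated hH hM hν hL hνs (continuous_cut n)
    (cut_nonneg n) (cut_le_one n) (by positivity) hχτ
  have hfinμ : IsFiniteMeasure μ := ⟨hμ1.trans_lt ENNReal.ofReal_lt_top⟩
  have hν0 : ν (Iic 0) = 0 := by
    rw [measure_eq_zero_iff_ae_notMem]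
    filter_upwards [hνs] with x hx
    rw [mem_Iic, not_le]; linarith [hx.1]
  have he : μ {0} = 0 := by
    apply measure_mono_null _ hμτ
    intro t ht
    rw [mem_singleton_iff] at ht
    subst ht
    simpa using hτ'
  set g : Measure ℝ := toR μ with hg
  have key : ∀ φ : ℝ → ℝ≥0∞, Measurable φ → _ := fun φ hφ =>
    ext_identity hH (toR_lt_top μ) (toR_Iic μ) (toR_inv μ) hν0
      (c := fun z => cut n (1 / z)) ((continuous_cut n).measurable.comp (by fun_prop))
      (fun _ => cut_le_one _ _)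
      (m := ENNReal.ofReal M + μ {0})
      (ENNReal.add_lt_top.2 ⟨ENNReal.ofReal_lt_top, measure_lt_top _ _⟩)
      (fun ϕ hϕ hϕ0 => by
        obtain ⟨R, hR⟩ := hϕ.exists_bound
        exact toR_identity hH hM μ hνs (continuous_cut n)
          (cut_nonneg n) (fun φ h1 _ => hμ2 φ h1) hϕ.smooth.continuous hϕ0 hR) hφ
  simp only [he, add_zero, ← hg] at key
  have hpos : ∀ᵐ x ∂g, 0 < x := ae_pos_of (toR_Iic μ)
  have hone : ∀ᵐ x ∂g, 1 ≤ x := by
    filter_upwards [measure_eq_zero_iff_ae_notMem.1 (toR_Iio_one μ)] with x hx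
    simpa using hx
  have hstep : ∀ k : ℕ, g (Bᶜ ∩ Iio (k : ℝ)) = 0 := by
    intro k
    induction k with
    | zero =>
      apply measure_mono_null _ (toR_Iic μ)
      intro x hx
      have : x < ((0 : ℕ) : ℝ) := hx.2
      rw [Nat.cast_zero] at this
      exact this.le
    | succ k ih =>
      have hms : MeasurableSet (Bᶜ ∩ Iio ((k + 1 : ℕ) : ℝ)) := hBm.compl.inter measurableSet_Iio
      have hid := key ((Bᶜ ∩ Iio ((k + 1 : ℕ) : ℝ)).indicator 1) (measurable_one.indicator hms)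
      have hin : ∀ᵐ x ∂g, x < (k : ℝ) → x ∈ B := by
        filter_upwards [measure_eq_zero_iff_ae_notMem.1 ih] with x hx hk
        by_contra hxB
        exact hx ⟨hxB, hk⟩
      have l1 : ∫⁻ x, ∫⁻ y, ENNReal.ofReal (cut n (1 / (x + y)) * G H x y) *
          (Bᶜ ∩ Iio ((k + 1 : ℕ) : ℝ)).indicator 1 (x + y) ∂g ∂g = 0 := by
        rw [← lintegral_zero (μ := g)]
        apply lintegral_congr_ae
        filter_upwards [hone, hin] with x hx1 hxB
        rw [← lintegral_zero (μ := g)]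
        apply lintegral_congr_ae
        filter_upwards [hone, hin] with y hy1 hyB
        by_cases hxy : x + y ∈ Bᶜ ∩ Iio ((k + 1 : ℕ) : ℝ)
        · have h1 : x + y < k + 1 := by
            have := hxy.2
            rw [mem_Iio] at this
            push_cast at this
            exact this
          have h2 := hBsys x (hxB (by linarith)) y (hyB (by linarith)) hxy.1
          unfold G
          rw [h2, mul_zero, mul_zero, ENNReal.ofReal_zero, zero_mul]
        · rw [indicator_of_notMem hxy, mul_zero]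
      have l2 : ∫⁻ x, (Bᶜ ∩ Iio ((k + 1 : ℕ) : ℝ)).indicator 1 x ∂ν = 0 := by
        rw [lintegral_indicator_one hms]
        exact measure_mono_null inter_subset_left hνB
      rw [l1, l2, mul_zero, add_zero] at hid
      have l3 := (add_eq_zero.1 hid.symm).2
      have l4 : ∫⁻ x, ENNReal.ofReal (1 / x) * (Bᶜ ∩ Iio ((k + 1 : ℕ) : ℝ)).indicator 1 x ∂g
          = 0 := by
        rcases mul_eq_zero.1 l3 with h | h
        · exfalso
          have : (0 : ℝ≥0∞) < 2 * ENNReal.ofReal M := by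
            have := ENNReal.ofReal_pos.2 hM
            positivity
          exact this.ne' h
        · exact h
      rw [lintegral_eq_zero_iff (by fun_prop (disch := exact hms))] at l4
      rw [measure_eq_zero_iff_ae_notMem]
      · filter_upwards [l4, hpos] with x hx hx0 hmem
        rw [indicator_of_mem hmem] at hx
        simp only [Pi.one_apply, mul_one, Pi.zero_apply, ENNReal.ofReal_eq_zero] at hx
        have : 0 < 1 / x := by positivity
        linarith
  have hBg : ∀ᵐ x ∂g, x ∈ B := by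
    have h1 : ∀ᵐ x ∂g, ∀ k : ℕ, x ∉ Bᶜ ∩ Iio (k : ℝ) := by
      rw [ae_all_iff]
      intro k
      exact measure_eq_zero_iff_ae_notMem.1 (hstep k)
    filter_upwards [h1] with x hx
    by_contra hxB
    obtain ⟨k, hk⟩ := exists_nat_gt x
    exact hx k ⟨hxB, hk⟩
  refine ⟨g, toR_lt_top μ, toR_Iic μ, toR_inv μ, fun φ hφ => ?_⟩
  rw [← key φ hφ]
  congr 1
  apply lintegral_congr_ae
  filter_upwards [hBg, hpos] with x hxB hx0
  apply lintegral_congr_ae
  filter_upwards [hBg, hpos] with y hyB hy0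
  by_cases hxy : x + y ∈ B
  · have h1 : x + y ≤ max R 1 := (hBR hxy).trans (le_max_left _ _)
    rw [cut_eq_one, one_mul]
    rw [div_le_div_iff₀ (by positivity) (by positivity)]
    nlinarith
  · have h2 := hBsys x hxB y hyB hxy
    unfold G
    rw [h2, mul_zero, mul_zero]

end Pool.Agent.Lib.MP_e589f0_an
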