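import Pool.Agent.Lib.MP_e589f0_an.PreCore
import Pool.Agent.Lib.MP_e589f0_an.Conv

/-!
# Measure solutions
-/

namespace Pool.Agent.Lib.MP_e589f0_an

open MeasureTheory Set Filter
open scoped Topology ENNReal ContDiff

/-- Nonnegative Radon measure solutions of the coagulation equation with source `ν`. -/
structure MeasureSolution (γ : ℝ) (F : ℝ → ℝ) (ν : Measure ℝ) (M : ℝ) (f : Measure ℝ) :
    Prop where
  null : f (Iic 0) = 0
  loc : ∀ a b : ℝ, 0 < a → f (Icc a b) < ⊤
  gain_loc : ∀ a b : ℝ, 0 < a →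
    ∫⁻ x, ∫⁻ y, (Icc a b).indicator (fun _ => ENNReal.ofReal (kern γ F x y)) (x + y) ∂f ∂f < ⊤
  loss_loc : ∀ a b : ℝ, 0 < a →
    ∫⁻ x in Icc a b, ∫⁻ y, ENNReal.ofReal (kern γ F x y) ∂f ∂f < ⊤
  eqn : ∀ ϕ : ℝ → ℝ, ContDiff ℝ ∞ ϕ → HasCompactSupport ϕ → tsupport ϕ ⊆ Ioi 0 →
    (1 / 2) * (∫ x, ∫ y, kern γ F x y * ϕ (x + y) ∂f ∂f) -
      (∫ x, ∫ y, kern γ F x y * ϕ x ∂f ∂f) -
      M * (∫ x, x ^ (-((1 - γ) / 2)) * ϕ x ∂f) + ∫ x, ϕ x ∂ν = 0

variable {γ : ℝ} {F : ℝ → ℝ}

/-- Real double integrals as differences of Lebesgue integrals. -/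
theorem int2 {m : Measure ℝ} [SFinite m] {k : ℝ → ℝ → ℝ} {ψ : ℝ → ℝ → ℝ}
    (hk : AEMeasurable (Function.uncurry k) (m.prod m))
    (hk0 : ∀ᵐ x ∂m, ∀ᵐ y ∂m, 0 ≤ k x y) (hψ : Measurable (Function.uncurry ψ))
    (hfin : ∫⁻ x, ∫⁻ y, ENNReal.ofReal (k x y) * ENNReal.ofReal |ψ x y| ∂m ∂m < ⊤) :
    ∫ x, ∫ y, k x y * ψ x y ∂m ∂m =
      (∫⁻ x, ∫⁻ y, ENNReal.ofReal (k x y) * ENNReal.ofReal (ψ x y) ∂m ∂m).toReal -
      (∫⁻ x, ∫⁻ y, ENNReal.ofReal (k x y) * ENNReal.ofReal (-ψ x y) ∂m ∂m).toReal := by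
  have hprod : ∀ θ : ℝ → ℝ → ℝ, Measurable (Function.uncurry θ) →
      AEMeasurable (fun p : ℝ × ℝ => k p.1 p.2 * θ p.1 p.2) (m.prod m) :=
    fun θ hθ => hk.mul hθ.aemeasurable
  have hint : Integrable (fun p : ℝ × ℝ => k p.1 p.2 * ψ p.1 p.2) (m.prod m) := by
    refine ⟨(hprod ψ hψ).aestronglyMeasurable, ?_⟩
    unfold HasFiniteIntegral
    rw [lintegral_prod _ (hprod ψ hψ).enorm]
    refine lt_of_eq_of_lt ?_ hfin
    apply lintegral_congr_ae
    filter_upwards [hk0] with x hx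
    apply lintegral_congr_ae
    filter_upwards [hx] with y hy
    rw [enorm_mul, Real.enorm_eq_ofReal hy, Real.enorm_eq_ofReal_abs]
  have h1 : ∫ x, ∫ y, k x y * ψ x y ∂m ∂m = ∫ p, k p.1 p.2 * ψ p.1 p.2 ∂(m.prod m) :=
    (integral_prod _ hint).symm
  rw [h1, integral_eq_lintegral_pos_part_sub_lintegral_neg_part hint]
  have e : ∀ θ : ℝ → ℝ → ℝ, Measurable (Function.uncurry θ) →
      ∫⁻ p : ℝ × ℝ, ENNReal.ofReal (k p.1 p.2 * θ p.1 p.2) ∂(m.prod m) =
        ∫⁻ x, ∫⁻ y, ENNReal.ofReal (k x y) * ENNReal.ofReal (θ x y) ∂m ∂m := by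
    intro θ hθ
    rw [lintegral_prod _ (hprod θ hθ).ennreal_ofReal]
    apply lintegral_congr_ae
    filter_upwards [hk0] with x hx
    apply lintegral_congr_ae
    filter_upwards [hx] with y hy
    exact ENNReal.ofReal_mul hy
  rw [e ψ hψ]
  have e2 := e (fun x y => -ψ x y) hψ.neg
  simp only [mul_neg] at e2
  rw [e2]

theorem aemeasurable_kern (hF : IsProfile γ F) {m : Measure ℝ} [SFinite m]
    (hnull : m (Iic 0) = 0) : AEMeasurable (Function.uncurry (kern γ F)) (m.prod m) := by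
  refine ⟨fun p => p.1 ^ ((1 + γ) / 2) * p.2 ^ ((1 + γ) / 2) * G (redH γ F) p.1 p.2, ?_, ?_⟩
  · have := measurable_G (prof_redH hF)
    exact (((measurable_rpow_const _).comp measurable_fst).mul
      ((measurable_rpow_const _).comp measurable_snd)).mul this
  · have h1 : ∀ᵐ p ∂(m.prod m), 0 < p.1 :=
      (Measure.quasiMeasurePreserving_fst (μ := m) (ν := m)).ae (ae_pos_of hnull)
    have h2 : ∀ᵐ p ∂(m.prod m), 0 < p.2 :=
      (Measure.quasiMeasurePreserving_snd (μ := m) (ν := m)).ae (ae_pos_of hnull)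
    filter_upwards [h1, h2] with p hp1 hp2
    exact kern_eq hp1 hp2

theorem ae_kern_nonneg (hF : IsProfile γ F) {m : Measure ℝ} (hnull : m (Iic 0) = 0) :
    ∀ᵐ x ∂m, ∀ᵐ y ∂m, 0 ≤ kern γ F x y := by
  filter_upwards [ae_pos_of hnull] with x hx
  filter_upwards [ae_pos_of hnull] with y hy
  exact kern_nonneg hF hx hy

/-- Real single integrals as differences of Lebesgue integrals. -/
theorem int1 {m : Measure ℝ} {k ψ : ℝ → ℝ} (hk : Measurable k)
    (hk0 : ∀ᵐ x ∂m, 0 ≤ k x) (hψ : Measurable ψ)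
    (hfin : ∫⁻ x, ENNReal.ofReal (k x) * ENNReal.ofReal |ψ x| ∂m < ⊤) :
    ∫ x, k x * ψ x ∂m =
      (∫⁻ x, ENNReal.ofReal (k x) * ENNReal.ofReal (ψ x) ∂m).toReal -
      (∫⁻ x, ENNReal.ofReal (k x) * ENNReal.ofReal (-ψ x) ∂m).toReal := by
  have hint : Integrable (fun x => k x * ψ x) m := by
    refine ⟨(hk.mul hψ).aestronglyMeasurable, ?_⟩
    unfold HasFiniteIntegral
    refine lt_of_eq_of_lt ?_ hfin
    apply lintegral_congr_ae
    filter_upwards [hk0] with x hx
    rw [enorm_mul, Real.enorm_eq_ofReal hx, Real.enorm_eq_ofReal_abs]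
  rw [integral_eq_lintegral_pos_part_sub_lintegral_neg_part hint]
  congr 2
  · apply lintegral_congr_ae
    filter_upwards [hk0] with x hx
    exact ENNReal.ofReal_mul hx
  · apply lintegral_congr_ae
    filter_upwards [hk0] with x hx
    rw [← mul_neg, ENNReal.ofReal_mul hx]

/-- A test function is bounded and supported in a compact interval of `(0, ∞)`. -/
theorem Test.exists_Icc {ϕ : ℝ → ℝ} (h : Test ϕ) :
    ∃ a b C : ℝ, 0 < a ∧ 0 ≤ C ∧ (∀ x, |ϕ x| ≤ C) ∧ ∀ x, x ∉ Icc a b → ϕ x = 0 := by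
  obtain ⟨C, hC⟩ := h.smooth.continuous.bounded_above_of_compact_support h.compact
  have hcpt := h.compact.isCompact
  rcases (tsupport ϕ).eq_empty_or_nonempty with hemp | hne
  · refine ⟨1, 0, 0, one_pos, le_rfl, ?_, ?_⟩
    · intro x
      have : ϕ x = 0 := image_eq_zero_of_notMem_tsupport (by rw [hemp]; simp)
      rw [this, abs_zero]
    · intro x _
      exact image_eq_zero_of_notMem_tsupport (by rw [hemp]; simp)
  · obtain ⟨a, ha1, ha2⟩ := hcpt.exists_isLeast hne
    obtain ⟨b, hb1, hb2⟩ := hcpt.exists_isGreatest hne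
    refine ⟨a, b, C, h.pos ha1, (norm_nonneg _).trans (hC 0), hC, ?_⟩
    intro x hx
    by_contra hne2
    have hmem := subset_tsupport _ (Function.mem_support.2 hne2)
    exact hx ⟨ha2 hmem, hb2 hmem⟩

/-- Finiteness of the terms. -/
theorem gain_finite {m : Measure ℝ} {k : ℝ → ℝ → ℝ}
    (hg : ∀ a b : ℝ, 0 < a →
      ∫⁻ x, ∫⁻ y, (Icc a b).indicator (fun _ => ENNReal.ofReal (k x y)) (x + y) ∂m ∂m < ⊤)
    {ϕ : ℝ → ℝ} (hϕ : Test ϕ) :
    ∫⁻ x, ∫⁻ y, ENNReal.ofReal (k x y) * ENNReal.ofReal |ϕ (x + y)| ∂m ∂m < ⊤ := by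
  obtain ⟨a, b, C, ha, hC0, hC, h0⟩ := hϕ.exists_Icc
  have h1 : ∫⁻ x, ∫⁻ y, ENNReal.ofReal (k x y) * ENNReal.ofReal |ϕ (x + y)| ∂m ∂m ≤
      ∫⁻ x, ∫⁻ y, ENNReal.ofReal C *
        (Icc a b).indicator (fun _ => ENNReal.ofReal (k x y)) (x + y) ∂m ∂m := by
    apply lintegral_mono; intro x
    apply lintegral_mono; intro y
    beta_reduce
    by_cases hxy : x + y ∈ Icc a b
    · rw [indicator_of_mem hxy, mul_comm]
      exact mul_le_mul_left (ENNReal.ofReal_le_ofReal (hC _)) _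
    · rw [h0 _ hxy]
      simp
  refine h1.trans_lt ?_
  simp_rw [lintegral_const_mul' _ _ (ENNReal.ofReal_ne_top (r := C))]
  exact ENNReal.mul_lt_top ENNReal.ofReal_lt_top (hg a b ha)

theorem loss_finite {m : Measure ℝ} {k : ℝ → ℝ → ℝ}
    (hl : ∀ a b : ℝ, 0 < a → ∫⁻ x in Icc a b, ∫⁻ y, ENNReal.ofReal (k x y) ∂m ∂m < ⊤)
    {ϕ : ℝ → ℝ} (hϕ : Test ϕ) :
    ∫⁻ x, ∫⁻ y, ENNReal.ofReal (k x y) * ENNReal.ofReal |ϕ x| ∂m ∂m < ⊤ := by
  obtain ⟨a, b, C, ha, hC0, hC, h0⟩ := hϕ.exists_Icc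
  have h1 : ∫⁻ x, ∫⁻ y, ENNReal.ofReal (k x y) * ENNReal.ofReal |ϕ x| ∂m ∂m ≤
      ∫⁻ x, ENNReal.ofReal C *
        (Icc a b).indicator (fun x => ∫⁻ y, ENNReal.ofReal (k x y) ∂m) x ∂m := by
    apply lintegral_mono; intro x
    beta_reduce
    rw [lintegral_mul_const' _ _ ENNReal.ofReal_ne_top]
    by_cases hx : x ∈ Icc a b
    · rw [indicator_of_mem hx, mul_comm]
      exact mul_le_mul_left (ENNReal.ofReal_le_ofReal (hC _)) _
    · rw [h0 _ hx]
      simp
  refine h1.trans_lt ?_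
  rw [lintegral_const_mul' _ _ ENNReal.ofReal_ne_top, lintegral_indicator measurableSet_Icc]
  exact ENNReal.mul_lt_top ENNReal.ofReal_lt_top (hl a b ha)

theorem sink_finite {m : Measure ℝ} (hm : ∀ a b : ℝ, 0 < a → m (Icc a b) < ⊤) (e : ℝ)
    {ϕ : ℝ → ℝ} (hϕ : Test ϕ) :
    ∫⁻ x, ENNReal.ofReal (x ^ e) * ENNReal.ofReal |ϕ x| ∂m < ⊤ := by
  obtain ⟨a, b, C, ha, hC0, hC, h0⟩ := hϕ.exists_Icc
  have hcont : ContinuousOn (fun x : ℝ => x ^ e) (Icc a b) := by
    intro x hx
    exact (continuousAt_id.rpow_const (Or.inl (ha.trans_le hx.1).ne')).continuousWithinAt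
  obtain ⟨D, hD⟩ := isCompact_Icc.exists_bound_of_continuousOn hcont
  have h1 : ∫⁻ x, ENNReal.ofReal (x ^ e) * ENNReal.ofReal |ϕ x| ∂m ≤
      ∫⁻ x, (Icc a b).indicator (fun _ => ENNReal.ofReal D * ENNReal.ofReal C) x ∂m := by
    apply lintegral_mono; intro x
    beta_reduce
    by_cases hx : x ∈ Icc a b
    · rw [indicator_of_mem hx]
      exact mul_le_mul' (ENNReal.ofReal_le_ofReal ((le_abs_self _).trans (hD x hx)))
        (ENNReal.ofReal_le_ofReal (hC _))
    · rw [h0 _ hx]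
      simp
  refine h1.trans_lt ?_
  rw [lintegral_indicator_const measurableSet_Icc]
  exact ENNReal.mul_lt_top (ENNReal.mul_lt_top ENNReal.ofReal_lt_top ENNReal.ofReal_lt_top)
    (hm a b ha)

end Pool.Agent.Lib.MP_e589f0_an

/-!
# Measure solutions and the reduced equation
-/

namespace Pool.Agent.Lib.MP_e589f0_an

open MeasureTheory Set Filter
open scoped Topology ENNReal ContDiff

variable {γ : ℝ} {F : ℝ → ℝ}

theorem MeasureSolution.pre (hF : IsProfile γ F) {M : ℝ} (hM : 0 ≤ M) {ν m : Measure ℝ}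
    [IsFiniteMeasure ν] (h : MeasureSolution γ F ν M m) : Pre γ F M ν m := by
  have hsf : SigmaFinite m := sigmaFinite_of h.null h.loc
  refine ⟨h.null, h.loc, h.loss_loc, fun ϕ hϕ hϕ0 => ?_⟩
  have hϕm := hϕ.smooth.continuous.measurable
  have habs : ∀ x, |ϕ x| = ϕ x := fun x => abs_of_nonneg (hϕ0 x)
  have hneg : ∀ x, ENNReal.ofReal (-ϕ x) = 0 := fun x => ENNReal.ofReal_of_nonpos (by
    linarith [hϕ0 x])
  have g1 := gain_finite h.gain_loc hϕ
  have g2 := loss_finite h.loss_loc hϕ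
  have g3 := sink_finite h.loc (-((1 - γ) / 2)) hϕ
  have g4 : ∫⁻ x, ENNReal.ofReal 1 * ENNReal.ofReal |ϕ x| ∂ν < ⊤ := by
    obtain ⟨a, b, C, ha, hC0, hC, h0⟩ := hϕ.exists_Icc
    calc ∫⁻ x, ENNReal.ofReal 1 * ENNReal.ofReal |ϕ x| ∂ν ≤ ∫⁻ x, ENNReal.ofReal C ∂ν := by
          apply lintegral_mono; intro x
          beta_reduce
          rw [ENNReal.ofReal_one, one_mul]
          exact ENNReal.ofReal_le_ofReal (hC x)
      _ < ⊤ := by
          rw [lintegral_const]
          exact ENNReal.mul_lt_top ENNReal.ofReal_lt_top (measure_lt_top _ _)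
  have e1 := int2 (ψ := fun x y => ϕ (x + y)) (aemeasurable_kern hF h.null)
    (ae_kern_nonneg hF h.null) (by unfold Function.uncurry; fun_prop) g1
  have e2 := int2 (ψ := fun x _ => ϕ x) (aemeasurable_kern hF h.null)
    (ae_kern_nonneg hF h.null) (by unfold Function.uncurry; fun_prop) g2
  have e3 := int1 (k := fun x => x ^ (-((1 - γ) / 2))) (by fun_prop) (by
    filter_upwards [ae_pos_of h.null] with x hx
    positivity) hϕm g3
  have e4 := int1 (m := ν) (k := fun _ => 1) (by fun_prop) (by simp) hϕm g4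
  simp only [habs] at g1 g2 g3 g4
  simp only [hneg, mul_zero, lintegral_zero, ENNReal.toReal_zero, sub_zero, one_mul,
    ENNReal.ofReal_one] at e1 e2 e3 e4 g4
  have key := h.eqn ϕ hϕ.smooth hϕ.compact hϕ.pos
  rw [e1, e2, e3, e4] at key
  rw [← ENNReal.toReal_eq_toReal_iff' , ENNReal.toReal_add, ENNReal.toReal_add,
    ENNReal.toReal_mul, ENNReal.toReal_mul, ENNReal.toReal_mul, ENNReal.toReal_mul,
    ENNReal.toReal_ofReal hM]
  · simp only [ENNReal.toReal_ofNat]
    linarith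
  · exact ENNReal.mul_ne_top (by norm_num) g2.ne
  · exact ENNReal.mul_ne_top (ENNReal.mul_ne_top (by norm_num) ENNReal.ofReal_ne_top) g3.ne
  · exact g1.ne
  · exact ENNReal.mul_ne_top (by norm_num) g4.ne
  · exact ENNReal.add_ne_top.2 ⟨g1.ne, ENNReal.mul_ne_top (by norm_num) g4.ne⟩
  · exact ENNReal.add_ne_top.2 ⟨ENNReal.mul_ne_top (by norm_num) g2.ne,
      ENNReal.mul_ne_top (ENNReal.mul_ne_top (by norm_num) ENNReal.ofReal_ne_top) g3.ne⟩

/-- The inverse of the reduction. -/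
noncomputable def unred (γ : ℝ) (g : Measure ℝ) : Measure ℝ :=
  g.withDensity fun x => ENNReal.ofReal (x ^ (-((1 + γ) / 2)))

theorem red_unred {g : Measure ℝ} (hnull : g (Iic 0) = 0) : red γ (unred γ g) = g := by
  unfold red unred
  rw [← withDensity_mul _ (by fun_prop) (by fun_prop)]
  have : ((fun x => ENNReal.ofReal (x ^ (-((1 + γ) / 2)))) *
      fun x => ENNReal.ofReal (x ^ ((1 + γ) / 2))) =ᵐ[g] 1 := by
    filter_upwards [ae_pos_of hnull] with x hx
    rw [Pi.mul_apply, Pi.one_apply, ← ENNReal.ofReal_mul (by positivity), ← Real.rpow_add hx]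
    simp
  rw [withDensity_congr_ae this, withDensity_one]

theorem unred_Iic {g : Measure ℝ} (hnull : g (Iic 0) = 0) : unred γ g (Iic 0) = 0 :=
  withDensity_absolutelyContinuous g _ hnull

theorem unred_Icc {g : Measure ℝ} (hfin : g univ < ⊤) {a b : ℝ} (ha : 0 < a) :
    unred γ g (Icc a b) < ⊤ := by
  unfold unred
  rw [withDensity_apply _ measurableSet_Icc]
  have hcont : ContinuousOn (fun x : ℝ => x ^ (-((1 + γ) / 2))) (Icc a b) := by
    intro x hx
    exact (continuousAt_id.rpow_const (Or.inl (ha.trans_le hx.1).ne')).continuousWithinAt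
  obtain ⟨D, hD⟩ := isCompact_Icc.exists_bound_of_continuousOn hcont
  calc ∫⁻ x in Icc a b, ENNReal.ofReal (x ^ (-((1 + γ) / 2))) ∂g
      ≤ ∫⁻ x in Icc a b, ENNReal.ofReal D ∂g := by
        apply setLIntegral_mono' measurableSet_Icc
        intro x hx
        exact ENNReal.ofReal_le_ofReal ((le_abs_self _).trans (hD x hx))
    _ = ENNReal.ofReal D * g (Icc a b) := setLIntegral_const _ _
    _ < ⊤ := ENNReal.mul_lt_top ENNReal.ofReal_lt_top
        ((measure_mono (subset_univ _)).trans_lt hfin)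

/-- Solutions of the reduced equation yield measure solutions. -/
theorem Core.measureSolution (hF : IsProfile γ F) {M : ℝ} (hM : 0 ≤ M) {ν g : Measure ℝ}
    [IsFiniteMeasure ν] (h : Core (redH γ F) M ν g) : MeasureSolution γ F ν M (unred γ g) := by
  have hfinm := h.isFiniteMeasure
  have hH := prof_redH hF
  set m : Measure ℝ := unred γ g with hm
  have hsf : SFinite m := by rw [hm]; unfold unred; infer_instance
  have hnull : m (Iic 0) = 0 := unred_Iic h.pos
  have hred : red γ m = g := red_unred h.pos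
  have hloc : ∀ a b : ℝ, 0 < a → m (Icc a b) < ⊤ := fun a b ha => unred_Icc h.fin ha
  have htot := total_rate_lt_top hH h.fin h.pos h.inv
  have htot2 : ∫⁻ x, ∫⁻ y, ENNReal.ofReal (kern γ F x y) * 1 ∂m ∂m < ⊤ := by
    rw [← lintegral_red₂ hF hnull (Ψ := fun _ _ => 1) measurable_const, hred]
    simpa using htot
  simp only [mul_one] at htot2
  have hgain : ∀ a b : ℝ, 0 < a →
      ∫⁻ x, ∫⁻ y, (Icc a b).indicator (fun _ => ENNReal.ofReal (kern γ F x y)) (x + y) ∂m ∂m
        < ⊤ := by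
    intro a b _
    refine lt_of_le_of_lt ?_ htot2
    apply lintegral_mono; intro x
    apply lintegral_mono; intro y
    exact indicator_le_self _ _ _
  have hloss : ∀ a b : ℝ, 0 < a →
      ∫⁻ x in Icc a b, ∫⁻ y, ENNReal.ofReal (kern γ F x y) ∂m ∂m < ⊤ :=
    fun a b _ => (setLIntegral_le_lintegral _ _).trans_lt htot2
  refine ⟨hnull, hloc, hgain, hloss, fun ϕ h1 h2 h3 => ?_⟩
  have hϕ : Test ϕ := ⟨h1, h2, h3⟩
  have hϕm := hϕ.smooth.continuous.measurable
  have g1 := gain_finite hgain hϕ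
  have g2 := loss_finite hloss hϕ
  have g3 := sink_finite hloc (-((1 - γ) / 2)) hϕ
  have g4 : ∫⁻ x, ENNReal.ofReal 1 * ENNReal.ofReal |ϕ x| ∂ν < ⊤ := by
    obtain ⟨a, b, C, ha, hC0, hC, h0⟩ := hϕ.exists_Icc
    calc ∫⁻ x, ENNReal.ofReal 1 * ENNReal.ofReal |ϕ x| ∂ν ≤ ∫⁻ x, ENNReal.ofReal C ∂ν := by
          apply lintegral_mono; intro x
          beta_reduce
          rw [ENNReal.ofReal_one, one_mul]
          exact ENNReal.ofReal_le_ofReal (hC x)
      _ < ⊤ := by
          rw [lintegral_const]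
          exact ENNReal.mul_lt_top ENNReal.ofReal_lt_top (measure_lt_top _ _)
  have e1 := int2 (ψ := fun x y => ϕ (x + y)) (aemeasurable_kern hF hnull)
    (ae_kern_nonneg hF hnull) (by unfold Function.uncurry; fun_prop) g1
  have e2 := int2 (ψ := fun x _ => ϕ x) (aemeasurable_kern hF hnull)
    (ae_kern_nonneg hF hnull) (by unfold Function.uncurry; fun_prop) g2
  have e3 := int1 (k := fun x => x ^ (-((1 - γ) / 2))) (by fun_prop) (by
    filter_upwards [ae_pos_of hnull] with x hx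
    positivity) hϕm g3
  have e4 := int1 (m := ν) (k := fun _ => 1) (by fun_prop) (by simp) hϕm g4
  simp only [one_mul, ENNReal.ofReal_one] at e4 g4
  rw [e1, e2, e3, e4]
  -- the identity for a nonnegative measurable function
  have key : ∀ ψ : ℝ → ℝ, Measurable ψ → (∀ x, ENNReal.ofReal (ψ x) ≤ ENNReal.ofReal |ϕ x|) →
      (∫⁻ x, ∫⁻ y, ENNReal.ofReal (kern γ F x y) * ENNReal.ofReal (ψ (x + y)) ∂m ∂m).toReal +
        2 * (∫⁻ x, ENNReal.ofReal (ψ x) ∂ν).toReal =
      2 * (∫⁻ x, ∫⁻ y, ENNReal.ofReal (kern γ F x y) * ENNReal.ofReal (ψ x) ∂m ∂m).toReal +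
        2 * M * (∫⁻ x, ENNReal.ofReal (x ^ (-((1 - γ) / 2))) *
          ENNReal.ofReal (ψ x) ∂m).toReal := by
    intro ψ hψ hle
    have k := h.eqn (fun x => ENNReal.ofReal (ψ x)) hψ.ennreal_ofReal
    have r1 := lintegral_red₂ hF hnull (Ψ := fun x y => ENNReal.ofReal (ψ (x + y)))
      (by unfold Function.uncurry; fun_prop)
    have r2 := lintegral_red₂ hF hnull (Ψ := fun x y => ENNReal.ofReal (ψ x))
      (by unfold Function.uncurry; fun_prop)
    have r3 := lintegral_red_inv (γ := γ) hnull hψ.ennreal_ofReal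
    rw [hred] at r1 r2 r3
    rw [r1, r2, r3] at k
    have f1 : ∫⁻ x, ∫⁻ y, ENNReal.ofReal (kern γ F x y) * ENNReal.ofReal (ψ (x + y)) ∂m ∂m < ⊤ :=
      lt_of_le_of_lt (lintegral_mono fun x => lintegral_mono fun y =>
        mul_le_mul_right (hle _) _) g1
    have f2 : ∫⁻ x, ∫⁻ y, ENNReal.ofReal (kern γ F x y) * ENNReal.ofReal (ψ x) ∂m ∂m < ⊤ :=
      lt_of_le_of_lt (lintegral_mono fun x => lintegral_mono fun y =>
        mul_le_mul_right (hle _) _) g2
    have f3 : ∫⁻ x, ENNReal.ofReal (x ^ (-((1 - γ) / 2))) * ENNReal.ofReal (ψ x) ∂m < ⊤ :=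
      lt_of_le_of_lt (lintegral_mono fun x => mul_le_mul_right (hle _) _) g3
    have f4 : ∫⁻ x, ENNReal.ofReal (ψ x) ∂ν < ⊤ := lt_of_le_of_lt (lintegral_mono hle) g4
    have k2 := congrArg ENNReal.toReal k
    rw [ENNReal.toReal_add f1.ne (ENNReal.mul_ne_top (by norm_num) f4.ne),
      ENNReal.toReal_add (ENNReal.mul_ne_top (by norm_num) f2.ne)
        (ENNReal.mul_ne_top (ENNReal.mul_ne_top (by norm_num) ENNReal.ofReal_ne_top) f3.ne),
      ENNReal.toReal_mul, ENNReal.toReal_mul, ENNReal.toReal_mul, ENNReal.toReal_mul,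
      ENNReal.toReal_ofReal hM] at k2
    simpa only [ENNReal.toReal_ofNat] using k2
  have k1 := key ϕ hϕm (fun x => ENNReal.ofReal_le_ofReal (le_abs_self _))
  have k2 := key (fun x => -ϕ x) hϕm.neg (fun x => ENNReal.ofReal_le_ofReal (neg_le_abs _))
  linarith

end Pool.Agent.Lib.MP_e589f0_an

/-!
# Function solutions
-/

namespace Pool.Agent.Lib.MP_e589f0_an

open MeasureTheory Set Filter
open scoped Topology ENNReal ContDiff

/-- Nonnegative function solutions of the coagulation equation with source `η`. -/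
structure FunctionSolution (γ : ℝ) (F η : ℝ → ℝ) (M : ℝ) (f : ℝ → ℝ) : Prop where
  meas : Measurable f
  nonneg : ∀ x, 0 < x → 0 ≤ f x
  loc : ∀ a b : ℝ, 0 < a → ∫⁻ x in Icc a b, ENNReal.ofReal (f x) < ⊤
  gain_loc : ∀ a b : ℝ, 0 < a → ∫⁻ x in Icc a b, ∫⁻ y in Ioo 0 x,
    ENNReal.ofReal (kern γ F (x - y) y * f (x - y) * f y) < ⊤
  loss_loc : ∀ a b : ℝ, 0 < a → ∫⁻ x in Icc a b, ∫⁻ y in Ioi 0,
    ENNReal.ofReal (kern γ F x y * f x * f y) < ⊤
  eqn : ∀ᵐ x : ℝ, 0 < x →
    (1 / 2) * (∫ y in Ioo 0 x, kern γ F (x - y) y * f (x - y) * f y) -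
      (∫ y in Ioi 0, kern γ F x y * f x * f y) -
      M * (x ^ (-((1 - γ) / 2)) * f x) + η x = 0

/-- The measure on `(0, ∞)` with density `f`. -/
noncomputable def densMeasure (f : ℝ → ℝ) : Measure ℝ :=
  (volume.restrict (Ioi 0)).withDensity fun x => ENNReal.ofReal (f x)

/-- The density of the interaction. -/
noncomputable def dens (γ : ℝ) (F f : ℝ → ℝ) (u v : ℝ) : ℝ≥0∞ :=
  ENNReal.ofReal (u ^ ((1 + γ) / 2) * v ^ ((1 + γ) / 2) * G (redH γ F) u v) *
    (ENNReal.ofReal (f u) * ENNReal.ofReal (f v))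

variable {γ : ℝ} {F f : ℝ → ℝ}

theorem measurable_dens (hF : IsProfile γ F) (hf : Measurable f) :
    Measurable (Function.uncurry (dens γ F f)) := by
  have h1 := measurable_G (prof_redH hF)
  have h2 := ((measurable_rpow_const ((1 + γ) / 2)).comp measurable_fst).mul
      ((measurable_rpow_const ((1 + γ) / 2)).comp (measurable_snd (α := ℝ) (β := ℝ)))
  exact (h2.mul h1).ennreal_ofReal.mul
    ((hf.comp measurable_fst).ennreal_ofReal.mul (hf.comp measurable_snd).ennreal_ofReal)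

theorem ofReal_kern (hF : IsProfile γ F) (hf0 : ∀ x, 0 < x → 0 ≤ f x) {u v : ℝ} (hu : 0 < u)
    (hv : 0 < v) : ENNReal.ofReal (kern γ F u v * f u * f v) = dens γ F f u v := by
  unfold dens
  have h1 := kern_nonneg hF hu hv
  rw [mul_assoc, ENNReal.ofReal_mul h1, ENNReal.ofReal_mul (hf0 u hu), ← kern_eq hu hv]

/-- The total gain. -/
noncomputable def gL (γ : ℝ) (F f : ℝ → ℝ) (x : ℝ) : ℝ≥0∞ :=
  ∫⁻ y in Ioo 0 x, dens γ F f (x - y) y

/-- The total loss. -/
noncomputable def lL (γ : ℝ) (F f : ℝ → ℝ) (x : ℝ) : ℝ≥0∞ :=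
  ∫⁻ y in Ioi 0, dens γ F f x y

theorem measurable_gL (hF : IsProfile γ F) (hf : Measurable f) : Measurable (gL γ F f) :=
  measurable_conv (measurable_dens hF hf)

theorem measurable_lL (hF : IsProfile γ F) (hf : Measurable f) : Measurable (lL γ F f) :=
  (measurable_dens hF hf).lintegral_prod_right

theorem gain_eq_gL (hF : IsProfile γ F) (hf0 : ∀ x, 0 < x → 0 ≤ f x) (x : ℝ) :
    ∫⁻ y in Ioo 0 x, ENNReal.ofReal (kern γ F (x - y) y * f (x - y) * f y) = gL γ F f x := by
  apply setLIntegral_congr_fun measurableSet_Ioo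
  intro y hy
  exact ofReal_kern hF hf0 (sub_pos.2 hy.2) hy.1

theorem loss_eq_lL (hF : IsProfile γ F) (hf0 : ∀ x, 0 < x → 0 ≤ f x) {x : ℝ} (hx : 0 < x) :
    ∫⁻ y in Ioi 0, ENNReal.ofReal (kern γ F x y * f x * f y) = lL γ F f x := by
  apply setLIntegral_congr_fun measurableSet_Ioi
  intro y hy
  exact ofReal_kern hF hf0 hx hy

theorem real_gain (hF : IsProfile γ F) (hf : Measurable f) (hf0 : ∀ x, 0 < x → 0 ≤ f x)
    (x : ℝ) :
    ∫ y in Ioo 0 x, kern γ F (x - y) y * f (x - y) * f y = (gL γ F f x).toReal := by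
  rw [← gain_eq_gL hF hf0, integral_eq_lintegral_of_nonneg_ae]
  · filter_upwards [ae_restrict_mem measurableSet_Ioo] with y hy
    exact mul_nonneg (mul_nonneg (kern_nonneg hF (sub_pos.2 hy.2) hy.1)
      (hf0 _ (sub_pos.2 hy.2))) (hf0 _ hy.1)
  · have h1 := (measurable_G (prof_redH hF)).comp
      (by fun_prop : Measurable fun y : ℝ => (x - y, y))
    have h2 : Measurable fun y : ℝ => (x - y) ^ ((1 + γ) / 2) * y ^ ((1 + γ) / 2) *
        G (redH γ F) (x - y) y * f (x - y) * f y :=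
      (((by fun_prop : Measurable fun y : ℝ => (x - y) ^ ((1 + γ) / 2) *
        y ^ ((1 + γ) / 2)).mul h1).mul (by fun_prop)).mul hf
    refine AEStronglyMeasurable.congr h2.aestronglyMeasurable ?_
    filter_upwards [ae_restrict_mem measurableSet_Ioo] with y hy
    rw [kern_eq (sub_pos.2 hy.2) hy.1]

theorem real_loss (hF : IsProfile γ F) (hf : Measurable f) (hf0 : ∀ x, 0 < x → 0 ≤ f x)
    {x : ℝ} (hx : 0 < x) :
    ∫ y in Ioi 0, kern γ F x y * f x * f y = (lL γ F f x).toReal := by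
  rw [← loss_eq_lL hF hf0 hx, integral_eq_lintegral_of_nonneg_ae]
  · filter_upwards [ae_restrict_mem measurableSet_Ioi] with y hy
    exact mul_nonneg (mul_nonneg (kern_nonneg hF hx hy) (hf0 _ hx)) (hf0 _ hy)
  · have h1 : Measurable fun y => G (redH γ F) x y := measurable_G₂ (prof_redH hF)
    have h2 : Measurable fun y : ℝ => x ^ ((1 + γ) / 2) * y ^ ((1 + γ) / 2) *
        G (redH γ F) x y * f x * f y :=
      (((by fun_prop : Measurable fun y : ℝ => x ^ ((1 + γ) / 2) *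
        y ^ ((1 + γ) / 2)).mul h1).mul (by fun_prop)).mul hf
    refine AEStronglyMeasurable.congr h2.aestronglyMeasurable ?_
    filter_upwards [ae_restrict_mem measurableSet_Ioi] with y hy
    rw [kern_eq hx hy]

/-- The pointwise equation in terms of Lebesgue integrals. -/
theorem eqn_iff (hF : IsProfile γ F) (hf : Measurable f) (hf0 : ∀ x, 0 < x → 0 ≤ f x)
    {M : ℝ} (hM : 0 ≤ M) {η : ℝ → ℝ} {x : ℝ} (hx : 0 < x) (hη : 0 ≤ η x)
    (hg : gL γ F f x < ⊤) (hl : lL γ F f x < ⊤) :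
    ((1 / 2) * (∫ y in Ioo 0 x, kern γ F (x - y) y * f (x - y) * f y) -
      (∫ y in Ioi 0, kern γ F x y * f x * f y) -
      M * (x ^ (-((1 - γ) / 2)) * f x) + η x = 0) ↔
    gL γ F f x + 2 * ENNReal.ofReal (η x) = 2 * lL γ F f x +
      2 * ENNReal.ofReal M * (ENNReal.ofReal (x ^ (-((1 - γ) / 2))) * ENNReal.ofReal (f x)) := by
  rw [real_gain hF hf hf0, real_loss hF hf hf0 hx]
  have hp : 0 ≤ x ^ (-((1 - γ) / 2)) := by positivity
  have hf1 := hf0 x hx
  rw [← ENNReal.toReal_eq_toReal_iff' (ENNReal.add_ne_top.2 ⟨hg.ne,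
      ENNReal.mul_ne_top (by norm_num) ENNReal.ofReal_ne_top⟩)
    (ENNReal.add_ne_top.2 ⟨ENNReal.mul_ne_top (by norm_num) hl.ne,
      ENNReal.mul_ne_top (ENNReal.mul_ne_top (by norm_num) ENNReal.ofReal_ne_top)
        (ENNReal.mul_ne_top ENNReal.ofReal_ne_top ENNReal.ofReal_ne_top)⟩),
    ENNReal.toReal_add hg.ne (ENNReal.mul_ne_top (by norm_num) ENNReal.ofReal_ne_top),
    ENNReal.toReal_add (ENNReal.mul_ne_top (by norm_num) hl.ne)
      (ENNReal.mul_ne_top (ENNReal.mul_ne_top (by norm_num) ENNReal.ofReal_ne_top)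
        (ENNReal.mul_ne_top ENNReal.ofReal_ne_top ENNReal.ofReal_ne_top)),
    ENNReal.toReal_mul, ENNReal.toReal_mul, ENNReal.toReal_mul, ENNReal.toReal_mul,
    ENNReal.toReal_mul, ENNReal.toReal_ofReal hM, ENNReal.toReal_ofReal hp,
    ENNReal.toReal_ofReal hf1, ENNReal.toReal_ofReal hη, ENNReal.toReal_ofNat]
  constructor <;> intro h <;> linarith

theorem lintegral_densMeasure (hf : Measurable f) {Ψ : ℝ → ℝ≥0∞} (hΨ : Measurable Ψ) :
    ∫⁻ x, Ψ x ∂(densMeasure f) = ∫⁻ x in Ioi 0, ENNReal.ofReal (f x) * Ψ x := by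
  unfold densMeasure
  rw [lintegral_withDensity_eq_lintegral_mul _ hf.ennreal_ofReal hΨ]
  rfl

theorem densMeasure_Iic (f : ℝ → ℝ) : densMeasure f (Iic 0) = 0 := by
  apply withDensity_absolutelyContinuous
  rw [Measure.restrict_apply measurableSet_Iic]
  convert measure_empty (μ := (volume : Measure ℝ))
  ext x
  simp only [mem_inter_iff, mem_Iic, mem_Ioi, mem_empty_iff_false, iff_false, not_and, not_lt]
  exact fun h => h

theorem lintegral_densMeasure₂ (hF : IsProfile γ F) (hf : Measurable f)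
    {Ψ : ℝ → ℝ → ℝ≥0∞} (hΨ : Measurable (Function.uncurry Ψ)) :
    ∫⁻ x, ∫⁻ y, ENNReal.ofReal (kern γ F x y) * Ψ x y ∂(densMeasure f) ∂(densMeasure f) =
      ∫⁻ x in Ioi 0, ∫⁻ y in Ioi 0, dens γ F f x y * Ψ x y := by
  have hnull := densMeasure_Iic f
  have h1 := measurable_G (prof_redH hF)
  have h2 := ((measurable_rpow_const ((1 + γ) / 2)).comp measurable_fst).mul
      ((measurable_rpow_const ((1 + γ) / 2)).comp (measurable_snd (α := ℝ) (β := ℝ)))
  have h3 : Measurable (Function.uncurry fun x y => ENNReal.ofReal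
      (x ^ ((1 + γ) / 2) * y ^ ((1 + γ) / 2) * G (redH γ F) x y) * Ψ x y) :=
    (h2.mul h1).ennreal_ofReal.mul hΨ
  have e1 : ∫⁻ x, ∫⁻ y, ENNReal.ofReal (kern γ F x y) * Ψ x y ∂(densMeasure f) ∂(densMeasure f) =
      ∫⁻ x, ∫⁻ y, ENNReal.ofReal (x ^ ((1 + γ) / 2) * y ^ ((1 + γ) / 2) *
        G (redH γ F) x y) * Ψ x y ∂(densMeasure f) ∂(densMeasure f) := by
    apply lintegral_congr_ae
    filter_upwards [ae_pos_of hnull] with x hx
    apply lintegral_congr_ae
    filter_upwards [ae_pos_of hnull] with y hy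
    rw [kern_eq hx hy]
  have hsf : SFinite (densMeasure f) := by unfold densMeasure; infer_instance
  rw [e1, lintegral_densMeasure hf h3.lintegral_prod_right]
  apply lintegral_congr
  intro x
  rw [lintegral_densMeasure hf h3.of_uncurry_left, ← lintegral_const_mul' _ _
    ENNReal.ofReal_ne_top]
  apply lintegral_congr
  intro y
  unfold dens
  ring

theorem densMeasure_Icc
    (hloc : ∀ a b : ℝ, 0 < a → ∫⁻ x in Icc a b, ENNReal.ofReal (f x) < ⊤) (a b : ℝ)
    (ha : 0 < a) : densMeasure f (Icc a b) < ⊤ := by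
  unfold densMeasure
  rw [withDensity_apply _ measurableSet_Icc]
  refine lt_of_le_of_lt ?_ (hloc a b ha)
  apply lintegral_mono'
  · exact Measure.restrict_mono_measure Measure.restrict_le_self _
  · exact le_rfl

theorem ae_lt_top_of_loc {A : ℝ → ℝ≥0∞} (hA : Measurable A)
    (h : ∀ a b : ℝ, 0 < a → ∫⁻ x in Icc a b, A x < ⊤) : ∀ᵐ x : ℝ, 0 < x → A x < ⊤ := by
  have h1 : ∀ n : ℕ, ∀ᵐ x : ℝ, x ∈ Icc (1 / ((n : ℝ) + 1)) ((n : ℝ) + 1) → A x < ⊤ := by
    intro n
    rw [← ae_restrict_iff' measurableSet_Icc]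
    exact ae_lt_top hA (h _ _ (by positivity)).ne
  filter_upwards [ae_all_iff.2 h1] with x hx hx0
  obtain ⟨n1, hn1⟩ := exists_nat_one_div_lt hx0
  obtain ⟨n2, hn2⟩ := exists_nat_ge x
  apply hx (max n1 n2)
  constructor
  · refine le_trans ?_ hn1.le
    apply one_div_le_one_div_of_le (by positivity)
    have : (n1 : ℝ) ≤ (max n1 n2 : ℕ) := by exact_mod_cast le_max_left _ _
    linarith
  · have : (n2 : ℝ) ≤ (max n1 n2 : ℕ) := by exact_mod_cast le_max_right _ _
    linarith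

/-- Function solutions yield solutions of the weak equation. -/
theorem FunctionSolution.pre (hF : IsProfile γ F) {M : ℝ} (hM : 0 ≤ M) {η : ℝ → ℝ}
    (hη : Measurable η) (hη0 : ∀ x, 0 ≤ η x) (h : FunctionSolution γ F η M f) :
    Pre γ F M (densMeasure η) (densMeasure f) := by
  have hf := h.meas
  have hf0 := h.nonneg
  have hsf : SFinite (densMeasure f) := by unfold densMeasure; infer_instance
  have hgfin : ∀ᵐ x : ℝ, 0 < x → gL γ F f x < ⊤ := by
    apply ae_lt_top_of_loc (measurable_gL hF hf)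
    intro a b ha
    have := h.gain_loc a b ha
    simpa only [gain_eq_gL hF hf0] using this
  have hlfin : ∀ᵐ x : ℝ, 0 < x → lL γ F f x < ⊤ := by
    apply ae_lt_top_of_loc (measurable_lL hF hf)
    intro a b ha
    refine lt_of_eq_of_lt ?_ (h.loss_loc a b ha)
    apply setLIntegral_congr_fun measurableSet_Icc
    intro x hx
    exact (loss_eq_lL hF hf0 (ha.trans_le hx.1)).symm
  have heq : ∀ᵐ x : ℝ, 0 < x → gL γ F f x + 2 * ENNReal.ofReal (η x) = 2 * lL γ F f x +
      2 * ENNReal.ofReal M *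
        (ENNReal.ofReal (x ^ (-((1 - γ) / 2))) * ENNReal.ofReal (f x)) := by
    filter_upwards [hgfin, hlfin, h.eqn] with x h1 h2 h3 hx
    exact (eqn_iff hF hf hf0 hM hx (hη0 x) (h1 hx) (h2 hx)).1 (h3 hx)
  refine ⟨densMeasure_Iic f, densMeasure_Icc h.loc, ?_, ?_⟩
  · intro a b ha
    have e1 : ∫⁻ x in Icc a b, ∫⁻ y, ENNReal.ofReal (kern γ F x y) ∂(densMeasure f)
        ∂(densMeasure f) = ∫⁻ x, ∫⁻ y, ENNReal.ofReal (kern γ F x y) *
          (Icc a b).indicator 1 x ∂(densMeasure f) ∂(densMeasure f) := by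
      rw [← lintegral_indicator measurableSet_Icc]
      apply lintegral_congr
      intro x
      by_cases hx : x ∈ Icc a b
      · simp [indicator_of_mem hx]
      · simp [indicator_of_notMem hx]
    rw [e1, lintegral_densMeasure₂ hF hf (Ψ := fun x y => (Icc a b).indicator 1 x)
      ((measurable_one.indicator measurableSet_Icc).comp measurable_fst)]
    refine lt_of_eq_of_lt ?_ (h.loss_loc a b ha)
    have hsub : Icc a b ⊆ Ioi 0 := fun x hx => ha.trans_le hx.1
    have e2 : ∀ x, ∫⁻ y in Ioi 0, dens γ F f x y * (Icc a b).indicator 1 x =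
        (Icc a b).indicator (fun x => lL γ F f x) x := by
      intro x
      by_cases hx : x ∈ Icc a b
      · simp only [indicator_of_mem hx, Pi.one_apply, mul_one]
        rfl
      · simp [indicator_of_notMem hx]
    simp_rw [e2]
    rw [lintegral_indicator measurableSet_Icc, Measure.restrict_restrict measurableSet_Icc,
      inter_eq_left.2 hsub]
    apply setLIntegral_congr_fun measurableSet_Icc
    intro x hx
    exact (loss_eq_lL hF hf0 (ha.trans_le hx.1)).symm
  · intro ϕ hϕ hϕ0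
    have hϕm := hϕ.smooth.continuous.measurable
    have hψm : Measurable fun x => ENNReal.ofReal (ϕ x) := hϕm.ennreal_ofReal
    rw [lintegral_densMeasure₂ hF hf (Ψ := fun x y => ENNReal.ofReal (ϕ (x + y)))
        (by unfold Function.uncurry; fun_prop),
      lintegral_densMeasure₂ hF hf (Ψ := fun x y => ENNReal.ofReal (ϕ x))
        (by unfold Function.uncurry; fun_prop),
      lint_conv (measurable_dens hF hf) hψm, lintegral_densMeasure hη hψm,
      lintegral_densMeasure hf (by fun_prop)]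
    have hl : ∀ x, ∫⁻ y in Ioi 0, dens γ F f x y * ENNReal.ofReal (ϕ x) =
        lL γ F f x * ENNReal.ofReal (ϕ x) := by
      intro x
      rw [lintegral_mul_const' _ _ ENNReal.ofReal_ne_top]
      rfl
    simp_rw [hl]
    have hgm := measurable_gL hF hf
    have hlm := measurable_lL hF hf
    have hgd : ∀ z, ∫⁻ y in Ioo 0 z, dens γ F f (z - y) y = gL γ F f z := fun z => rfl
    simp_rw [hgd]
    rw [← lintegral_const_mul _ (by fun_prop), ← lintegral_const_mul _ (by fun_prop),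
      ← lintegral_const_mul _ (by fun_prop), ← lintegral_add_left (by fun_prop),
      ← lintegral_add_left (by fun_prop)]
    apply lintegral_congr_ae
    filter_upwards [ae_restrict_of_ae heq, ae_restrict_mem measurableSet_Ioi] with x hx hx0
    have := congrArg (fun z => z * ENNReal.ofReal (ϕ x)) (hx hx0)
    beta_reduce at this
    calc gL γ F f x * ENNReal.ofReal (ϕ x) +
          2 * (ENNReal.ofReal (η x) * ENNReal.ofReal (ϕ x))
        = (gL γ F f x + 2 * ENNReal.ofReal (η x)) * ENNReal.ofReal (ϕ x) := by ring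
      _ = _ := this
      _ = _ := by ring

end Pool.Agent.Lib.MP_e589f0_an

/-!
# From the reduced equation to function solutions
-/

namespace Pool.Agent.Lib.MP_e589f0_an

open MeasureTheory Set Filter
open scoped Topology ENNReal ContDiff

variable {γ : ℝ} {F : ℝ → ℝ}

theorem densMeasure_ac (f : ℝ → ℝ) : densMeasure f ≪ volume := by
  unfold densMeasure
  exact (withDensity_absolutelyContinuous _ _).trans Measure.absolutelyContinuous_restrict

/-- An absolutely continuous finite measure on `(0, ∞)` has a density. -/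
theorem exists_density {g : Measure ℝ} [IsFiniteMeasure g] (hnull : g (Iic 0) = 0)
    (hac : g ≪ volume) : ∃ h : ℝ → ℝ, Measurable h ∧ (∀ x, 0 ≤ h x) ∧ g = densMeasure h := by
  refine ⟨fun x => (g.rnDeriv volume x).toReal, (g.measurable_rnDeriv volume).ennreal_toReal,
    fun x => ENNReal.toReal_nonneg, ?_⟩
  have h1 : (volume : Measure ℝ).withDensity (fun x => ENNReal.ofReal
      ((g.rnDeriv volume x).toReal)) = g := by
    conv_rhs => rw [← Measure.withDensity_rnDeriv_eq g volume hac]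
    apply withDensity_congr_ae
    filter_upwards [g.rnDeriv_lt_top volume] with x hx
    exact ENNReal.ofReal_toReal hx.ne
  unfold densMeasure
  rw [← restrict_withDensity measurableSet_Ioi, h1]
  symm
  apply Measure.restrict_eq_self_of_ae_mem
  filter_upwards [ae_pos_of hnull] with x hx
  exact hx

/-- Solutions of the reduced equation yield function solutions. -/
theorem Core.exists_functionSolution (hF : IsProfile γ F) {M : ℝ} (hM : 0 ≤ M) {η : ℝ → ℝ}
    (hη : Measurable η) (hη0 : ∀ x, 0 ≤ η x) [IsFiniteMeasure (densMeasure η)]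
    (hν : ∫⁻ x, ENNReal.ofReal x ∂(densMeasure η) = 1) (hν1 : densMeasure η (Iio 1) = 0)
    {g : Measure ℝ} (hc : Core (redH γ F) M (densMeasure η) g) :
    ∃ f : ℝ → ℝ, FunctionSolution γ F η M f := by
  have hH := prof_redH hF
  have hfinm := hc.isFiniteMeasure
  have hac := hc.absolutelyContinuous hH hν hν1 (densMeasure_ac η)
  obtain ⟨h, hh, hh0, hgh⟩ := exists_density hc.pos hac
  let f : ℝ → ℝ := fun x => x ^ (-((1 + γ) / 2)) * h x
  have hf : Measurable f := (measurable_rpow_const _).mul hh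
  have hf0 : ∀ x, 0 < x → 0 ≤ f x := by
    intro x hx
    have := hh0 x
    simp only [f]
    positivity
  have hm : unred γ g = densMeasure f := by
    rw [hgh]
    unfold unred densMeasure
    rw [← withDensity_mul _ (by fun_prop) (by fun_prop)]
    apply withDensity_congr_ae
    filter_upwards [ae_restrict_mem measurableSet_Ioi] with x hx
    have hx0 : 0 < x := hx
    rw [Pi.mul_apply, mul_comm, ← ENNReal.ofReal_mul (by positivity)]
  have hnull := densMeasure_Iic f
  have hsf : SFinite (densMeasure f) := by unfold densMeasure; infer_instance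
  have hred : red γ (densMeasure f) = g := by rw [← hm]; exact red_unred hc.pos
  have hgm := measurable_gL hF hf
  have hlm := measurable_lL hF hf
  -- the terms
  have tg : ∀ φ : ℝ → ℝ≥0∞, Measurable φ →
      ∫⁻ x, ∫⁻ y, ENNReal.ofReal (G (redH γ F) x y) * φ (x + y) ∂g ∂g =
        ∫⁻ x in Ioi 0, gL γ F f x * φ x := by
    intro φ hφ
    have r := lintegral_red₂ hF hnull (Ψ := fun x y => φ (x + y))
      (by unfold Function.uncurry; fun_prop)
    rw [hred] at r
    rw [r, lintegral_densMeasure₂ hF hf (Ψ := fun x y => φ (x + y))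
      (by unfold Function.uncurry; fun_prop), lint_conv (measurable_dens hF hf) hφ]
    rfl
  have tl : ∀ φ : ℝ → ℝ≥0∞, Measurable φ →
      ∫⁻ x, ∫⁻ y, ENNReal.ofReal (G (redH γ F) x y) * φ x ∂g ∂g =
        ∫⁻ x in Ioi 0, lL γ F f x * φ x := by
    intro φ hφ
    have r := lintegral_red₂ hF hnull (Ψ := fun x y => φ x)
      (by unfold Function.uncurry; fun_prop)
    rw [hred] at r
    rw [r, lintegral_densMeasure₂ hF hf (Ψ := fun x y => φ x)
      (by unfold Function.uncurry; fun_prop)]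
    apply lintegral_congr
    intro x
    rw [lintegral_mul_const]
    · rfl
    · exact (measurable_dens hF hf).of_uncurry_left
  have ts : ∀ φ : ℝ → ℝ≥0∞, Measurable φ →
      ∫⁻ x, ENNReal.ofReal (1 / x) * φ x ∂g =
        ∫⁻ x in Ioi 0, (ENNReal.ofReal (x ^ (-((1 - γ) / 2))) * ENNReal.ofReal (f x)) *
          φ x := by
    intro φ hφ
    have r := lintegral_red_inv (γ := γ) hnull hφ
    rw [hred] at r
    rw [r, lintegral_densMeasure hf (by fun_prop)]
    apply lintegral_congr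
    intro x
    ring
  have tn : ∀ φ : ℝ → ℝ≥0∞, Measurable φ →
      ∫⁻ x, φ x ∂(densMeasure η) = ∫⁻ x in Ioi 0, ENNReal.ofReal (η x) * φ x :=
    fun φ hφ => lintegral_densMeasure hη hφ
  have htot := total_rate_lt_top hH hc.fin hc.pos hc.inv
  have tgfin : ∫⁻ x in Ioi 0, gL γ F f x < ⊤ := by
    have := tg (fun _ => 1) measurable_const
    simp only [mul_one] at this
    rw [← this]
    exact htot
  have tlfin : ∫⁻ x in Ioi 0, lL γ F f x < ⊤ := by
    have := tl (fun _ => 1) measurable_const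
    simp only [mul_one] at this
    rw [← this]
    exact htot
  have tnfin : ∫⁻ x in Ioi 0, ENNReal.ofReal (η x) < ⊤ := by
    have := tn (fun _ => 1) measurable_const
    simp only [mul_one, lintegral_one] at this
    rw [← this]
    exact measure_lt_top _ _
  have tsfin : ∫⁻ x in Ioi 0, ENNReal.ofReal (x ^ (-((1 - γ) / 2))) * ENNReal.ofReal (f x)
      < ⊤ := by
    have := ts (fun _ => 1) measurable_const
    simp only [mul_one] at this
    rw [← this]
    exact hc.inv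
  have hsm : Measurable fun x => ENNReal.ofReal (x ^ (-((1 - γ) / 2))) *
      ENNReal.ofReal (f x) := by fun_prop
  have hA : Measurable fun x => gL γ F f x + 2 * ENNReal.ofReal (η x) := by fun_prop
  have hB : Measurable fun x => 2 * lL γ F f x + 2 * ENNReal.ofReal M *
      (ENNReal.ofReal (x ^ (-((1 - γ) / 2))) * ENNReal.ofReal (f x)) := by fun_prop
  have hlinA : ∀ φ : ℝ → ℝ≥0∞, Measurable φ →
      ∫⁻ x in Ioi 0, (gL γ F f x + 2 * ENNReal.ofReal (η x)) * φ x =
        (∫⁻ x in Ioi 0, gL γ F f x * φ x) + 2 * ∫⁻ x in Ioi 0, ENNReal.ofReal (η x) * φ x := by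
    intro φ hφ
    rw [← lintegral_const_mul _ (by fun_prop), ← lintegral_add_left (by fun_prop)]
    apply lintegral_congr
    intro x
    ring
  have hlinB : ∀ φ : ℝ → ℝ≥0∞, Measurable φ →
      ∫⁻ x in Ioi 0, (2 * lL γ F f x + 2 * ENNReal.ofReal M *
        (ENNReal.ofReal (x ^ (-((1 - γ) / 2))) * ENNReal.ofReal (f x))) * φ x =
        2 * (∫⁻ x in Ioi 0, lL γ F f x * φ x) + 2 * ENNReal.ofReal M *
          ∫⁻ x in Ioi 0, (ENNReal.ofReal (x ^ (-((1 - γ) / 2))) * ENNReal.ofReal (f x)) *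
            φ x := by
    intro φ hφ
    rw [← lintegral_const_mul _ (by fun_prop), ← lintegral_const_mul _ (by fun_prop),
      ← lintegral_add_left (by fun_prop)]
    apply lintegral_congr
    intro x
    ring
  have hAB : ∀ φ : ℝ → ℝ≥0∞, Measurable φ →
      ∫⁻ x in Ioi 0, (gL γ F f x + 2 * ENNReal.ofReal (η x)) * φ x =
      ∫⁻ x in Ioi 0, (2 * lL γ F f x + 2 * ENNReal.ofReal M *
        (ENNReal.ofReal (x ^ (-((1 - γ) / 2))) * ENNReal.ofReal (f x))) * φ x := by
    intro φ hφ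
    rw [hlinA φ hφ, hlinB φ hφ, ← tg φ hφ, ← tn φ hφ, ← tl φ hφ, ← ts φ hφ]
    exact hc.eqn φ hφ
  have hAfin : ∫⁻ x in Ioi 0, (gL γ F f x + 2 * ENNReal.ofReal (η x)) ≠ ⊤ := by
    have := hlinA (fun _ => 1) measurable_const
    simp only [mul_one] at this
    rw [this]
    exact ENNReal.add_ne_top.2 ⟨tgfin.ne, ENNReal.mul_ne_top (by norm_num) tnfin.ne⟩
  have hBfin : ∫⁻ x in Ioi 0, (2 * lL γ F f x + 2 * ENNReal.ofReal M *
        (ENNReal.ofReal (x ^ (-((1 - γ) / 2))) * ENNReal.ofReal (f x))) ≠ ⊤ := by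
    have := hlinB (fun _ => 1) measurable_const
    simp only [mul_one] at this
    rw [this]
    exact ENNReal.add_ne_top.2 ⟨ENNReal.mul_ne_top (by norm_num) tlfin.ne,
      ENNReal.mul_ne_top (ENNReal.mul_ne_top (by norm_num) ENNReal.ofReal_ne_top) tsfin.ne⟩
  have hae := AEMeasurable.ae_eq_of_forall_setLIntegral_eq hA.aemeasurable hB.aemeasurable
    hAfin hBfin (fun s hs _ => by
      have k := hAB (s.indicator 1) (measurable_one.indicator hs)
      have e : ∀ A : ℝ → ℝ≥0∞, ∫⁻ x in Ioi 0, A x * s.indicator 1 x =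
          ∫⁻ x in s, A x ∂(volume.restrict (Ioi 0)) := by
        intro A
        rw [← lintegral_indicator hs]
        apply lintegral_congr
        intro x
        by_cases hx : x ∈ s
        · rw [indicator_of_mem hx, indicator_of_mem hx, Pi.one_apply, mul_one]
        · rw [indicator_of_notMem hx, indicator_of_notMem hx, mul_zero]
      rw [e, e] at k
      exact k)
  have hgae : ∀ᵐ x ∂(volume.restrict (Ioi (0 : ℝ))), gL γ F f x < ⊤ :=
    ae_lt_top hgm tgfin.ne
  have hlae : ∀ᵐ x ∂(volume.restrict (Ioi (0 : ℝ))), lL γ F f x < ⊤ :=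
    ae_lt_top hlm tlfin.ne
  have hsub : ∀ a b : ℝ, 0 < a → Icc a b ⊆ Ioi (0 : ℝ) := fun a b ha x hx => ha.trans_le hx.1
  refine ⟨f, hf, hf0, ?_, ?_, ?_, ?_⟩
  · intro a b ha
    have h1 : unred γ g (Icc a b) < ⊤ := unred_Icc hc.fin ha
    rw [hm] at h1
    unfold densMeasure at h1
    rw [withDensity_apply _ measurableSet_Icc, Measure.restrict_restrict measurableSet_Icc,
      inter_eq_left.2 (hsub a b ha)] at h1
    exact h1
  · intro a b ha
    simp_rw [gain_eq_gL hF hf0]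
    exact (lintegral_mono_set (hsub a b ha)).trans_lt tgfin
  · intro a b ha
    have e1 : ∫⁻ x in Icc a b, ∫⁻ y in Ioi 0, ENNReal.ofReal (kern γ F x y * f x * f y) =
        ∫⁻ x in Icc a b, lL γ F f x := by
      apply setLIntegral_congr_fun measurableSet_Icc
      intro x hx
      exact loss_eq_lL hF hf0 (ha.trans_le hx.1)
    rw [e1]
    exact (lintegral_mono_set (hsub a b ha)).trans_lt tlfin
  · have hall : ∀ᵐ x ∂(volume.restrict (Ioi (0 : ℝ))),
        (1 / 2) * (∫ y in Ioo 0 x, kern γ F (x - y) y * f (x - y) * f y) -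
      (∫ y in Ioi 0, kern γ F x y * f x * f y) -
      M * (x ^ (-((1 - γ) / 2)) * f x) + η x = 0 := by
      filter_upwards [hae, hgae, hlae, ae_restrict_mem measurableSet_Ioi] with x h1 h2 h3 h4
      exact (eqn_iff hF hf hf0 hM h4 (hη0 x) h2 h3).2 h1
    rw [ae_restrict_iff' measurableSet_Ioi] at hall
    exact hall

end Pool.Agent.Lib.MP_e589f0_an
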