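import Pool.Agent.Lib.MP_e589f0_an.Exist
import Pool.Agent.Lib.MP_e589f0_an.Sol

/-!
# The set of admissible values
-/

namespace Pool.Agent.Lib.MP_e589f0_an

open MeasureTheory Set Filter
open scoped Topology ENNReal ContDiff

/-- Sources which are measures: `ν` is concentrated on some `[1, L]` and `∫ x ν(dx) = 1`. -/
structure IsMeasureSource (ν : Measure ℝ) : Prop where
  supp : ∃ L : ℝ, 1 ≤ L ∧ ν (Icc 1 L)ᶜ = 0
  mass : ∫⁻ x, ENNReal.ofReal x ∂ν = 1

/-- Sources which are functions: `η ≥ 0` vanishes off some `[1, L]` and `∫ x η(x) dx = 1`. -/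
structure IsSource (η : ℝ → ℝ) : Prop where
  meas : Measurable η
  nonneg : ∀ x, 0 ≤ η x
  supp : ∃ L : ℝ, 1 ≤ L ∧ ∀ x, x ∉ Icc 1 L → η x = 0
  mass : ∫ x in Ioi 0, x * η x = 1

/-- There is a bounded set `B` of positive sizes which carries the source and is closed under
coagulation: if `x, y ∈ B` and `x + y ∉ B` then `K(x, y) = 0`. -/
def HasBoundedSystem (F : ℝ → ℝ) (ν : Measure ℝ) : Prop :=
  ∃ B : Set ℝ, MeasurableSet B ∧ B ⊆ Ioi 0 ∧ BddAbove B ∧ ν Bᶜ = 0 ∧
    ∀ x ∈ B, ∀ y ∈ B, x + y ∉ B → F (x / (x + y)) = 0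

/-- The set `S` for measure solutions. -/
def measureS (γ : ℝ) (F : ℝ → ℝ) (ν : Measure ℝ) : Set ℝ :=
  {M | 0 ≤ M ∧ ∃ f : Measure ℝ, MeasureSolution γ F ν M f}

/-- The set `S` for function solutions. -/
def functionS (γ : ℝ) (F η : ℝ → ℝ) : Set ℝ :=
  {M | 0 ≤ M ∧ ∃ f : ℝ → ℝ, FunctionSolution γ F η M f}

variable {γ : ℝ} {F : ℝ → ℝ}

theorem system_iff (ν : Measure ℝ) : System (redH γ F) ν ↔ HasBoundedSystem F ν := by
  constructor
  · rintro ⟨B, h1, h2, h3, h4, h5⟩
    exact ⟨B, h3, h1, h2, h4, fun x hx y hy hxy =>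
      (redH_eq_zero_iff (h1 hx) (h1 hy)).1 (h5 x hx y hy hxy)⟩
  · rintro ⟨B, h3, h1, h2, h4, h5⟩
    exact ⟨B, h1, h2, h3, h4, fun x hx y hy hxy =>
      (redH_eq_zero_iff (h1 hx) (h1 hy)).2 (h5 x hx y hy hxy)⟩

/-- Basic facts about sources. -/
theorem IsMeasureSource.facts {ν : Measure ℝ} (h : IsMeasureSource ν) :
    ∃ L : ℝ, 1 ≤ L ∧ (∀ᵐ x ∂ν, 1 ≤ x ∧ x ≤ L) ∧ IsFiniteMeasure ν ∧ ν (Iio 1) = 0 ∧
      ν (Ioi L) = 0 ∧ ν (Iic 0) = 0 ∧ ν ≠ 0 := by
  obtain ⟨L, hL, hν⟩ := h.supp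
  have hae : ∀ᵐ x ∂ν, 1 ≤ x ∧ x ≤ L := by
    filter_upwards [measure_eq_zero_iff_ae_notMem.1 hν] with x hx
    rw [mem_compl_iff, not_not] at hx
    exact hx
  refine ⟨L, hL, hae, ⟨?_⟩, ?_, ?_, ?_, ?_⟩
  · calc ν univ = ∫⁻ _, 1 ∂ν := by rw [lintegral_one]
      _ ≤ ∫⁻ x, ENNReal.ofReal x ∂ν := by
          apply lintegral_mono_ae
          filter_upwards [hae] with x hx
          rw [← ENNReal.ofReal_one]
          exact ENNReal.ofReal_le_ofReal hx.1
      _ < ⊤ := by rw [h.mass]; exact ENNReal.one_lt_top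
  · rw [measure_eq_zero_iff_ae_notMem]
    filter_upwards [hae] with x hx
    exact not_lt.2 hx.1
  · rw [measure_eq_zero_iff_ae_notMem]
    filter_upwards [hae] with x hx
    exact not_lt.2 hx.2
  · rw [measure_eq_zero_iff_ae_notMem]
    filter_upwards [hae] with x hx
    rw [mem_Iic, not_le]
    linarith [hx.1]
  · rintro rfl
    have := h.mass
    rw [lintegral_zero_measure] at this
    exact zero_ne_one this

/-- A function source is a measure source. -/
theorem IsSource.isMeasureSource {η : ℝ → ℝ} (h : IsSource η) :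
    IsMeasureSource (densMeasure η) := by
  obtain ⟨L, hL, hη⟩ := h.supp
  refine ⟨⟨L, hL, ?_⟩, ?_⟩
  · unfold densMeasure
    rw [withDensity_apply _ measurableSet_Icc.compl]
    rw [← lintegral_zero (μ := (volume.restrict (Ioi 0)).restrict (Icc 1 L)ᶜ)]
    apply setLIntegral_congr_fun measurableSet_Icc.compl
    intro x hx
    beta_reduce
    rw [hη x hx, ENNReal.ofReal_zero]
  · rw [lintegral_densMeasure h.meas (by fun_prop)]
    have hint : Integrable (fun x => x * η x) (volume.restrict (Ioi 0)) := by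
      by_contra hcon
      have := h.mass
      rw [integral_undef hcon] at this
      exact zero_ne_one this
    have h0 : 0 ≤ᵐ[volume.restrict (Ioi (0 : ℝ))] fun x => x * η x := by
      filter_upwards [ae_restrict_mem measurableSet_Ioi] with x hx
      exact mul_nonneg (le_of_lt hx) (h.nonneg x)
    have e := ofReal_integral_eq_lintegral_ofReal hint h0
    rw [h.mass, ENNReal.ofReal_one] at e
    rw [e]
    apply lintegral_congr
    intro x
    rw [← ENNReal.ofReal_mul (h.nonneg x), mul_comm]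

theorem necessity (hF : IsProfile γ F) {ν : Measure ℝ} (hν : IsMeasureSource ν) {M : ℝ}
    {m : Measure ℝ} (h : Pre γ F M ν m) : 0 < M ∧ (HasBoundedSystem F ν ∨ 1 ≤ M) := by
  obtain ⟨L, hL, hae, hfin, h1, h2, h3, h4⟩ := hν.facts
  have hc := h.core hF h3 h4
  rw [← system_iff (γ := γ)]
  exact hc.dichotomy (prof_redH hF) hν.mass h1 h2

theorem sufficiency (hF : IsProfile γ F) {ν : Measure ℝ} (hν : IsMeasureSource ν) {M : ℝ}
    (h : 0 < M ∧ (HasBoundedSystem F ν ∨ 1 ≤ M)) :
    ∃ g : Measure ℝ, Core (redH γ F) M ν g := by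
  obtain ⟨L, hL, hae, hfin, h1, h2, h3, h4⟩ := hν.facts
  obtain ⟨hM, h | h⟩ := h
  · rw [← system_iff (γ := γ)] at h
    exact exists_core_of_system (prof_redH hF) hM hν.mass hL hae h
  · exact exists_core_of_one_le (prof_redH hF) h hν.mass hL hae

theorem measureS_eq (hF : IsProfile γ F) {ν : Measure ℝ} (hν : IsMeasureSource ν) :
    measureS γ F ν = {M | 0 < M ∧ (HasBoundedSystem F ν ∨ 1 ≤ M)} := by
  obtain ⟨L, hL, hae, hfin, h1, h2, h3, h4⟩ := hν.facts
  ext M
  constructor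
  · rintro ⟨hM, f, hf⟩
    exact necessity hF hν (hf.pre hF hM)
  · intro h
    obtain ⟨g, hg⟩ := sufficiency hF hν h
    exact ⟨h.1.le, _, hg.measureSolution hF h.1.le⟩

theorem functionS_eq (hF : IsProfile γ F) {η : ℝ → ℝ} (hη : IsSource η) :
    functionS γ F η = {M | 0 < M ∧ (HasBoundedSystem F (densMeasure η) ∨ 1 ≤ M)} := by
  have hν := hη.isMeasureSource
  obtain ⟨L, hL, hae, hfin, h1, h2, h3, h4⟩ := hν.facts
  ext M
  constructor
  · rintro ⟨hM, f, hf⟩
    exact necessity hF hν (hf.pre hF hM hη.meas hη.nonneg)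
  · intro h
    obtain ⟨g, hg⟩ := sufficiency hF hν h
    exact ⟨h.1.le, hg.exists_functionSolution hF h.1.le hη.meas hη.nonneg hν.mass h1⟩

theorem set_eq_of_system {P : Prop} (h : P) : {M : ℝ | 0 < M ∧ (P ∨ 1 ≤ M)} = Ioi 0 := by
  ext M
  simp [h]

theorem set_eq_of_not_system {P : Prop} (h : ¬ P) : {M : ℝ | 0 < M ∧ (P ∨ 1 ≤ M)} = Ici 1 := by
  ext M
  constructor
  · rintro ⟨_, h1 | h1⟩
    · exact absurd h1 h
    · exact h1
  · intro h1
    exact ⟨lt_of_lt_of_le one_pos h1, Or.inr h1⟩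

/-- If `F (1 / 2) ≠ 0` there is no bounded system. -/
theorem not_hasBoundedSystem {ν : Measure ℝ} (hν : IsMeasureSource ν) (hF : F (1 / 2) ≠ 0) :
    ¬ HasBoundedSystem F ν := by
  obtain ⟨L, hL, hae, hfin, h1, h2, h3, h4⟩ := hν.facts
  rintro ⟨B, hBm, hB0, hBb, hνB, hB⟩
  have hne : B.Nonempty := by
    rw [nonempty_iff_ne_empty]
    rintro rfl
    rw [compl_empty, Measure.measure_univ_eq_zero] at hνB
    exact h4 hνB
  obtain ⟨b, hb⟩ := hne
  have hs : 0 < sSup B := lt_of_lt_of_le (hB0 hb) (le_csSup hBb hb)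
  obtain ⟨x, hx, hxs⟩ := exists_lt_of_lt_csSup ⟨b, hb⟩ (half_lt_self hs)
  have hx0 : 0 < x := hB0 hx
  have hxx : x + x ∉ B := by
    intro hmem
    have := le_csSup hBb hmem
    linarith
  have := hB x hx x hx hxx
  apply hF
  have e : x / (x + x) = 1 / 2 := by
    field_simp
    norm_num
  rwa [e] at this

/-- An example of a profile which vanishes near `1 / 2`. -/
noncomputable def exF (γ : ℝ) (s : ℝ) : ℝ :=
  (s * (1 - s)) ^ (-((1 - γ) / 2)) * min 1 (max 0 (8 * |s - 1 / 2| - 2))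

theorem isProfile_exF (γ : ℝ) : IsProfile γ (exF γ) := by
  refine ⟨?_, ?_, ?_, ?_⟩
  · intro s hs
    apply ContinuousAt.continuousWithinAt
    unfold exF
    apply ContinuousAt.mul
    · apply ContinuousAt.rpow_const (by fun_prop)
      left
      have h1 := hs.1
      have h2 : 0 < 1 - s := by linarith [hs.2]
      positivity
    · fun_prop
  · intro s hs
    have h1 := hs.1
    have h2 : 0 < 1 - s := by linarith [hs.2]
    unfold exF
    apply mul_nonneg (by positivity)
    exact le_min zero_le_one (le_max_left _ _)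
  · intro s hs
    unfold exF
    congr 2
    · ring
    · have : |1 - s - 1 / 2| = |s - 1 / 2| := by
        rw [← abs_neg]
        congr 1
        ring
      rw [this]
  · have h1 : Tendsto (fun s : ℝ => (1 - s) ^ (-((1 - γ) / 2)) *
        min 1 (max 0 (8 * |s - 1 / 2| - 2))) (𝓝[>] 0) (𝓝 1) := by
      have h2 : ContinuousAt (fun s : ℝ => (1 - s) ^ (-((1 - γ) / 2)) *
          min 1 (max 0 (8 * |s - 1 / 2| - 2))) 0 := by
        apply ContinuousAt.mul
        · apply ContinuousAt.rpow_const (by fun_prop)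
          left; norm_num
        · fun_prop
      have h3 := h2.tendsto
      have h4 : (1 - (0 : ℝ)) ^ (-((1 - γ) / 2)) * min 1 (max 0 (8 * |(0 : ℝ) - 1 / 2| - 2)) = 1 := by
        rw [sub_zero, Real.one_rpow, zero_sub, abs_neg, abs_of_pos (by norm_num)]
        norm_num
      rw [h4] at h3
      exact h3.mono_left nhdsWithin_le_nhds
    refine h1.congr' ?_
    have h5 : Ioo (0 : ℝ) 1 ∈ 𝓝[>] (0 : ℝ) := Ioo_mem_nhdsGT one_pos
    filter_upwards [h5] with s hs
    have hs1 : 0 < 1 - s := by linarith [hs.2]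
    have hs0 : 0 < s ^ (-((1 - γ) / 2)) := Real.rpow_pos_of_pos hs.1 _
    unfold exF
    rw [Real.mul_rpow hs.1.le hs1.le]
    field_simp

/-- An example of a source. -/
noncomputable def exη (x : ℝ) : ℝ := (Icc (1 : ℝ) (3 / 2)).indicator (fun _ => 8 / 5) x

theorem isSource_exη : IsSource exη := by
  refine ⟨measurable_const.indicator measurableSet_Icc, fun x => ?_, ⟨3 / 2, by norm_num,
    fun x hx => indicator_of_notMem hx _⟩, ?_⟩
  · exact indicator_nonneg (fun _ _ => by norm_num) x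
  · have h1 : ∀ x : ℝ, x * exη x = (Icc (1 : ℝ) (3 / 2)).indicator (fun x => x * (8 / 5)) x := by
      intro x
      unfold exη
      by_cases hx : x ∈ Icc (1 : ℝ) (3 / 2)
      · rw [indicator_of_mem hx, indicator_of_mem hx]
      · rw [indicator_of_notMem hx, indicator_of_notMem hx, mul_zero]
    simp_rw [h1]
    have hsub : Icc (1 : ℝ) (3 / 2) ⊆ Ioi 0 := fun x hx => lt_of_lt_of_le one_pos hx.1
    rw [integral_indicator measurableSet_Icc, Measure.restrict_restrict measurableSet_Icc,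
      inter_eq_left.2 hsub, integral_Icc_eq_integral_Ioc, ← intervalIntegral.integral_of_le
      (by norm_num)]
    rw [intervalIntegral.integral_mul_const, integral_id]
    norm_num

theorem hasBoundedSystem_ex (γ : ℝ) : HasBoundedSystem (exF γ) (densMeasure exη) := by
  refine ⟨Icc 1 (3 / 2), measurableSet_Icc, fun x hx => lt_of_lt_of_le one_pos hx.1,
    bddAbove_Icc, ?_, ?_⟩
  · unfold densMeasure
    rw [withDensity_apply _ measurableSet_Icc.compl]
    rw [← lintegral_zero (μ := (volume.restrict (Ioi 0)).restrict (Icc (1 : ℝ) (3 / 2))ᶜ)]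
    apply setLIntegral_congr_fun measurableSet_Icc.compl
    intro x hx
    beta_reduce
    unfold exη
    rw [indicator_of_notMem hx, ENNReal.ofReal_zero]
  · intro x hx y hy _
    have hx1 := hx.1
    have hx2 := hx.2
    have hy1 := hy.1
    have hy2 := hy.2
    have hxy : 0 < x + y := by linarith
    have h1 : |x / (x + y) - 1 / 2| ≤ 1 / 4 := by
      rw [abs_le]
      constructor
      · have : 1 / 4 ≤ x / (x + y) := by rw [le_div_iff₀ hxy]; linarith
        linarith
      · have : x / (x + y) ≤ 3 / 4 := by rw [div_le_iff₀ hxy]; linarith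
        linarith
    unfold exF
    have h2 : max 0 (8 * |x / (x + y) - 1 / 2| - 2) = 0 := max_eq_left (by linarith)
    rw [h2, min_eq_right zero_le_one, mul_zero]

end Pool.Agent.Lib.MP_e589f0_an
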