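import Pool.Agent.Lib.MP_e589f0_an.Core

/-!
# Mass identity and flux inequality for the reduced equation
-/

namespace Pool.Agent.Lib.MP_e589f0_an

open MeasureTheory Set Filter
open scoped Topology ENNReal

variable {H : ℝ → ℝ} {M : ℝ} {ν g : Measure ℝ}

/-- The truncated identity `x ↦ min x z`. -/
noncomputable def trunc (z x : ℝ) : ℝ≥0∞ := ENNReal.ofReal (min x z)

theorem measurable_trunc (z : ℝ) : Measurable (trunc z) := by
  unfold trunc; fun_prop

theorem trunc_le (z x : ℝ) : trunc z x ≤ ENNReal.ofReal z :=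
  ENNReal.ofReal_le_ofReal (min_le_right _ _)

theorem trunc_add_le {z x y : ℝ} (hz : 0 ≤ z) (hx : 0 < x) (hy : 0 < y) :
    trunc z (x + y) ≤ trunc z x + trunc z y := by
  unfold trunc
  rw [← ENNReal.ofReal_add (le_min hx.le hz) (le_min hy.le hz)]
  apply ENNReal.ofReal_le_ofReal
  rcases le_total x z with h1 | h1 <;> rcases le_total y z with h2 | h2 <;>
    rcases le_total (x + y) z with h3 | h3 <;>
    simp only [min_eq_left h1, min_eq_left h2, min_eq_left h3, min_eq_right h1, min_eq_right h2,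
      min_eq_right h3] <;> linarith

theorem defect_le {z x y : ℝ} (hz : 0 ≤ z) (hx : 0 < x) (hy : 0 < y) :
    trunc z x + trunc z y - trunc z (x + y) ≤ ENNReal.ofReal (min x y) := by
  rw [tsub_le_iff_right]
  unfold trunc
  rw [← ENNReal.ofReal_add (le_min hx.le hz) (le_min hy.le hz),
    ← ENNReal.ofReal_add (le_min hx.le hy.le) (le_min (by positivity) hz)]
  apply ENNReal.ofReal_le_ofReal
  rcases le_total x y with h0 | h0 <;> rcases le_total x z with h1 | h1 <;>
    rcases le_total y z with h2 | h2 <;>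
    rcases le_total (x + y) z with h3 | h3 <;>
    simp only [min_eq_left h0, min_eq_right h0, min_eq_left h1, min_eq_left h2, min_eq_left h3,
      min_eq_right h1, min_eq_right h2, min_eq_right h3] <;> linarith

theorem defect_eq_zero {z x y : ℝ} (hx : 0 < x) (hy : 0 < y) (h : x + y ≤ z) :
    trunc z x + trunc z y - trunc z (x + y) = 0 := by
  unfold trunc
  rw [min_eq_left h, min_eq_left (by linarith), min_eq_left (by linarith),
    ENNReal.ofReal_add hx.le hy.le, tsub_self]

theorem defect_eq_left {z x y : ℝ} (hx : 0 < x) (hxz : x ≤ z) (hy : z < y) :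
    trunc z x + trunc z y - trunc z (x + y) = ENNReal.ofReal x := by
  unfold trunc
  rw [min_eq_left hxz, min_eq_right hy.le, min_eq_right (by linarith)]
  exact ENNReal.add_sub_cancel_right ENNReal.ofReal_ne_top

theorem G_mul_min_le {C : ℝ} (hC0 : 0 ≤ C) (hC : ∀ s, H s ≤ C)
    {x y : ℝ} (hx : 0 < x) (hy : 0 < y) : G H x y * min x y ≤ 2 * C := by
  have h1 := G_le hC hx hy
  have hmin : 0 < min x y := lt_min hx hy
  calc G H x y * min x y ≤ C * (1 / x + 1 / y) * min x y :=
        mul_le_mul_of_nonneg_right h1 hmin.le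
    _ = C * (min x y / x + min x y / y) := by ring
    _ ≤ C * (1 + 1) := by
        apply mul_le_mul_of_nonneg_left _ hC0
        apply add_le_add
        · rw [div_le_one hx]; exact min_le_left _ _
        · rw [div_le_one hy]; exact min_le_right _ _
    _ = 2 * C := by ring

/-- The total moment equals `1 / M`. -/
theorem Core.mass (hH : Prof H) (h : Core H M ν g) (hν : ∫⁻ x, ENNReal.ofReal x ∂ν = 1) :
    ENNReal.ofReal M * g univ = 1 := by
  have hfinm := h.isFiniteMeasure
  obtain ⟨C, hC1, hC⟩ := exists_bound hH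
  have hC0 : 0 ≤ C := by linarith
  have key : ∀ n : ℕ, 2 * ∫⁻ x, trunc n x ∂ν =
      ∫⁻ x, ∫⁻ y, ENNReal.ofReal (G H x y) * (trunc n x + trunc n y - trunc n (x + y)) ∂g ∂g +
        2 * ENNReal.ofReal M * ∫⁻ x, ENNReal.ofReal (1 / x) * trunc n x ∂g := fun n =>
    h.subadd hH (measurable_trunc n) ENNReal.ofReal_lt_top (trunc_le n)
      (fun x y hx hy => trunc_add_le (Nat.cast_nonneg n) hx hy)
  -- first limit
  have l1 : Tendsto (fun n : ℕ => ∫⁻ x, trunc n x ∂ν) atTop (𝓝 (∫⁻ x, ENNReal.ofReal x ∂ν)) := by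
    apply lintegral_tendsto_of_tendsto_of_monotone
    · exact fun n => (measurable_trunc n).aemeasurable
    · refine Eventually.of_forall fun x => fun m n hmn => ?_
      unfold trunc
      apply ENNReal.ofReal_le_ofReal
      exact min_le_min le_rfl (by exact_mod_cast hmn)
    · refine Eventually.of_forall fun x => ?_
      apply tendsto_const_nhds.congr'
      obtain ⟨N, hN⟩ := exists_nat_ge x
      filter_upwards [eventually_ge_atTop N] with n hn
      unfold trunc
      rw [min_eq_left]
      exact hN.trans (by exact_mod_cast hn)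
  -- second limit
  have l2 : Tendsto (fun n : ℕ => ∫⁻ x, ENNReal.ofReal (1 / x) * trunc n x ∂g) atTop
      (𝓝 (∫⁻ _, 1 ∂g)) := by
    apply lintegral_tendsto_of_tendsto_of_monotone
    · exact fun n => (by fun_prop : Measurable fun x : ℝ => ENNReal.ofReal (1 / x)).mul
        (measurable_trunc n) |>.aemeasurable
    · refine Eventually.of_forall fun x => fun m n hmn => ?_
      apply mul_le_mul_right
      unfold trunc
      apply ENNReal.ofReal_le_ofReal
      exact min_le_min le_rfl (by exact_mod_cast hmn)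
    · filter_upwards [h.ae_pos] with x hx
      apply tendsto_const_nhds.congr'
      obtain ⟨N, hN⟩ := exists_nat_ge x
      filter_upwards [eventually_ge_atTop N] with n hn
      unfold trunc
      rw [min_eq_left (hN.trans (by exact_mod_cast hn)), ← ENNReal.ofReal_mul (by positivity),
        one_div, inv_mul_cancel₀ hx.ne', ENNReal.ofReal_one]
  -- third limit
  have hGe : Measurable fun p : ℝ × ℝ => ENNReal.ofReal (G H p.1 p.2) :=
    (measurable_G hH).ennreal_ofReal
  have hmeasF : ∀ n : ℕ, Measurable fun p : ℝ × ℝ => ENNReal.ofReal (G H p.1 p.2) *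
      (trunc n p.1 + trunc n p.2 - trunc n (p.1 + p.2)) := fun n =>
    hGe.mul ((((measurable_trunc n).comp measurable_fst).add
      ((measurable_trunc n).comp measurable_snd)).sub
      ((measurable_trunc n).comp (measurable_fst.add measurable_snd)))
  have haeprod : ∀ᵐ p ∂(g.prod g), 0 < p.1 ∧ 0 < p.2 := by
    have h1 : ∀ᵐ p ∂(g.prod g), 0 < p.1 :=
      Measure.quasiMeasurePreserving_fst.ae h.ae_pos
    have h2 : ∀ᵐ p ∂(g.prod g), 0 < p.2 :=
      Measure.quasiMeasurePreserving_snd.ae h.ae_pos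
    filter_upwards [h1, h2] with p hp1 hp2 using ⟨hp1, hp2⟩
  have l3 : Tendsto (fun n : ℕ => ∫⁻ x, ∫⁻ y, ENNReal.ofReal (G H x y) *
      (trunc n x + trunc n y - trunc n (x + y)) ∂g ∂g) atTop (𝓝 0) := by
    have e : ∀ n : ℕ, ∫⁻ x, ∫⁻ y, ENNReal.ofReal (G H x y) *
        (trunc n x + trunc n y - trunc n (x + y)) ∂g ∂g = ∫⁻ p, ENNReal.ofReal (G H p.1 p.2) *
        (trunc n p.1 + trunc n p.2 - trunc n (p.1 + p.2)) ∂(g.prod g) := fun n =>
      (lintegral_prod _ (hmeasF n).aemeasurable).symm
    simp_rw [e]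
    have h0 : (0 : ℝ≥0∞) = ∫⁻ _, 0 ∂(g.prod g) := by simp
    rw [h0]
    refine tendsto_lintegral_of_dominated_convergence (fun _ => ENNReal.ofReal (2 * C)) hmeasF ?_ ?_
      ?_
    · intro n
      filter_upwards [haeprod] with p hp
      calc ENNReal.ofReal (G H p.1 p.2) * (trunc n p.1 + trunc n p.2 - trunc n (p.1 + p.2))
          ≤ ENNReal.ofReal (G H p.1 p.2) * ENNReal.ofReal (min p.1 p.2) :=
            mul_le_mul_right (defect_le (Nat.cast_nonneg n) hp.1 hp.2) _
        _ = ENNReal.ofReal (G H p.1 p.2 * min p.1 p.2) :=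
            (ENNReal.ofReal_mul (G_nonneg hH hp.1 hp.2)).symm
        _ ≤ ENNReal.ofReal (2 * C) :=
            ENNReal.ofReal_le_ofReal (G_mul_min_le hC0 hC hp.1 hp.2)
    · rw [lintegral_const]
      exact (ENNReal.mul_lt_top ENNReal.ofReal_lt_top (measure_lt_top _ _)).ne
    · filter_upwards [haeprod] with p hp
      apply tendsto_const_nhds.congr'
      obtain ⟨N, hN⟩ := exists_nat_ge (p.1 + p.2)
      filter_upwards [eventually_ge_atTop N] with n hn
      rw [defect_eq_zero hp.1 hp.2 (hN.trans (by exact_mod_cast hn)), mul_zero]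
  have lhs : Tendsto (fun n : ℕ => 2 * ∫⁻ x, trunc n x ∂ν) atTop (𝓝 (2 * 1)) := by
    rw [← hν]
    exact ENNReal.Tendsto.const_mul l1 (Or.inr (by simp))
  have rhs : Tendsto (fun n : ℕ =>
      ∫⁻ x, ∫⁻ y, ENNReal.ofReal (G H x y) * (trunc n x + trunc n y - trunc n (x + y)) ∂g ∂g +
        2 * ENNReal.ofReal M * ∫⁻ x, ENNReal.ofReal (1 / x) * trunc n x ∂g) atTop
      (𝓝 (0 + 2 * ENNReal.ofReal M * g univ)) := by
    apply l3.add
    have : ∫⁻ _, 1 ∂g = g univ := by simp
    rw [← this]
    exact ENNReal.Tendsto.const_mul l2 (Or.inr (ENNReal.mul_ne_top (by simp) ENNReal.ofReal_ne_top))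
  simp_rw [key] at lhs
  have e := tendsto_nhds_unique lhs rhs
  rw [zero_add, mul_assoc] at e
  exact ((ENNReal.mul_right_inj (by simp) (by simp)).1 e).symm

/-- The flux inequality. -/
theorem Core.flux (hH : Prof H) (h : Core H M ν g) (hν : ∫⁻ x, ENNReal.ofReal x ∂ν = 1)
    {z : ℝ} (hz : 0 < z) (hνz : ν (Ioi z) = 0) {δ κ : ℝ} (hδ : 0 < δ) (hδ1 : δ < 1) (hκ : 0 ≤ κ)
    (hHδ : ∀ s, 0 ≤ s → s ≤ δ → κ ≤ H s) :
    ENNReal.ofReal κ * g (Iic (δ * z)) * g (Ioi z) ≤ ENNReal.ofReal M * g (Ioi z) := by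
  have hfinm := h.isFiniteMeasure
  have hmass := h.mass hH hν
  have key := h.subadd hH (measurable_trunc z) ENNReal.ofReal_lt_top (trunc_le z)
    (fun x y hx hy => trunc_add_le hz.le hx hy)
  have h1 : ∫⁻ x, trunc z x ∂ν = 1 := by
    rw [← hν]
    apply lintegral_congr_ae
    have : ∀ᵐ x ∂ν, x ≤ z := by
      rw [ae_iff]
      simpa [Ioi] using hνz
    filter_upwards [this] with x hx
    unfold trunc
    rw [min_eq_left hx]
  rw [h1, mul_one] at key
  -- lower bound for the sink
  have h2 : g (Iic z) ≤ ∫⁻ x, ENNReal.ofReal (1 / x) * trunc z x ∂g := by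
    rw [← lintegral_indicator_one measurableSet_Iic]
    apply lintegral_mono_ae
    filter_upwards [h.ae_pos] with x hx
    by_cases hxz : x ∈ Iic z
    · rw [indicator_of_mem hxz]
      unfold trunc
      rw [min_eq_left hxz, ← ENNReal.ofReal_mul (by positivity), one_div, inv_mul_cancel₀ hx.ne',
        ENNReal.ofReal_one]
      rfl
    · rw [indicator_of_notMem hxz]; exact zero_le
  -- lower bound for the defect
  set A : Set ℝ := Iic (δ * z) with hA
  set B : Set ℝ := Ioi z with hB
  have h3 : 2 * (ENNReal.ofReal κ * g A * g B) ≤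
      ∫⁻ x, ∫⁻ y, ENNReal.ofReal (G H x y) * (trunc z x + trunc z y - trunc z (x + y)) ∂g ∂g := by
    have e1 : 2 * (ENNReal.ofReal κ * g A * g B) = ∫⁻ x, ∫⁻ y, ENNReal.ofReal κ *
        (A.indicator 1 x * B.indicator 1 y + B.indicator 1 x * A.indicator 1 y) ∂g ∂g := by
      have hmA : Measurable (A.indicator (1 : ℝ → ℝ≥0∞)) :=
        measurable_one.indicator measurableSet_Iic
      have hmB : Measurable (B.indicator (1 : ℝ → ℝ≥0∞)) :=
        measurable_one.indicator measurableSet_Ioi
      have e2 : ∀ x, ∫⁻ y, ENNReal.ofReal κ * (A.indicator 1 x * B.indicator 1 y +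
          B.indicator 1 x * A.indicator 1 y) ∂g =
          ENNReal.ofReal κ * (A.indicator 1 x * g B + B.indicator 1 x * g A) := by
        intro x
        have hm1 : Measurable fun y : ℝ => A.indicator (1 : ℝ → ℝ≥0∞) x *
            B.indicator (1 : ℝ → ℝ≥0∞) y + B.indicator (1 : ℝ → ℝ≥0∞) x *
            A.indicator (1 : ℝ → ℝ≥0∞) y := (hmB.const_mul _).add (hmA.const_mul _)
        rw [lintegral_const_mul _ hm1,
          lintegral_add_left (hmB.const_mul _), lintegral_const_mul _ hmB,
          lintegral_const_mul _ hmA, lintegral_indicator_one measurableSet_Ioi,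
          lintegral_indicator_one measurableSet_Iic]
      simp_rw [e2]
      have hm2 : Measurable fun x : ℝ => A.indicator (1 : ℝ → ℝ≥0∞) x * g B +
          B.indicator (1 : ℝ → ℝ≥0∞) x * g A := (hmA.mul_const _).add (hmB.mul_const _)
      rw [lintegral_const_mul _ hm2,
        lintegral_add_left (hmA.mul_const _), lintegral_mul_const _ hmA,
        lintegral_mul_const _ hmB, lintegral_indicator_one measurableSet_Ioi,
        lintegral_indicator_one measurableSet_Iic]
      ring
    rw [e1]
    have hlow : ∀ x y : ℝ, 0 < x → 0 < y → x ∈ A → y ∈ B →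
        ENNReal.ofReal κ ≤ ENNReal.ofReal (G H x y) * ENNReal.ofReal x := by
      intro x y hx hy hxA hyB
      rw [← ENNReal.ofReal_mul (G_nonneg hH hx hy)]
      apply ENNReal.ofReal_le_ofReal
      have hxA' : x ≤ δ * z := hxA
      have hyB' : z < y := hyB
      have h4 : κ ≤ H (x / (x + y)) := by
        apply hHδ _ (by positivity)
        rw [div_le_iff₀ (by positivity)]
        nlinarith
      rw [G_eq x y hx hy]
      have h5 : 1 ≤ (1 / x + 1 / y) * x := by
        rw [add_mul, one_div, inv_mul_cancel₀ hx.ne']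
        have : 0 ≤ 1 / y * x := by positivity
        linarith
      calc κ ≤ H (x / (x + y)) := h4
        _ = 1 * H (x / (x + y)) := (one_mul _).symm
        _ ≤ ((1 / x + 1 / y) * x) * H (x / (x + y)) :=
            mul_le_mul_of_nonneg_right h5 (hH.nonneg _)
        _ = _ := by ring
    apply lintegral_mono_ae
    filter_upwards [h.ae_pos] with x hx
    apply lintegral_mono_ae
    filter_upwards [h.ae_pos] with y hy
    have hδz : δ * z < z := by nlinarith
    by_cases hxA : x ∈ A
    · have hxz : x < z := lt_of_le_of_lt hxA hδz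
      have hxB : x ∉ B := fun hx' => absurd hx' (not_lt.2 hxz.le)
      by_cases hyB : y ∈ B
      · rw [indicator_of_mem hxA, indicator_of_mem hyB, indicator_of_notMem hxB, zero_mul,
          add_zero, defect_eq_left hx hxz.le hyB]
        simpa using hlow x y hx hy hxA hyB
      · rw [indicator_of_notMem hyB, indicator_of_notMem hxB]
        simp
    · by_cases hyA : y ∈ A
      · have hyz : y < z := lt_of_le_of_lt hyA hδz
        by_cases hxB : x ∈ B
        · rw [indicator_of_notMem hxA, indicator_of_mem hxB, indicator_of_mem hyA, zero_mul,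
            zero_add, add_comm (trunc z x), add_comm x y, defect_eq_left hy hyz.le hxB,
            G_symm hH hx hy]
          simpa using hlow y x hy hx hyA hxB
        · rw [indicator_of_notMem hxA, indicator_of_notMem hxB]
          simp
      · rw [indicator_of_notMem hxA, indicator_of_notMem hyA]
        simp
  -- combine
  have hsplit : g univ = g (Iic z) + g B := by
    rw [hB, ← Iic_union_Ioi (a := z), measure_union (Iic_disjoint_Ioi le_rfl) measurableSet_Ioi]
  have h6 : 2 * (ENNReal.ofReal κ * g A * g B) + 2 * ENNReal.ofReal M * g (Iic z) ≤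
      2 * ENNReal.ofReal M * g B + 2 * ENNReal.ofReal M * g (Iic z) := by
    calc _ ≤ ∫⁻ x, ∫⁻ y, ENNReal.ofReal (G H x y) *
          (trunc z x + trunc z y - trunc z (x + y)) ∂g ∂g +
          2 * ENNReal.ofReal M * ∫⁻ x, ENNReal.ofReal (1 / x) * trunc z x ∂g := by
          gcongr
      _ = 2 := key.symm
      _ = 2 * (ENNReal.ofReal M * g univ) := by rw [hmass, mul_one]
      _ = _ := by rw [hsplit]; ring
  have hfinI : 2 * ENNReal.ofReal M * g (Iic z) ≠ ⊤ :=
    ENNReal.mul_ne_top (ENNReal.mul_ne_top (by simp) ENNReal.ofReal_ne_top) (measure_ne_top _ _)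
  have h7 := (ENNReal.add_le_add_iff_right hfinI).1 h6
  rw [mul_assoc 2] at h7
  exact (ENNReal.mul_le_mul_iff_right (by simp) (by simp)).1 h7

/-- If the solution is not compactly supported then `M ≥ 1`. -/
theorem Core.one_le (hH : Prof H) (h : Core H M ν g) (hν : ∫⁻ x, ENNReal.ofReal x ∂ν = 1)
    {z₀ : ℝ} (hνz : ν (Ioi z₀) = 0) (hunb : ∀ z, g (Ioi z) ≠ 0) : 1 ≤ M := by
  have hfinm := h.isFiniteMeasure
  have hmass := h.mass hH hν
  have hle : ∀ κ : ℝ, 0 ≤ κ → κ < 1 → ENNReal.ofReal κ * g univ ≤ ENNReal.ofReal M := by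
    intro κ hκ0 hκ1
    -- continuity of `H` at `0`
    obtain ⟨δ, hδ, hδ1, hHδ⟩ : ∃ δ, 0 < δ ∧ δ < 1 ∧ ∀ s, 0 ≤ s → s ≤ δ → κ ≤ H s := by
      have hc : Tendsto H (𝓝 0) (𝓝 1) := by
        have := hH.cont.tendsto 0
        rwa [hH.zero] at this
      have hev := hc.eventually_const_lt hκ1
      obtain ⟨r, hr, hball⟩ := Metric.eventually_nhds_iff.1 hev
      refine ⟨min (r / 2) (1 / 2), by positivity, ?_, fun s hs0 hs => ?_⟩
      · exact (min_le_right _ _).trans_lt (by norm_num)
      · apply (hball _).le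
        rw [Real.dist_eq, sub_zero, abs_of_nonneg hs0]
        have := hs.trans (min_le_left _ _)
        linarith
    have hev : ∀ᶠ n : ℕ in atTop, ENNReal.ofReal κ * g (Iic (δ * n)) ≤ ENNReal.ofReal M := by
      obtain ⟨N, hN⟩ := exists_nat_ge (max z₀ 1)
      filter_upwards [eventually_ge_atTop N] with n hn
      have hn' : max z₀ 1 ≤ (n : ℝ) := hN.trans (by exact_mod_cast hn)
      have hn0 : (0 : ℝ) < n := lt_of_lt_of_le one_pos ((le_max_right _ _).trans hn')
      have hνn : ν (Ioi (n : ℝ)) = 0 :=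
        measure_mono_null (Ioi_subset_Ioi ((le_max_left _ _).trans hn')) hνz
      have := h.flux hH hν hn0 hνn hδ hδ1 hκ0 hHδ
      exact (ENNReal.mul_le_mul_iff_left (hunb n) (measure_ne_top _ _)).1 this
    have hlim : Tendsto (fun n : ℕ => ENNReal.ofReal κ * g (Iic (δ * n))) atTop
        (𝓝 (ENNReal.ofReal κ * g univ)) := by
      apply ENNReal.Tendsto.const_mul _ (Or.inr ENNReal.ofReal_ne_top)
      have hU : (⋃ n : ℕ, Iic (δ * (n : ℝ))) = univ := by
        rw [eq_univ_iff_forall]
        intro x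
        obtain ⟨N, hN⟩ := exists_nat_ge (x / δ)
        rw [div_le_iff₀ hδ] at hN
        exact mem_iUnion.2 ⟨N, by rw [mem_Iic]; linarith⟩
      rw [← hU]
      apply tendsto_measure_iUnion_atTop
      intro m n hmn
      apply Iic_subset_Iic.2
      have : (m : ℝ) ≤ n := by exact_mod_cast hmn
      exact mul_le_mul_of_nonneg_left this hδ.le
    exact le_of_tendsto hlim hev
  have hle1 : g univ ≤ ENNReal.ofReal M := by
    have hlim : Tendsto (fun n : ℕ => ENNReal.ofReal (1 - 1 / ((n : ℝ) + 1)) * g univ) atTop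
        (𝓝 (ENNReal.ofReal 1 * g univ)) := by
      apply ENNReal.Tendsto.mul_const _ (Or.inr (measure_ne_top _ _))
      apply ENNReal.tendsto_ofReal
      have := tendsto_one_div_add_atTop_nhds_zero_nat (𝕜 := ℝ)
      simpa using this.const_sub 1
    rw [ENNReal.ofReal_one, one_mul] at hlim
    refine le_of_tendsto hlim (Eventually.of_forall fun n => hle _ ?_ ?_)
    · rw [sub_nonneg, div_le_one (by positivity)]
      have : (0 : ℝ) ≤ n := Nat.cast_nonneg n
      linarith
    · have : (0 : ℝ) < 1 / ((n : ℝ) + 1) := by positivity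
      linarith
  have h2 : (1 : ℝ≥0∞) ≤ ENNReal.ofReal M * ENNReal.ofReal M := by
    calc (1 : ℝ≥0∞) = ENNReal.ofReal M * g univ := hmass.symm
      _ ≤ _ := by gcongr
  by_contra hlt
  rw [not_le] at hlt
  have hM1 : ENNReal.ofReal M < 1 := by
    rw [← ENNReal.ofReal_one]
    exact (ENNReal.ofReal_lt_ofReal_iff one_pos).2 hlt
  have : ENNReal.ofReal M * ENNReal.ofReal M < 1 * 1 := ENNReal.mul_lt_mul hM1 hM1
  rw [one_mul] at this
  exact absurd h2 (not_le.2 this)

end Pool.Agent.Lib.MP_e589f0_an
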