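import Pool.Agent.Lib.MP_e589f0_an.Gh

/-!
# Passage to the limit
-/

namespace Pool.Agent.Lib.MP_e589f0_an

open MeasureTheory Set Filter
open scoped Topology ENNReal NNReal unitInterval

variable {H : ℝ → ℝ}

theorem continuous_Gh (hH : Prof H) : Continuous fun p : I × I => Gh H (p.1 : ℝ) (p.2 : ℝ) := by
  rw [continuous_iff_continuousAt]
  intro p
  have hp1 : (0 : ℝ) ≤ p.1 := p.1.2.1
  have hp2 : (0 : ℝ) ≤ p.2 := p.2.2.1
  by_cases h0 : (p.1 : ℝ) + p.2 = 0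
  · obtain ⟨C, hC1, hC⟩ := exists_bound hH
    have hval : Gh H (p.1 : ℝ) (p.2 : ℝ) = 0 := by unfold Gh; rw [h0, zero_mul]
    change Tendsto (fun q : I × I => Gh H (q.1 : ℝ) (q.2 : ℝ)) (𝓝 p)
      (𝓝 (Gh H (p.1 : ℝ) (p.2 : ℝ)))
    rw [hval]
    have hlim : Tendsto (fun q : I × I => ((q.1 : ℝ) + q.2) * C) (𝓝 p) (𝓝 0) := by
      have : Continuous fun q : I × I => ((q.1 : ℝ) + q.2) * C := by fun_prop
      have h := this.tendsto p
      rwa [h0, zero_mul] at h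
    refine squeeze_zero (fun q => Gh_nonneg hH q.1.2.1 q.2.2.1) (fun q => ?_) hlim
    unfold Gh
    exact mul_le_mul_of_nonneg_left (hC _) (add_nonneg q.1.2.1 q.2.2.1)
  · unfold Gh
    have h1 : ContinuousAt (fun q : I × I => (q.1 : ℝ) + q.2) p := by fun_prop
    have h2 : ContinuousAt (fun q : I × I => (q.2 : ℝ) / ((q.1 : ℝ) + q.2)) p :=
      (by fun_prop : ContinuousAt (fun q : I × I => (q.2 : ℝ)) p).div h1 h0
    exact h1.mul (hH.cont.continuousAt.comp' h2)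

theorem op_nonneg {s t : ℝ} (hs : 0 ≤ s) (ht : 0 ≤ t) : 0 ≤ op s t := by
  unfold op; positivity

theorem op_le {s t : ℝ} (hs : 0 ≤ s) (ht : 0 ≤ t) : op s t ≤ s := by
  unfold op
  rcases (add_nonneg hs ht).eq_or_lt with h | h
  · rw [← h, div_zero]; exact hs
  · rw [div_le_iff₀ h]; nlinarith

theorem continuous_op : Continuous fun p : I × I => op (p.1 : ℝ) (p.2 : ℝ) := by
  rw [continuous_iff_continuousAt]
  intro p
  have hp1 : (0 : ℝ) ≤ p.1 := p.1.2.1
  have hp2 : (0 : ℝ) ≤ p.2 := p.2.2.1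
  by_cases h0 : (p.1 : ℝ) + p.2 = 0
  · have hval : op (p.1 : ℝ) (p.2 : ℝ) = 0 := by unfold op; rw [h0, div_zero]
    have hp1' : (p.1 : ℝ) = 0 := by linarith
    change Tendsto (fun q : I × I => op (q.1 : ℝ) (q.2 : ℝ)) (𝓝 p)
      (𝓝 (op (p.1 : ℝ) (p.2 : ℝ)))
    rw [hval]
    have hlim : Tendsto (fun q : I × I => (q.1 : ℝ)) (𝓝 p) (𝓝 0) := by
      have : Continuous fun q : I × I => (q.1 : ℝ) := by fun_prop
      have h := this.tendsto p
      rwa [hp1'] at h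
    exact squeeze_zero (fun q => op_nonneg q.1.2.1 q.2.2.1)
      (fun q => op_le q.1.2.1 q.2.2.1) hlim
  · unfold op
    have h1 : ContinuousAt (fun q : I × I => (q.1 : ℝ) + q.2) p := by fun_prop
    exact (by fun_prop : ContinuousAt (fun q : I × I => (q.1 : ℝ) * q.2) p).div h1 h0

/-- Compactness: finite measures on the unit interval with bounded mass have limit points, and
double integrals converge. -/
theorem exists_limit (C : ℝ≥0) (μ : ℕ → Measure I) (hμ : ∀ n, μ n univ ≤ C) :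
    ∃ (U : Ultrafilter ℕ) (g : Measure I), (U : Filter ℕ) ≤ atTop ∧ g univ ≤ C ∧
      (∀ Ψ : I × I → ℝ, Continuous Ψ → Tendsto (fun n => ∫ s, ∫ t, Ψ (s, t) ∂(μ n) ∂(μ n))
        (U : Filter ℕ) (𝓝 (∫ s, ∫ t, Ψ (s, t) ∂g ∂g))) ∧
      ∀ ψ : I → ℝ, Continuous ψ → Tendsto (fun n => ∫ s, ψ s ∂(μ n)) (U : Filter ℕ)
        (𝓝 (∫ s, ψ s ∂g)) := by
  have hfin : ∀ n, IsFiniteMeasure (μ n) := fun n => ⟨(hμ n).trans_lt ENNReal.coe_lt_top⟩
  let F : ℕ → FiniteMeasure I := fun n => ⟨μ n, hfin n⟩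
  let P : ℕ → ProbabilityMeasure I := fun n => (F n).normalize
  let r : ℕ → ℝ≥0 := fun n => (F n).mass
  have hr : ∀ n, r n ≤ C := by
    intro n
    have h1 : ((F n).mass : ℝ≥0∞) = μ n univ := (F n).ennreal_mass
    have h2 : ((F n).mass : ℝ≥0∞) ≤ C := by rw [h1]; exact hμ n
    exact_mod_cast h2
  have hFP : ∀ n, μ n = (r n : ℝ≥0∞) • (P n : Measure I) := by
    intro n
    have h1 := (F n).self_eq_mass_smul_normalize
    have h2 := congrArg (fun ν : FiniteMeasure I => (ν : Measure I)) h1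
    have h3 : ((F n : FiniteMeasure I) : Measure I) =
        (F n).mass • ((F n).normalize : Measure I) := by simpa using h2
    exact h3
  let U : Ultrafilter ℕ := Ultrafilter.of atTop
  have hU : (U : Filter ℕ) ≤ atTop := Ultrafilter.of_le _
  obtain ⟨Q, _, hQ⟩ := (isCompact_univ (X := ProbabilityMeasure I)).ultrafilter_le_nhds
    (U.map P) (by simp)
  obtain ⟨ρ, hρ, hρlim⟩ := (isCompact_Icc (a := (0 : ℝ≥0)) (b := C)).ultrafilter_le_nhds
    (U.map r) (by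
      rw [le_principal_iff]
      exact mem_map.2 (univ_mem' fun n => ⟨bot_le, hr n⟩))
  have hPlim : Tendsto P (U : Filter ℕ) (𝓝 Q) := hQ
  have hrlim : Tendsto r (U : Filter ℕ) (𝓝 ρ) := hρlim
  refine ⟨U, (ρ : ℝ≥0∞) • (Q : Measure I), hU, ?_, ?_, ?_⟩
  · rw [Measure.smul_apply, measure_univ, smul_eq_mul, mul_one]
    exact_mod_cast hρ.2
  · intro Ψ hΨ
    have e1 : ∀ (a : ℝ≥0) (R : ProbabilityMeasure I),
        ∫ s, ∫ t, Ψ (s, t) ∂((a : ℝ≥0∞) • (R : Measure I)) ∂((a : ℝ≥0∞) • (R : Measure I)) =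
        (a : ℝ) * ((a : ℝ) * ∫ p, Ψ p ∂((R.prod R : ProbabilityMeasure (I × I)) :
          Measure (I × I))) := by
      intro a R
      simp_rw [integral_smul_measure]
      rw [ProbabilityMeasure.toMeasure_prod, integral_prod]
      · simp only [ENNReal.coe_toReal, smul_eq_mul]
        rw [integral_const_mul]
      · exact (BoundedContinuousFunction.mkOfCompact ⟨Ψ, hΨ⟩).integrable _
    simp_rw [hFP, e1]
    have hb : ∃ Ψb : BoundedContinuousFunction (I × I) ℝ, ∀ p, Ψb p = Ψ p :=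
      ⟨BoundedContinuousFunction.mkOfCompact ⟨Ψ, hΨ⟩, fun p => rfl⟩
    obtain ⟨Ψb, hΨb⟩ := hb
    have h1 : Tendsto (fun n => ∫ p, Ψ p ∂(((P n).prod (P n) : ProbabilityMeasure (I × I)) :
        Measure (I × I))) (U : Filter ℕ)
        (𝓝 (∫ p, Ψ p ∂((Q.prod Q : ProbabilityMeasure (I × I)) : Measure (I × I)))) := by
      have h2 : Tendsto (fun n => (P n).prod (P n)) (U : Filter ℕ) (𝓝 (Q.prod Q)) := by
        have h3 := (ProbabilityMeasure.continuous_prod (α := I) (β := I)).tendsto (Q, Q)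
        exact h3.comp (hPlim.prodMk_nhds hPlim)
      have h4 := (ProbabilityMeasure.tendsto_iff_forall_integral_tendsto.1 h2) Ψb
      simpa only [hΨb] using h4
    have h2 : Tendsto (fun n => (r n : ℝ)) (U : Filter ℕ) (𝓝 (ρ : ℝ)) :=
      (NNReal.continuous_coe.tendsto ρ).comp hrlim
    exact h2.mul (h2.mul h1)
  · intro ψ hψ
    simp_rw [hFP, integral_smul_measure]
    have hb : ∃ ψb : BoundedContinuousFunction I ℝ, ∀ p, ψb p = ψ p :=
      ⟨BoundedContinuousFunction.mkOfCompact ⟨ψ, hψ⟩, fun p => rfl⟩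
    obtain ⟨ψb, hψb⟩ := hb
    have h1 : Tendsto (fun n => ∫ p, ψ p ∂((P n : ProbabilityMeasure I) : Measure I))
        (U : Filter ℕ) (𝓝 (∫ p, ψ p ∂(Q : Measure I))) := by
      have h4 := (ProbabilityMeasure.tendsto_iff_forall_integral_tendsto.1 hPlim) ψb
      simpa only [hψb] using h4
    have h2 : Tendsto (fun n => (r n : ℝ)) (U : Filter ℕ) (𝓝 (ρ : ℝ)) :=
      (NNReal.continuous_coe.tendsto ρ).comp hrlim
    simp only [ENNReal.coe_toReal, smul_eq_mul]
    exact h2.mul h1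

end Pool.Agent.Lib.MP_e589f0_an
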