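import Pool.Agent.Lib.MP_e589f0_an.Profile
import Pool.Agent.Lib.MP_e589f0_an.Ext

/-!
# Reduction of the coagulation equation to the reduced equation
-/

namespace Pool.Agent.Lib.MP_e589f0_an

open MeasureTheory Set Filter
open scoped Topology ENNReal

variable {γ : ℝ} {F : ℝ → ℝ}

/-- The reduced measure `x ^ ((1 + γ) / 2) m(dx)`. -/
noncomputable def red (γ : ℝ) (m : Measure ℝ) : Measure ℝ :=
  m.withDensity fun x => ENNReal.ofReal (x ^ ((1 + γ) / 2))

theorem sigmaFinite_of {m : Measure ℝ} (hnull : m (Iic 0) = 0)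
    (hloc : ∀ a b : ℝ, 0 < a → m (Icc a b) < ⊤) : SigmaFinite m := by
  refine ⟨⟨⟨fun n : ℕ => Iic 0 ∪ Icc (1 / ((n : ℝ) + 1)) (n + 1), fun _ => trivial, ?_, ?_⟩⟩⟩
  · intro n
    refine (measure_union_le _ _).trans_lt ?_
    rw [hnull, zero_add]
    exact hloc _ _ (by positivity)
  · rw [eq_univ_iff_forall]
    intro x
    rw [mem_iUnion]
    rcases le_or_gt x 0 with hx | hx
    · exact ⟨0, Or.inl hx⟩
    · obtain ⟨n1, hn1⟩ := exists_nat_one_div_lt hx
      obtain ⟨n2, hn2⟩ := exists_nat_ge x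
      refine ⟨max n1 n2, Or.inr ⟨?_, ?_⟩⟩
      · refine le_trans ?_ hn1.le
        apply one_div_le_one_div_of_le (by positivity)
        have : (n1 : ℝ) ≤ (max n1 n2 : ℕ) := by exact_mod_cast le_max_left _ _
        linarith
      · have : (n2 : ℝ) ≤ (max n1 n2 : ℕ) := by exact_mod_cast le_max_right _ _
        linarith

theorem measurable_rpow_const (a : ℝ) : Measurable fun x : ℝ => x ^ a := by fun_prop

theorem lintegral_red (m : Measure ℝ) {Ψ : ℝ → ℝ≥0∞} (hΨ : Measurable Ψ) :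
    ∫⁻ x, Ψ x ∂(red γ m) = ∫⁻ x, ENNReal.ofReal (x ^ ((1 + γ) / 2)) * Ψ x ∂m := by
  unfold red
  rw [lintegral_withDensity_eq_lintegral_mul _ (measurable_rpow_const _).ennreal_ofReal hΨ]
  rfl

theorem red_Iic {m : Measure ℝ} (hnull : m (Iic 0) = 0) : red γ m (Iic 0) = 0 :=
  withDensity_absolutelyContinuous m _ hnull

theorem lintegral_red_inv {m : Measure ℝ} (hnull : m (Iic 0) = 0) {Ψ : ℝ → ℝ≥0∞}
    (hΨ : Measurable Ψ) :
    ∫⁻ x, ENNReal.ofReal (1 / x) * Ψ x ∂(red γ m) =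
      ∫⁻ x, ENNReal.ofReal (x ^ (-((1 - γ) / 2))) * Ψ x ∂m := by
  rw [lintegral_red m (by fun_prop)]
  apply lintegral_congr_ae
  filter_upwards [ae_pos_of hnull] with x hx
  rw [← mul_assoc, ← ENNReal.ofReal_mul (by positivity)]
  congr 2
  rw [one_div, ← Real.rpow_neg_one x, ← Real.rpow_add hx]
  congr 1
  ring

theorem lintegral_red₂ (hF : IsProfile γ F) {m : Measure ℝ} [SFinite m] (hnull : m (Iic 0) = 0)
    {Ψ : ℝ → ℝ → ℝ≥0∞} (hΨ : Measurable (Function.uncurry Ψ)) :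
    ∫⁻ x, ∫⁻ y, ENNReal.ofReal (G (redH γ F) x y) * Ψ x y ∂(red γ m) ∂(red γ m) =
      ∫⁻ x, ∫⁻ y, ENNReal.ofReal (kern γ F x y) * Ψ x y ∂m ∂m := by
  have hG := (measurable_G (prof_redH hF)).ennreal_ofReal
  have hm1 : Measurable (Function.uncurry fun x y =>
      ENNReal.ofReal (G (redH γ F) x y) * Ψ x y) := hG.mul hΨ
  have hsf : SFinite (red γ m) := by unfold red; infer_instance
  rw [lintegral_red m hm1.lintegral_prod_right]
  apply lintegral_congr_ae
  filter_upwards [ae_pos_of hnull] with x hx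
  rw [lintegral_red m hm1.of_uncurry_left, ← lintegral_const_mul _ (by
    have := hm1.of_uncurry_left (x := x)
    fun_prop)]
  apply lintegral_congr_ae
  filter_upwards [ae_pos_of hnull] with y hy
  rw [kern_eq hx hy, ENNReal.ofReal_mul (by positivity), ENNReal.ofReal_mul (by positivity)]
  ring

/-- The weak form of the coagulation equation with Lebesgue integrals. -/
structure Pre (γ : ℝ) (F : ℝ → ℝ) (M : ℝ) (ν m : Measure ℝ) : Prop where
  null : m (Iic 0) = 0
  loc : ∀ a b : ℝ, 0 < a → m (Icc a b) < ⊤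
  loss : ∀ a b : ℝ, 0 < a → ∫⁻ x in Icc a b, ∫⁻ y, ENNReal.ofReal (kern γ F x y) ∂m ∂m < ⊤
  eqn : ∀ ϕ : ℝ → ℝ, Test ϕ → (∀ x, 0 ≤ ϕ x) →
    ∫⁻ x, ∫⁻ y, ENNReal.ofReal (kern γ F x y) * ENNReal.ofReal (ϕ (x + y)) ∂m ∂m +
        2 * ∫⁻ x, ENNReal.ofReal (ϕ x) ∂ν =
      2 * ∫⁻ x, ∫⁻ y, ENNReal.ofReal (kern γ F x y) * ENNReal.ofReal (ϕ x) ∂m ∂m +
        2 * ENNReal.ofReal M *
          ∫⁻ x, ENNReal.ofReal (x ^ (-((1 - γ) / 2))) * ENNReal.ofReal (ϕ x) ∂m

/-- Finiteness of the moments. -/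
theorem Pre.exists_finite (hF : IsProfile γ F) {M : ℝ} {ν m : Measure ℝ} [IsFiniteMeasure ν]
    (hν0 : ν (Iic 0) = 0) (hνne : ν ≠ 0) (h : Pre γ F M ν m) :
    ∃ x₀ : ℝ, 0 < x₀ ∧
      ∫⁻ y, ENNReal.ofReal (y ^ ((1 + γ) / 2) * (1 / x₀ + 1 / y)) ∂m < ⊤ := by
  -- `m` is not zero
  have hmne : m ≠ 0 := by
    rintro rfl
    apply hνne
    apply measure_ext_of_test hν0 (m₂ := 0) (by simp)
    intro ϕ hϕ hϕ0
    have e := h.eqn ϕ hϕ hϕ0
    simp only [lintegral_zero_measure, mul_zero, zero_add] at e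
    rw [lintegral_zero_measure]
    rcases mul_eq_zero.1 e with h2 | h2
    · norm_num at h2
    · exact h2
  have hab : ∃ n : ℕ, m (Icc (1 / ((n : ℝ) + 1)) (n + 1)) ≠ 0 := by
    by_contra hcon
    push Not at hcon
    apply hmne
    rw [← Measure.measure_univ_eq_zero]
    have hu : univ ⊆ Iic 0 ∪ ⋃ n : ℕ, Icc (1 / ((n : ℝ) + 1)) ((n : ℝ) + 1) := by
      intro x _
      rcases le_or_gt x 0 with hx | hx
      · exact Or.inl hx
      · right
        rw [mem_iUnion]
        obtain ⟨n1, hn1⟩ := exists_nat_one_div_lt hx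
        obtain ⟨n2, hn2⟩ := exists_nat_ge x
        refine ⟨max n1 n2, ?_, ?_⟩
        · refine le_trans ?_ hn1.le
          apply one_div_le_one_div_of_le (by positivity)
          have : (n1 : ℝ) ≤ (max n1 n2 : ℕ) := by exact_mod_cast le_max_left _ _
          linarith
        · have : (n2 : ℝ) ≤ (max n1 n2 : ℕ) := by exact_mod_cast le_max_right _ _
          linarith
    apply measure_mono_null hu
    rw [measure_union_null_iff, measure_iUnion_null_iff]
    exact ⟨h.null, hcon⟩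
  obtain ⟨n, hn⟩ := hab
  set a : ℝ := 1 / ((n : ℝ) + 1) with ha
  set b : ℝ := (n : ℝ) + 1 with hb
  have ha0 : 0 < a := by positivity
  have hsf : SigmaFinite m := sigmaFinite_of h.null h.loc
  have hsing : ∃ x₀ ∈ Icc a b, ∫⁻ y, ENNReal.ofReal (kern γ F x₀ y) ∂m < ⊤ := by
    by_contra hcon
    push Not at hcon
    have h1 := h.loss a b ha0
    have h2 : ∫⁻ x in Icc a b, ⊤ ∂m ≤
        ∫⁻ x in Icc a b, ∫⁻ y, ENNReal.ofReal (kern γ F x y) ∂m ∂m :=
      setLIntegral_mono' measurableSet_Icc fun x hx => hcon x hx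
    rw [setLIntegral_const, ENNReal.top_mul hn] at h2
    exact absurd h1 (not_lt.2 h2)
  obtain ⟨x₀, hx₀, hfin⟩ := hsing
  have hx0 : 0 < x₀ := ha0.trans_le hx₀.1
  refine ⟨x₀, hx0, ?_⟩
  -- the set where the reduced profile is large
  have hH := prof_redH hF
  have hc := redH_continuous hF
  have e0 : ∃ δ > 0, ∀ s, |s| < δ → 1 / 2 < redH γ F s := by
    have h1 : ∀ᶠ s in 𝓝 (0 : ℝ), 1 / 2 < redH γ F s := by
      apply (hc.continuousAt (x := 0)).eventually_const_lt
      rw [hH.zero]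
      norm_num
    obtain ⟨δ, hδ, hδ2⟩ := Metric.eventually_nhds_iff.1 h1
    refine ⟨δ, hδ, fun s hs => hδ2 ?_⟩
    rwa [Real.dist_eq, sub_zero]
  obtain ⟨δ, hδ, hδ2⟩ := e0
  -- for small `y`
  set r : ℝ := δ * x₀ with hr
  have hr0 : 0 < r := by positivity
  have hsmall : ∀ y, 0 < y → y < r → 1 / 2 < redH γ F (x₀ / (x₀ + y)) := by
    intro y hy hyr
    rw [← redH_symm hF]
    apply hδ2
    have h1 : 1 - x₀ / (x₀ + y) = y / (x₀ + y) := by field_simp; ring
    rw [h1, abs_of_pos (by positivity), div_lt_iff₀ (by positivity)]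
    nlinarith
  set R : ℝ := x₀ / δ with hR
  have hlarge : ∀ y, 0 < y → R < y → 1 / 2 < redH γ F (x₀ / (x₀ + y)) := by
    intro y hy hyR
    apply hδ2
    rw [abs_of_pos (by positivity), div_lt_iff₀ (by positivity)]
    rw [hR, div_lt_iff₀ hδ] at hyR
    nlinarith
  have hbase : 0 < x₀ ^ ((1 + γ) / 2) := Real.rpow_pos_of_pos hx0 _
  set c : ℝ := 2 / x₀ ^ ((1 + γ) / 2) with hcdef
  have hc0 : 0 < c := by positivity
  have hlow : ∀ y, 0 < y → 1 / 2 < redH γ F (x₀ / (x₀ + y)) →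
      y ^ ((1 + γ) / 2) * (1 / x₀ + 1 / y) ≤ c * kern γ F x₀ y := by
    intro y hy hyH
    rw [kern_eq hx0 hy, G_eq x₀ y hx0 hy, hcdef]
    have h1 : 0 < y ^ ((1 + γ) / 2) := Real.rpow_pos_of_pos hy _
    have h2 : 2 / x₀ ^ ((1 + γ) / 2) * (x₀ ^ ((1 + γ) / 2) * y ^ ((1 + γ) / 2) *
        ((1 / x₀ + 1 / y) * redH γ F (x₀ / (x₀ + y)))) =
        y ^ ((1 + γ) / 2) * (1 / x₀ + 1 / y) * (2 * redH γ F (x₀ / (x₀ + y))) := by
      field_simp
    rw [h2]
    have h3 : 0 < y ^ ((1 + γ) / 2) * (1 / x₀ + 1 / y) := by positivity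
    nlinarith
  -- on the compact part
  have hcont : ContinuousOn (fun y : ℝ => y ^ ((1 + γ) / 2) * (1 / x₀ + 1 / y)) (Icc r R) := by
    intro y hy
    have hy0 : y ≠ 0 := (hr0.trans_le hy.1).ne'
    apply ContinuousAt.continuousWithinAt
    apply ContinuousAt.mul
    · exact (continuousAt_id).rpow_const (Or.inl hy0)
    · exact continuousAt_const.add (continuousAt_const.div continuousAt_id hy0)
  obtain ⟨D, hD⟩ := isCompact_Icc.exists_bound_of_continuousOn hcont
  calc ∫⁻ y, ENNReal.ofReal (y ^ ((1 + γ) / 2) * (1 / x₀ + 1 / y)) ∂m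
      ≤ ∫⁻ y, (ENNReal.ofReal c * ENNReal.ofReal (kern γ F x₀ y) +
          (Icc r R).indicator (fun _ => ENNReal.ofReal D) y) ∂m := by
        apply lintegral_mono_ae
        filter_upwards [ae_pos_of h.null] with y hy
        by_cases hmem : y ∈ Icc r R
        · rw [indicator_of_mem hmem]
          refine le_trans ?_ (self_le_add_left _ _)
          exact ENNReal.ofReal_le_ofReal ((le_abs_self _).trans (hD y hmem))
        · rw [indicator_of_notMem hmem, add_zero, ← ENNReal.ofReal_mul hc0.le]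
          apply ENNReal.ofReal_le_ofReal
          apply hlow y hy
          rw [mem_Icc, not_and_or, not_le, not_le] at hmem
          rcases hmem with h1 | h1
          · exact hsmall y hy h1
          · exact hlarge y hy h1
    _ = ENNReal.ofReal c * ∫⁻ y, ENNReal.ofReal (kern γ F x₀ y) ∂m +
          ENNReal.ofReal D * m (Icc r R) := by
        rw [lintegral_add_right _ (measurable_const.indicator measurableSet_Icc),
          lintegral_const_mul' _ _ ENNReal.ofReal_ne_top,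
          lintegral_indicator_const measurableSet_Icc]
    _ < ⊤ := ENNReal.add_lt_top.2 ⟨ENNReal.mul_lt_top ENNReal.ofReal_lt_top hfin,
        ENNReal.mul_lt_top ENNReal.ofReal_lt_top (h.loc _ _ hr0)⟩

/-- Solutions of the coagulation equation yield solutions of the reduced equation. -/
theorem Pre.core (hF : IsProfile γ F) {M : ℝ} {ν m : Measure ℝ} [IsFiniteMeasure ν]
    (hν0 : ν (Iic 0) = 0) (hνne : ν ≠ 0) (h : Pre γ F M ν m) :
    Core (redH γ F) M ν (red γ m) := by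
  obtain ⟨x₀, hx₀, hfin⟩ := h.exists_finite hF hν0 hνne
  have hsf : SigmaFinite m := sigmaFinite_of h.null h.loc
  have hH := prof_redH hF
  have h1 : red γ m univ < ⊤ := by
    rw [← lintegral_one, lintegral_red m measurable_const]
    have : ∫⁻ x, ENNReal.ofReal (x ^ ((1 + γ) / 2)) * 1 ∂m ≤
        ∫⁻ y, ENNReal.ofReal x₀ * ENNReal.ofReal (y ^ ((1 + γ) / 2) * (1 / x₀ + 1 / y)) ∂m := by
      apply lintegral_mono_ae
      filter_upwards [ae_pos_of h.null] with y hy
      rw [mul_one, ← ENNReal.ofReal_mul hx₀.le]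
      apply ENNReal.ofReal_le_ofReal
      have h2 : 0 < y ^ ((1 + γ) / 2) := Real.rpow_pos_of_pos hy _
      have h3 : x₀ * (y ^ ((1 + γ) / 2) * (1 / x₀ + 1 / y)) =
          y ^ ((1 + γ) / 2) + y ^ ((1 + γ) / 2) * (x₀ / y) := by
        field_simp
      rw [h3]
      have : 0 < y ^ ((1 + γ) / 2) * (x₀ / y) := by positivity
      linarith
    refine this.trans_lt ?_
    rw [lintegral_const_mul' _ _ ENNReal.ofReal_ne_top]
    exact ENNReal.mul_lt_top ENNReal.ofReal_lt_top hfin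
  have h2 : ∫⁻ x, ENNReal.ofReal (1 / x) ∂(red γ m) < ⊤ := by
    rw [lintegral_red m (by fun_prop)]
    refine lt_of_le_of_lt ?_ hfin
    apply lintegral_mono_ae
    filter_upwards [ae_pos_of h.null] with y hy
    have h2 : 0 < y ^ ((1 + γ) / 2) := Real.rpow_pos_of_pos hy _
    rw [← ENNReal.ofReal_mul h2.le]
    apply ENNReal.ofReal_le_ofReal
    apply mul_le_mul_of_nonneg_left _ h2.le
    have : 0 < 1 / x₀ := by positivity
    linarith
  refine ⟨h1, red_Iic h.null, h2, fun φ hφ => ?_⟩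
  have key := ext_identity hH h1 (red_Iic h.null) h2 hν0 (c := fun _ => (1 : ℝ)) measurable_const
    (fun _ => le_rfl) (m := ENNReal.ofReal M) ENNReal.ofReal_lt_top (fun ϕ hϕ hϕ0 => by
      have hϕm := hϕ.smooth.continuous.measurable
      simp only [one_mul]
      rw [lintegral_red₂ hF h.null (Ψ := fun x y => ENNReal.ofReal (ϕ (x + y)))
          (by unfold Function.uncurry; fun_prop),
        lintegral_red₂ hF h.null (Ψ := fun x y => ENNReal.ofReal (ϕ x))
          (by unfold Function.uncurry; fun_prop),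
        lintegral_red_inv h.null (by fun_prop)]
      exact h.eqn ϕ hϕ hϕ0) hφ
  simp only [one_mul] at key
  exact key

end Pool.Agent.Lib.MP_e589f0_an
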