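import Pool.Agent.Lib.MP_e589f0_an.Core

/-!
# The kernel and its reduced profile
-/

namespace Pool.Agent.Lib.MP_e589f0_an

open MeasureTheory Set Filter
open scoped Topology ENNReal

/-- The kernel `K(x, y) = (x + y) ^ γ * F (x / (x + y))`. -/
noncomputable def kern (γ : ℝ) (F : ℝ → ℝ) (x y : ℝ) : ℝ :=
  (x + y) ^ γ * F (x / (x + y))

/-- Admissible profiles: `F` is continuous, nonnegative and symmetric on `(0, 1)`, and
`F(s) ~ s ^ (-(1 - γ) / 2)` as `s → 0⁺`. -/
structure IsProfile (γ : ℝ) (F : ℝ → ℝ) : Prop where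
  cont : ContinuousOn F (Ioo 0 1)
  nonneg : ∀ s ∈ Ioo (0 : ℝ) 1, 0 ≤ F s
  symm : ∀ s ∈ Ioo (0 : ℝ) 1, F (1 - s) = F s
  asymp : Tendsto (fun s => F s / s ^ (-((1 - γ) / 2))) (𝓝[>] 0) (𝓝 1)

/-- The reduced profile. -/
noncomputable def redH (γ : ℝ) (F : ℝ → ℝ) (s : ℝ) : ℝ :=
  if 0 < s ∧ s < 1 then F s * (s * (1 - s)) ^ ((1 - γ) / 2) else 1

variable {γ : ℝ} {F : ℝ → ℝ}

theorem redH_of_mem {s : ℝ} (h0 : 0 < s) (h1 : s < 1) :
    redH γ F s = F s * (s * (1 - s)) ^ ((1 - γ) / 2) := if_pos ⟨h0, h1⟩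

theorem redH_of_le {s : ℝ} (h : s ≤ 0) : redH γ F s = 1 :=
  if_neg fun h2 => absurd h2.1 (not_lt.2 h)

theorem redH_of_ge {s : ℝ} (h : 1 ≤ s) : redH γ F s = 1 :=
  if_neg fun h2 => absurd h2.2 (not_lt.2 h)

theorem redH_symm (hF : IsProfile γ F) (s : ℝ) : redH γ F (1 - s) = redH γ F s := by
  by_cases h : 0 < s ∧ s < 1
  · rw [redH_of_mem h.1 h.2, redH_of_mem (by linarith [h.2]) (by linarith [h.1]),
      hF.symm s ⟨h.1, h.2⟩]
    congr 2
    ring
  · rw [not_and_or, not_lt, not_lt] at h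
    rcases h with h | h
    · rw [redH_of_le h, redH_of_ge (by linarith)]
    · rw [redH_of_ge h, redH_of_le (by linarith)]

theorem redH_nonneg (hF : IsProfile γ F) (s : ℝ) : 0 ≤ redH γ F s := by
  by_cases h : 0 < s ∧ s < 1
  · rw [redH_of_mem h.1 h.2]
    have h1 : 0 ≤ s * (1 - s) := mul_nonneg h.1.le (by linarith [h.2])
    exact mul_nonneg (hF.nonneg s h) (Real.rpow_nonneg h1 _)
  · unfold redH
    rw [if_neg h]
    exact zero_le_one

theorem redH_continuousAt_zero (hF : IsProfile γ F) : ContinuousAt (redH γ F) 0 := by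
  rw [continuousAt_iff_continuous_left'_right']
  have h0 : redH γ F 0 = 1 := redH_of_le le_rfl
  constructor
  · unfold ContinuousWithinAt
    rw [h0]
    apply tendsto_const_nhds.congr'
    filter_upwards [self_mem_nhdsWithin] with s hs
    exact (redH_of_le (le_of_lt hs)).symm
  · unfold ContinuousWithinAt
    rw [h0]
    have h1 : Tendsto (fun s : ℝ => (1 - s) ^ ((1 - γ) / 2)) (𝓝[>] 0) (𝓝 1) := by
      have h2 : ContinuousAt (fun s : ℝ => (1 - s) ^ ((1 - γ) / 2)) 0 := by
        apply ContinuousAt.rpow_const (by fun_prop)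
        left; norm_num
      have h3 := h2.tendsto
      simp only [sub_zero, Real.one_rpow] at h3
      exact h3.mono_left nhdsWithin_le_nhds
    have h4 := hF.asymp.mul h1
    rw [mul_one] at h4
    refine h4.congr' ?_
    have h5 : Ioo (0 : ℝ) 1 ∈ 𝓝[>] (0 : ℝ) := Ioo_mem_nhdsGT one_pos
    filter_upwards [h5] with s hs
    rw [redH_of_mem hs.1 hs.2, Real.rpow_neg hs.1.le, div_inv_eq_mul,
      Real.mul_rpow hs.1.le (by linarith [hs.2])]
    ring

theorem redH_continuous (hF : IsProfile γ F) : Continuous (redH γ F) := by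
  rw [continuous_iff_continuousAt]
  intro s
  rcases lt_trichotomy s 0 with h | h | h
  · apply continuousAt_const.congr (f := fun _ => (1 : ℝ))
    filter_upwards [Iio_mem_nhds h] with x hx
    exact (redH_of_le (le_of_lt hx)).symm
  · subst h
    exact redH_continuousAt_zero hF
  · rcases lt_trichotomy s 1 with h' | h' | h'
    · have h1 : ContinuousAt (fun s => F s * (s * (1 - s)) ^ ((1 - γ) / 2)) s := by
        apply ContinuousAt.mul
        · exact hF.cont.continuousAt (Ioo_mem_nhds h h')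
        · apply ContinuousAt.rpow_const (by fun_prop)
          left
          have : 0 < 1 - s := by linarith
          positivity
      apply h1.congr
      filter_upwards [Ioo_mem_nhds h h'] with x hx
      exact (redH_of_mem hx.1 hx.2).symm
    · subst h'
      have h1 : ContinuousAt (fun s => redH γ F (1 - s)) 1 := by
        have h2 : ContinuousAt (redH γ F) ((fun s : ℝ => 1 - s) 1) := by
          simp only [sub_self]
          exact redH_continuousAt_zero hF
        exact ContinuousAt.comp h2 (by fun_prop)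
      exact h1.congr (Eventually.of_forall fun s => redH_symm hF s)
    · apply continuousAt_const.congr (f := fun _ => (1 : ℝ))
      filter_upwards [Ioi_mem_nhds h'] with x hx
      exact (redH_of_ge (le_of_lt hx)).symm

theorem prof_redH (hF : IsProfile γ F) : Prof (redH γ F) := by
  refine ⟨redH_continuous hF, redH_nonneg hF, ?_, redH_of_le le_rfl, redH_symm hF⟩
  obtain ⟨C, hC⟩ := (isCompact_Icc (a := (0 : ℝ)) (b := 1)).exists_bound_of_continuousOn
    (redH_continuous hF).continuousOn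
  refine ⟨max C 1, fun s => ?_⟩
  by_cases h : s ∈ Icc (0 : ℝ) 1
  · exact (le_abs_self _).trans ((hC s h).trans (le_max_left _ _))
  · rw [mem_Icc, not_and_or, not_le, not_le] at h
    rcases h with h | h
    · rw [redH_of_le h.le]; exact le_max_right _ _
    · rw [redH_of_ge h.le]; exact le_max_right _ _

theorem frac_mem {x y : ℝ} (hx : 0 < x) (hy : 0 < y) : 0 < x / (x + y) ∧ x / (x + y) < 1 := by
  refine ⟨by positivity, ?_⟩
  rw [div_lt_one (by positivity)]
  linarith

theorem kern_nonneg (hF : IsProfile γ F) {x y : ℝ} (hx : 0 < x) (hy : 0 < y) :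
    0 ≤ kern γ F x y := by
  unfold kern
  exact mul_nonneg (Real.rpow_nonneg (by positivity) _) (hF.nonneg _ (frac_mem hx hy))

/-- The kernel in terms of the reduced kernel. -/
theorem kern_eq {x y : ℝ} (hx : 0 < x) (hy : 0 < y) :
    kern γ F x y = x ^ ((1 + γ) / 2) * y ^ ((1 + γ) / 2) * G (redH γ F) x y := by
  obtain ⟨h0, h1⟩ := frac_mem hx hy
  have hxy : 0 < x + y := by positivity
  unfold kern G
  rw [redH_of_mem h0 h1]
  have e1 : x / (x + y) * (1 - x / (x + y)) = (x * y) / (x + y) ^ (2 : ℝ) := by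
    rw [Real.rpow_two]
    field_simp
    ring
  rw [e1, Real.div_rpow (by positivity) (by positivity), Real.mul_rpow hx.le hy.le,
    ← Real.rpow_mul hxy.le]
  have ex : x ^ ((1 + γ) / 2) * x ^ ((1 - γ) / 2) = x := by
    rw [← Real.rpow_add hx]
    have : (1 + γ) / 2 + (1 - γ) / 2 = 1 := by ring
    rw [this, Real.rpow_one]
  have ey : y ^ ((1 + γ) / 2) * y ^ ((1 - γ) / 2) = y := by
    rw [← Real.rpow_add hy]
    have : (1 + γ) / 2 + (1 - γ) / 2 = 1 := by ring
    rw [this, Real.rpow_one]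
  have exy : (x + y) ^ γ * (x + y) ^ (2 * ((1 - γ) / 2)) = x + y := by
    rw [← Real.rpow_add hxy]
    have : γ + 2 * ((1 - γ) / 2) = 1 := by ring
    rw [this, Real.rpow_one]
  have hne : (x + y) ^ (2 * ((1 - γ) / 2)) ≠ 0 := (Real.rpow_pos_of_pos hxy _).ne'
  have hx' : x ≠ 0 := hx.ne'
  have hy' : y ≠ 0 := hy.ne'
  calc (x + y) ^ γ * F (x / (x + y))
      = ((x + y) ^ γ * (x + y) ^ (2 * ((1 - γ) / 2))) /
          (x + y) ^ (2 * ((1 - γ) / 2)) * F (x / (x + y)) := by
        field_simp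
    _ = (x + y) / (x + y) ^ (2 * ((1 - γ) / 2)) * F (x / (x + y)) := by rw [exy]
    _ = (x ^ ((1 + γ) / 2) * x ^ ((1 - γ) / 2)) * (y ^ ((1 + γ) / 2) * y ^ ((1 - γ) / 2)) /
          (x * y) * ((x + y) / (x + y) ^ (2 * ((1 - γ) / 2)) * F (x / (x + y))) := by
        rw [ex, ey, div_self (mul_ne_zero hx' hy'), one_mul]
    _ = _ := by ring

theorem redH_eq_zero_iff {x y : ℝ} (hx : 0 < x) (hy : 0 < y) :
    redH γ F (x / (x + y)) = 0 ↔ F (x / (x + y)) = 0 := by
  obtain ⟨h0, h1⟩ := frac_mem hx hy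
  rw [redH_of_mem h0 h1]
  have : 0 < (x / (x + y) * (1 - x / (x + y))) ^ ((1 - γ) / 2) :=
    Real.rpow_pos_of_pos (mul_pos h0 (by linarith)) _
  constructor
  · intro h
    rcases mul_eq_zero.1 h with h | h
    · exact h
    · exact absurd h this.ne'
  · intro h
    rw [h, zero_mul]

end Pool.Agent.Lib.MP_e589f0_an
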